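import Mathlib

/-!
# Crossing paths in the closed unit disk

Two paths in the closed unit disk whose endpoints alternate on the unit circle meet.
-/

open Set Complex Real

namespace Pool.Agent.Lib.MP_1e7707_gt

/-- Increment of a continuous logarithm of `k (c - u s)`, where `u` stays in the closed unit disk,
`c` is on the unit circle and `u` avoids `c`. -/
lemma log_increment {u ℓ : ℝ → ℂ} {c k : ℂ} (hu : Continuous u) (hℓ : Continuous ℓ)
    (hc : ‖c‖ = 1) (hu1 : ∀ s, ‖u s‖ ≤ 1) (hne : ∀ s, u s ≠ c) (hk : k ≠ 0)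
    (h : ∀ s, exp (ℓ s) = k * (c - u s)) :
    ℓ 1 - ℓ 0 = log (1 - u 1 / c) - log (1 - u 0 / c) := by
  have hc0 : c ≠ 0 := by
    intro h0
    rw [h0, norm_zero] at hc
    exact zero_ne_one hc
  have hne' : ∀ s, 1 - u s / c ≠ 0 := by
    intro s h0
    apply hne s
    have : u s / c = 1 := (sub_eq_zero.mp h0).symm
    rwa [div_eq_one_iff_eq hc0] at this
  have hslit : ∀ s, 1 - u s / c ∈ slitPlane := by
    intro s
    have hn : ‖u s / c‖ ≤ 1 := by
      rw [norm_div, hc, div_one]
      exact hu1 s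
    have hre : (u s / c).re ≤ 1 := (re_le_norm _).trans hn
    rcases lt_or_eq_of_le hre with hlt | heq
    · left
      simp only [sub_re, one_re]
      linarith
    · exfalso
      apply hne' s
      have him : (u s / c).im = 0 := by
        have h1 : (u s / c).re ^ 2 + (u s / c).im ^ 2 ≤ 1 := by
          have h2 : ‖u s / c‖ ^ 2 ≤ 1 := by
            have := norm_nonneg (u s / c)
            nlinarith
          rw [Complex.sq_norm, normSq_apply] at h2
          nlinarith
        rw [heq] at h1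
        nlinarith [sq_nonneg (u s / c).im]
      apply Complex.ext
      · simp [heq]
      · simp [him]
  have hcont : Continuous fun s => log (1 - u s / c) := by
    apply Continuous.clog
    · fun_prop
    · exact hslit
  have key : ℓ = fun s => ℓ 0 + (log (1 - u s / c) - log (1 - u 0 / c)) := by
    apply isCoveringMap_exp.eq_of_comp_eq hℓ (by fun_prop) (a := 0) ?_ (by simp)
    funext s
    apply Subtype.ext
    simp only [Function.comp_apply]
    rw [Complex.exp_add, Complex.exp_sub, Complex.exp_log (hne' s), Complex.exp_log (hne' 0), h, h]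
    have hn0 := hne' 0
    field_simp
    have h1 : c - u 0 ≠ 0 := sub_ne_zero.mpr (hne 0).symm
    field_simp
  rw [key]
  simp

lemma arg_one_sub_exp_pos {φ : ℝ} (h0 : 0 < φ) (h1 : φ < 2 * π) :
    (log (1 - exp (φ * I))).im = (φ - π) / 2 := by
  rw [log_im]
  have hs : 0 < Real.sin (φ / 2) := Real.sin_pos_of_pos_of_lt_pi (by linarith) (by linarith)
  have key : 1 - exp (φ * I) =
      ((2 * Real.sin (φ / 2) : ℝ) : ℂ) * (Complex.cos ((φ - π) / 2 : ℝ) +
        Complex.sin ((φ - π) / 2 : ℝ) * I) := by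
    have e1 : (φ - π) / 2 = φ / 2 - π / 2 := by ring
    rw [e1, ← Complex.ofReal_cos, ← Complex.ofReal_sin, Real.cos_sub_pi_div_two,
      Real.sin_sub_pi_div_two, exp_mul_I]
    have hφ : (φ : ℂ) = ((2 * (φ / 2) : ℝ) : ℂ) := by push_cast; ring
    rw [hφ, ← Complex.ofReal_cos, ← Complex.ofReal_sin, Real.cos_two_mul, Real.sin_two_mul]
    have hsc : Real.cos (φ / 2) ^ 2 = 1 - Real.sin (φ / 2) ^ 2 := by
      have := Real.sin_sq_add_cos_sq (φ / 2)
      linarith
    rw [hsc]
    push_cast
    ring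
  rw [key, arg_mul_cos_add_sin_mul_I (by positivity)]
  constructor <;> linarith [Real.pi_pos]

lemma arg_one_sub_exp_neg {φ : ℝ} (h0 : φ < 0) (h1 : -(2 * π) < φ) :
    (log (1 - exp (φ * I))).im = (φ + π) / 2 := by
  have h := arg_one_sub_exp_pos (φ := -φ) (by linarith) (by linarith)
  have hconj : 1 - exp (φ * I) = (starRingEnd ℂ) (1 - exp (((-φ : ℝ) : ℂ) * I)) := by
    rw [map_sub, map_one, ← Complex.exp_conj, map_mul, conj_I, conj_ofReal]
    push_cast
    ring_nf
  rw [log_im] at h ⊢
  rw [hconj, arg_conj, if_neg, h]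
  · ring
  · rw [h]
    intro h2
    linarith

/-- Two paths in the closed unit disk whose endpoints alternate on the unit circle meet. -/
theorem crossing_paths {α β : ℝ → ℂ} (hα : Continuous α) (hβ : Continuous β)
    (hα1 : ∀ s, ‖α s‖ ≤ 1) (hβ1 : ∀ s, ‖β s‖ ≤ 1) {θ₁ θ₂ θ₃ θ₄ : ℝ}
    (h12 : θ₁ < θ₂) (h23 : θ₂ < θ₃) (h34 : θ₃ < θ₄) (h41 : θ₄ < θ₁ + 2 * π)
    (hα0 : α 0 = exp (θ₁ * I)) (hα1' : α 1 = exp (θ₃ * I))
    (hβ0 : β 0 = exp (θ₂ * I)) (hβ1' : β 1 = exp (θ₄ * I)) : ∃ s t, α s = β t := by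
  by_contra hcon
  push Not at hcon
  obtain ⟨L, hLc, hL⟩ := exists_continuousOn_eqOn_exp_comp (X := ℝ × ℝ) (U := univ)
    (g := fun p => β p.2 - α p.1) (by
      have : ContractibleSpace (univ : Set (ℝ × ℝ)) :=
        (convex_univ (𝕜 := ℝ)).contractibleSpace univ_nonempty
      exact SimplyConnectedSpace.ofContractible _) isOpen_univ
    (by fun_prop) (by
      rintro ⟨p, -, hp⟩
      exact hcon p.1 p.2 (sub_eq_zero.mp hp).symm)
  rw [continuousOn_univ] at hLc
  have hL' : ∀ s t, exp (L (s, t)) = β t - α s := fun s t => hL (mem_univ (s, t))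
  have e1 := log_increment (u := α) (ℓ := fun s => L (s, 0)) (c := β 0) (k := 1) hα (by fun_prop)
    (by rw [hβ0, norm_exp_ofReal_mul_I]) hα1 (fun s => hcon s 0) one_ne_zero
    (fun s => by rw [hL', one_mul])
  have e2 := log_increment (u := β) (ℓ := fun t => L (1, t)) (c := α 1) (k := -1) hβ (by fun_prop)
    (by rw [hα1', norm_exp_ofReal_mul_I]) hβ1 (fun t => (hcon 1 t).symm) (by norm_num)
    (fun t => by rw [hL']; ring)
  have e3 := log_increment (u := β) (ℓ := fun t => L (0, t)) (c := α 0) (k := -1) hβ (by fun_prop)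
    (by rw [hα0, norm_exp_ofReal_mul_I]) hβ1 (fun t => (hcon 0 t).symm) (by norm_num)
    (fun t => by rw [hL']; ring)
  have e4 := log_increment (u := α) (ℓ := fun s => L (s, 1)) (c := β 1) (k := 1) hα (by fun_prop)
    (by rw [hβ1', norm_exp_ofReal_mul_I]) hα1 (fun s => hcon s 1) one_ne_zero
    (fun s => by rw [hL', one_mul])
  have hdiv : ∀ a b : ℝ, exp (a * I) / exp (b * I) = exp (((a - b : ℝ) : ℂ) * I) := by
    intro a b
    rw [← Complex.exp_sub]
    push_cast
    ring_nf
  rw [hα1', hα0, hβ0, hdiv, hdiv] at e1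
  rw [hα1', hβ0, hβ1', hdiv, hdiv] at e2
  rw [hα0, hβ0, hβ1', hdiv, hdiv] at e3
  rw [hα0, hα1', hβ1', hdiv, hdiv] at e4
  have f1 := congrArg Complex.im e1
  have f2 := congrArg Complex.im e2
  have f3 := congrArg Complex.im e3
  have f4 := congrArg Complex.im e4
  rw [sub_im, sub_im, arg_one_sub_exp_pos (by linarith) (by linarith),
    arg_one_sub_exp_neg (by linarith) (by linarith)] at f1
  rw [sub_im, sub_im, arg_one_sub_exp_pos (by linarith) (by linarith),
    arg_one_sub_exp_neg (by linarith) (by linarith)] at f2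
  rw [sub_im, sub_im, arg_one_sub_exp_pos (by linarith) (by linarith),
    arg_one_sub_exp_pos (by linarith) (by linarith)] at f3
  rw [sub_im, sub_im, arg_one_sub_exp_neg (by linarith) (by linarith),
    arg_one_sub_exp_neg (by linarith) (by linarith)] at f4
  have hpi := Real.pi_pos
  linarith

end Pool.Agent.Lib.MP_1e7707_gt
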