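import Mathlib
import Pool.Agent.Lib.MP_1e7707_gt.Crossing

/-!
# Embedded closed disks: non-crossing of disjoint connected sets
-/

open Set Metric

namespace Pool.Agent.Lib.MP_1e7707_gt

/-- `h` restricts to an embedding of the closed unit disk onto `D`, with the unit circle
going onto `T`. -/
structure IsDiskMap {S : Type*} [TopologicalSpace S] (h : ℂ → S) (D T : Set S) : Prop where
  cont : ContinuousOn h (closedBall 0 1)
  inj : InjOn h (closedBall 0 1)
  image_disk : h '' closedBall 0 1 = D
  image_circle : h '' sphere 0 1 = T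

variable {S : Type*} [TopologicalSpace S] {h : ℂ → S} {D T : Set S}

/-- In a connected locally path connected closed disk, a preconnected set inside an open set
yields joining paths. -/
lemma joinedIn_of_isPreconnected {X : Type*} [TopologicalSpace X] [LocallyPathConnectedSpace X]
    {U B : Set X} (hU : IsOpen U) (hB : IsPreconnected B) (hBU : B ⊆ U) {x y : X}
    (hx : x ∈ B) (hy : y ∈ B) : JoinedIn U x y := by
  have hsub : B ⊆ connectedComponentIn U x := hB.subset_connectedComponentIn hx hBU
  have hopen : IsOpen (connectedComponentIn U x) := hU.connectedComponentIn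
  have hconn : IsConnected (connectedComponentIn U x) :=
    isConnected_connectedComponentIn_iff.mpr (hBU hx)
  have hpc := hopen.isConnected_iff_isPathConnected.mp hconn
  exact (hpc.joinedIn x (hsub hx) y (hsub hy)).mono (connectedComponentIn_subset U x)

/-- The circle parametrisation attached to a disk map. -/
noncomputable def circ (h : ℂ → S) (θ : ℝ) : S := h (Complex.exp (θ * Complex.I))

lemma exp_mem_sphere (θ : ℝ) : Complex.exp (θ * Complex.I) ∈ sphere (0 : ℂ) 1 := by
  rw [mem_sphere_zero_iff_norm, Complex.norm_exp_ofReal_mul_I]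

lemma IsDiskMap.isClosedEmbedding [T2Space S] (hd : IsDiskMap h D T) :
    Topology.IsClosedEmbedding (fun x : closedBall (0 : ℂ) 1 => h x) := by
  apply Continuous.isClosedEmbedding
  · exact hd.cont.comp_continuous continuous_subtype_val (fun x => x.2)
  · intro x y hxy
    exact Subtype.ext (hd.inj x.2 y.2 hxy)

lemma IsDiskMap.range_eq (hd : IsDiskMap h D T) :
    range (fun x : closedBall (0 : ℂ) 1 => h x) = D := by
  rw [← hd.image_disk, image_eq_range]

lemma IsDiskMap.isClosed [T2Space S] (hd : IsDiskMap h D T) : IsClosed D := by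
  rw [← hd.range_eq]
  exact hd.isClosedEmbedding.isClosed_range

lemma IsDiskMap.circ_mem (hd : IsDiskMap h D T) (θ : ℝ) : circ h θ ∈ T := by
  rw [← hd.image_circle]
  exact mem_image_of_mem _ (exp_mem_sphere θ)

lemma IsDiskMap.subset (hd : IsDiskMap h D T) : T ⊆ D := by
  rw [← hd.image_circle, ← hd.image_disk]
  exact image_mono sphere_subset_closedBall

/-- Two disjoint connected subsets of the disk, one of them closed, cannot cross. -/
theorem IsDiskMap.no_crossing [T2Space S] (hd : IsDiskMap h D T) {A B : Set S}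
    (hA : IsPreconnected A) (hB : IsPreconnected B) (hAD : A ⊆ D) (hBD : B ⊆ D)
    (hAc : IsClosed A) (hAB : Disjoint A B) {θ₁ θ₂ θ₃ θ₄ : ℝ}
    (h12 : θ₁ < θ₂) (h23 : θ₂ < θ₃) (h34 : θ₃ < θ₄) (h41 : θ₄ < θ₁ + 2 * Real.pi)
    (h1 : circ h θ₁ ∈ A) (h3 : circ h θ₃ ∈ A) (h2 : circ h θ₂ ∈ B) (h4 : circ h θ₄ ∈ B) :
    False := by
  set φ : closedBall (0 : ℂ) 1 → S := fun x => h x with hφdef
  have hφ := hd.isClosedEmbedding
  rw [← hφdef] at hφ
  have hrange : range φ = D := hd.range_eq
  have : LocallyPathConnectedSpace (closedBall (0 : ℂ) 1) :=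
    (convex_closedBall (0 : ℂ) 1).locallyPathConnectedSpace
  have hA' : IsPreconnected (φ ⁻¹' A) := by
    rw [← hφ.isInducing.isPreconnected_image, image_preimage_eq_of_subset (by rw [hrange]; exact hAD)]
    exact hA
  have hB' : IsPreconnected (φ ⁻¹' B) := by
    rw [← hφ.isInducing.isPreconnected_image, image_preimage_eq_of_subset (by rw [hrange]; exact hBD)]
    exact hB
  have hA'c : IsClosed (φ ⁻¹' A) := hAc.preimage hφ.continuous
  let pt : ℝ → closedBall (0 : ℂ) 1 := fun θ =>
    ⟨Complex.exp (θ * Complex.I), sphere_subset_closedBall (exp_mem_sphere θ)⟩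
  have hBA : φ ⁻¹' B ⊆ (φ ⁻¹' A)ᶜ := by
    intro x hx hxA
    exact disjoint_left.mp hAB hxA hx
  obtain ⟨β, hβ⟩ : JoinedIn (φ ⁻¹' A)ᶜ (pt θ₂) (pt θ₄) :=
    joinedIn_of_isPreconnected hA'c.isOpen_compl hB' hBA h2 h4
  have hβc : IsClosed (range β) := (isCompact_range β.continuous).isClosed
  have hAβ : φ ⁻¹' A ⊆ (range β)ᶜ := by
    rintro x hx ⟨t, rfl⟩
    exact hβ t hx
  obtain ⟨α, hα⟩ : JoinedIn (range β)ᶜ (pt θ₁) (pt θ₃) :=
    joinedIn_of_isPreconnected hβc.isOpen_compl hA' hAβ h1 h3
  obtain ⟨s, t, hst⟩ := crossing_paths (α := fun s => (α.extend s : ℂ))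
    (β := fun s => (β.extend s : ℂ)) (by fun_prop) (by fun_prop)
    (fun s => mem_closedBall_zero_iff.mp (α.extend s).2)
    (fun s => mem_closedBall_zero_iff.mp (β.extend s).2) h12 h23 h34 h41
    (by simp [pt]) (by simp [pt]) (by simp [pt]) (by simp [pt])
  have hst' : α.extend s = β.extend t := Subtype.ext hst
  obtain ⟨s', hs'⟩ : α.extend s ∈ range α := by
    rw [← α.extend_range]
    exact mem_range_self s
  apply hα s'
  rw [hs', hst', ← β.extend_range]
  exact mem_range_self t

/-! ### The circle parametrisation -/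

lemma IsDiskMap.continuous_circ (hd : IsDiskMap h D T) : Continuous (circ h) := by
  unfold circ
  exact hd.cont.comp_continuous (by fun_prop)
    (fun θ => sphere_subset_closedBall (exp_mem_sphere θ))

omit [TopologicalSpace S] in
lemma circ_add_two_pi (θ : ℝ) : circ h (θ + 2 * Real.pi) = circ h θ := by
  unfold circ
  congr 1
  push_cast
  rw [add_mul, Complex.exp_add, Complex.exp_two_pi_mul_I, mul_one]

/-- Each point of the boundary circle has a parameter in any half open interval of
length `2 π`. -/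
lemma IsDiskMap.exists_circ (hd : IsDiskMap h D T) (c : ℝ) {x : S} (hx : x ∈ T) :
    ∃ θ ∈ Ico c (c + 2 * Real.pi), circ h θ = x := by
  rw [← hd.image_circle] at hx
  obtain ⟨w, hw, rfl⟩ := hx
  rw [mem_sphere_zero_iff_norm] at hw
  have hw' : Complex.exp (w.arg * Complex.I) = w := by
    have := Complex.norm_mul_exp_arg_mul_I w
    rwa [hw, Complex.ofReal_one, one_mul] at this
  have hpi : (0 : ℝ) < 2 * Real.pi := by positivity
  refine ⟨toIcoMod hpi c w.arg, toIcoMod_mem_Ico hpi c w.arg, ?_⟩
  unfold circ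
  congr 1
  rw [toIcoMod]
  push_cast
  rw [sub_mul, Complex.exp_sub, hw']
  have : Complex.exp ((toIcoDiv hpi c w.arg • (2 * Real.pi) : ℝ) * Complex.I) = 1 := by
    rw [zsmul_eq_mul]
    push_cast
    rw [Complex.exp_eq_one_iff]
    exact ⟨_, by ring⟩
  push_cast at this
  simp only [zsmul_eq_mul] at this ⊢
  rw [this, div_one]

lemma IsDiskMap.circ_inj (hd : IsDiskMap h D T) {θ θ' : ℝ} (heq : circ h θ = circ h θ')
    (h1 : θ' < θ + 2 * Real.pi) (h2 : θ < θ' + 2 * Real.pi) : θ = θ' := by
  have h3 := hd.inj (sphere_subset_closedBall (exp_mem_sphere θ))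
    (sphere_subset_closedBall (exp_mem_sphere θ')) heq
  rw [Complex.exp_eq_exp_iff_exists_int] at h3
  obtain ⟨n, hn⟩ := h3
  have h4 : (θ : ℂ) = θ' + n * (2 * Real.pi) := by
    have hI := Complex.I_ne_zero
    apply mul_right_cancel₀ hI
    rw [hn]
    ring
  have h5 : θ = θ' + n * (2 * Real.pi) := by exact_mod_cast h4
  have hpi := Real.pi_pos
  have h6 : (n : ℝ) < 1 := by
    by_contra hcon
    push Not at hcon
    nlinarith
  have h7 : (-1 : ℝ) < n := by
    by_contra hcon
    push Not at hcon
    nlinarith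
  have h8 : n = 0 := by
    have a1 : n < 1 := by exact_mod_cast h6
    have a2 : -1 < n := by exact_mod_cast h7
    omega
  rw [h5, h8]
  simp

/-- The circle without one point is connected. -/
lemma IsDiskMap.isPreconnected_circle_diff (hd : IsDiskMap h D T) (t : ℝ) :
    IsPreconnected (T \ {circ h t}) := by
  have : T \ {circ h t} = circ h '' Ioo t (t + 2 * Real.pi) := by
    ext x
    constructor
    · rintro ⟨hxT, hxt⟩
      obtain ⟨θ, hθ, rfl⟩ := hd.exists_circ t hxT
      refine ⟨θ, ⟨lt_of_le_of_ne hθ.1 ?_, hθ.2⟩, rfl⟩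
      rintro rfl
      exact hxt rfl
    · rintro ⟨θ, hθ, rfl⟩
      refine ⟨hd.circ_mem θ, ?_⟩
      intro heq
      have := hd.circ_inj heq (by linarith [hθ.1, Real.pi_pos]) hθ.2
      linarith [hθ.1]
  rw [this]
  exact isPreconnected_Ioo.image _ hd.continuous_circ.continuousOn

/-- Relatively open sets in the disk have relatively open components. -/
lemma IsDiskMap.component_mem_nhdsWithin [T2Space S] (hd : IsDiskMap h D T) {C : Set S}
    (hC : IsClosed C) {x : S} (hx : x ∈ D \ C) :
    connectedComponentIn (D \ C) x ∈ nhdsWithin x D := by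
  set φ : closedBall (0 : ℂ) 1 → S := fun x => h x with hφdef
  have hφ := hd.isClosedEmbedding
  rw [← hφdef] at hφ
  have hrange : range φ = D := hd.range_eq
  have : LocallyPathConnectedSpace (closedBall (0 : ℂ) 1) :=
    (convex_closedBall (0 : ℂ) 1).locallyPathConnectedSpace
  obtain ⟨w, rfl⟩ : x ∈ range φ := by rw [hrange]; exact hx.1
  have hU : IsOpen (φ ⁻¹' C)ᶜ := (hC.preimage hφ.continuous).isOpen_compl
  have hw : w ∈ (φ ⁻¹' C)ᶜ := hx.2
  have hV : IsOpen (connectedComponentIn (φ ⁻¹' C)ᶜ w) := hU.connectedComponentIn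
  have hwV : w ∈ connectedComponentIn (φ ⁻¹' C)ᶜ w := mem_connectedComponentIn hw
  have hsub : φ '' connectedComponentIn (φ ⁻¹' C)ᶜ w ⊆ connectedComponentIn (D \ C) (φ w) := by
    apply IsPreconnected.subset_connectedComponentIn
    · exact isPreconnected_connectedComponentIn.image _ hφ.continuous.continuousOn
    · exact mem_image_of_mem _ hwV
    · rintro _ ⟨v, hv, rfl⟩
      refine ⟨?_, connectedComponentIn_subset _ _ hv⟩
      rw [← hrange]
      exact mem_range_self v
  have hn : connectedComponentIn (φ ⁻¹' C)ᶜ w ∈ nhds w := hV.mem_nhds hwV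
  have := hφ.isInducing.map_nhds_eq w
  rw [hrange] at this
  rw [← this, Filter.mem_map]
  exact Filter.mem_of_superset hn (fun v hv => hsub (mem_image_of_mem _ hv))

end Pool.Agent.Lib.MP_1e7707_gt
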