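import Mathlib
import Pool.Agent.Lib.MP_1e7707_gt.Disk

/-!
# Countability lemmas for families of disjoint connected sets in a disk
-/

open Set Metric

namespace Pool.Agent.Lib.MP_1e7707_gt

variable {S : Type*} [TopologicalSpace S] [T2Space S] {h : ℂ → S} {D T : Set S}

lemma IsDiskMap.closure_component_subset (hd : IsDiskMap h D T) {C : Set S}
    (hC : IsClosed C) (x : S) :
    closure (connectedComponentIn (D \ C) x) ⊆ connectedComponentIn (D \ C) x ∪ C := by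
  intro p hp
  by_cases hpC : p ∈ C
  · exact Or.inr hpC
  · left
    have hpD : p ∈ D := by
      have : closure (connectedComponentIn (D \ C) x) ⊆ D :=
        closure_minimal ((connectedComponentIn_subset _ _).trans sdiff_subset) hd.isClosed
      exact this hp
    have hn := hd.component_mem_nhdsWithin hC ⟨hpD, hpC⟩
    rw [mem_nhdsWithin] at hn
    obtain ⟨U, hUo, hpU, hUD⟩ := hn
    obtain ⟨y, hyU, hyx⟩ := mem_closure_iff.mp hp U hUo hpU
    have hyD : y ∈ D := (connectedComponentIn_subset _ _ hyx).1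
    have hyp : y ∈ connectedComponentIn (D \ C) p := hUD ⟨hyU, hyD⟩
    have e1 := connectedComponentIn_eq hyx
    have e2 := connectedComponentIn_eq hyp
    rw [e1, ← e2]
    exact mem_connectedComponentIn ⟨hpD, hpC⟩

/-- If no three distinct members of a family share the same rational label,
then the family is countable. -/
lemma countable_of_no_three {ι : Type*} {I : Set ι} {α : Type*} [Countable α] (f : ι → α)
    (hf : ∀ i ∈ I, ∀ j ∈ I, ∀ k ∈ I, i ≠ j → j ≠ k → i ≠ k → f i = f j → f j = f k → False) :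
    I.Countable := by
  classical
  have : I ⊆ ⋃ q : α, {i ∈ I | f i = q} := by
    intro i hi
    exact mem_iUnion.mpr ⟨f i, hi, rfl⟩
  refine Countable.mono this (countable_iUnion fun q => ?_)
  by_contra hcon
  have hinf : {i ∈ I | f i = q}.Infinite := fun hfin => hcon hfin.countable
  obtain ⟨t, hts, htc⟩ := hinf.exists_subset_card_eq 3
  obtain ⟨i, j, k, hij, hik, hjk, rfl⟩ := Finset.card_eq_three.mp htc
  have hi : i ∈ {i ∈ I | f i = q} := hts (by simp)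
  have hj : j ∈ {i ∈ I | f i = q} := hts (by simp)
  have hk : k ∈ {i ∈ I | f i = q} := hts (by simp)
  exact hf i hi.1 j hj.1 k hk.1 hij hjk hik (hi.2.trans hj.2.symm) (hj.2.trans hk.2.symm)

omit [T2Space S] in
/-- Every point of `T` other than `circ h 0` has a parameter in `(0, 2π)`. -/
lemma IsDiskMap.exists_circ_Ioo (hd : IsDiskMap h D T) {x : S} (hx : x ∈ T)
    (hx0 : x ≠ circ h 0) : ∃ θ ∈ Ioo (0 : ℝ) (2 * Real.pi), circ h θ = x := by
  obtain ⟨θ, hθ, rfl⟩ := hd.exists_circ 0 hx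
  rw [zero_add] at hθ
  refine ⟨θ, ⟨lt_of_le_of_ne hθ.1 ?_, hθ.2⟩, rfl⟩
  rintro rfl
  exact hx0 rfl

omit [T2Space S] in
/-- Two distinct boundary points in a set missing `circ h 0` have ordered parameters. -/
lemma IsDiskMap.exists_two (hd : IsDiskMap h D T) {A : Set S} (h0 : circ h 0 ∉ A)
    {x y : S} (hx : x ∈ A ∩ T) (hy : y ∈ A ∩ T) (hxy : x ≠ y) :
    ∃ a b : ℝ, 0 < a ∧ a < b ∧ b < 2 * Real.pi ∧ circ h a ∈ A ∧ circ h b ∈ A := by
  obtain ⟨a, ha, rfl⟩ := hd.exists_circ_Ioo hx.2 (fun h => h0 (h ▸ hx.1))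
  obtain ⟨b, hb, rfl⟩ := hd.exists_circ_Ioo hy.2 (fun h => h0 (h ▸ hy.1))
  rcases lt_trichotomy a b with hab | hab | hab
  · exact ⟨a, b, ha.1, hab, hb.2, hx.1, hy.1⟩
  · exact absurd (by rw [hab]) hxy
  · exact ⟨b, a, hb.1, hab, ha.2, hy.1, hx.1⟩

omit [T2Space S] in
/-- Three distinct boundary points in a set missing `circ h 0` have ordered parameters. -/
lemma IsDiskMap.exists_three (hd : IsDiskMap h D T) {A : Set S} (h0 : circ h 0 ∉ A)
    {x y z : S} (hx : x ∈ A ∩ T) (hy : y ∈ A ∩ T) (hz : z ∈ A ∩ T)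
    (hxy : x ≠ y) (hyz : y ≠ z) (hxz : x ≠ z) :
    ∃ a b c : ℝ, 0 < a ∧ a < b ∧ b < c ∧ c < 2 * Real.pi ∧
      circ h a ∈ A ∧ circ h b ∈ A ∧ circ h c ∈ A := by
  obtain ⟨a, ha, rfl⟩ := hd.exists_circ_Ioo hx.2 (fun h => h0 (h ▸ hx.1))
  obtain ⟨b, hb, rfl⟩ := hd.exists_circ_Ioo hy.2 (fun h => h0 (h ▸ hy.1))
  obtain ⟨c, hc, rfl⟩ := hd.exists_circ_Ioo hz.2 (fun h => h0 (h ▸ hz.1))
  have hab : a ≠ b := by rintro rfl; exact hxy rfl
  have hbc : b ≠ c := by rintro rfl; exact hyz rfl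
  have hac : a ≠ c := by rintro rfl; exact hxz rfl
  rcases lt_or_gt_of_ne hab with h1 | h1 <;> rcases lt_or_gt_of_ne hbc with h2 | h2 <;>
    rcases lt_or_gt_of_ne hac with h3 | h3
  · exact ⟨a, b, c, ha.1, h1, h2, hc.2, hx.1, hy.1, hz.1⟩
  · exact absurd (h1.trans h2) (not_lt.mpr h3.le)
  · exact ⟨a, c, b, ha.1, h3, h2, hb.2, hx.1, hz.1, hy.1⟩
  · exact ⟨c, a, b, hc.1, h3, h1, hb.2, hz.1, hx.1, hy.1⟩
  · exact ⟨b, a, c, hb.1, h1, h3, hc.2, hy.1, hx.1, hz.1⟩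
  · exact ⟨b, c, a, hb.1, h2, h3, ha.2, hy.1, hz.1, hx.1⟩
  · exact absurd (h2.trans h1) (not_lt.mpr h3.le)
  · exact ⟨c, b, a, hc.1, h2, h1, ha.2, hz.1, hy.1, hx.1⟩

omit [TopologicalSpace S] [T2Space S] in
/-- At most one member of a disjoint family contains a given point. -/
lemma countable_of_mem {ι : Type*} {I : Set ι} {A : ι → Set S}
    (hdisj : ∀ i ∈ I, ∀ j ∈ I, i ≠ j → Disjoint (A i) (A j)) (p : S) :
    {i ∈ I | p ∈ A i}.Countable := by
  apply Set.Subsingleton.countable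
  rintro i ⟨hi, hpi⟩ j ⟨hj, hpj⟩
  by_contra hij
  exact disjoint_left.mp (hdisj i hi j hj hij) hpi hpj

/-- A family of disjoint closed connected subsets of the disk, each with at least three points
on the boundary circle, is countable. -/
theorem IsDiskMap.countable_three (hd : IsDiskMap h D T) {ι : Type*} {I : Set ι} {A : ι → Set S}
    (hdisj : ∀ i ∈ I, ∀ j ∈ I, i ≠ j → Disjoint (A i) (A j))
    (hc : ∀ i ∈ I, IsClosed (A i)) (hp : ∀ i ∈ I, IsPreconnected (A i))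
    (hD : ∀ i ∈ I, A i ⊆ D)
    (h3 : ∀ i ∈ I, ∃ x ∈ A i ∩ T, ∃ y ∈ A i ∩ T, ∃ z ∈ A i ∩ T, x ≠ y ∧ y ≠ z ∧ x ≠ z) :
    I.Countable := by
  classical
  have key : ∀ i ∈ I, circ h 0 ∉ A i → ∃ (a b c : ℝ) (q r : ℚ),
      0 < a ∧ a < q ∧ (q : ℝ) < b ∧ b < r ∧ (r : ℝ) < c ∧ c < 2 * Real.pi ∧
      circ h a ∈ A i ∧ circ h b ∈ A i ∧ circ h c ∈ A i := by
    intro i hi h0
    obtain ⟨x, hx, y, hy, z, hz, hxy, hyz, hxz⟩ := h3 i hi
    obtain ⟨a, b, c, h0a, hab, hbc, hc2, haA, hbA, hcA⟩ :=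
      hd.exists_three h0 hx hy hz hxy hyz hxz
    obtain ⟨q, hq1, hq2⟩ := exists_rat_btwn hab
    obtain ⟨r, hr1, hr2⟩ := exists_rat_btwn hbc
    exact ⟨a, b, c, q, r, h0a, hq1, hq2, hr1, hr2, hc2, haA, hbA, hcA⟩
  have hsub : I ⊆ {i ∈ I | circ h 0 ∈ A i} ∪ {i ∈ I | circ h 0 ∉ A i} := by
    intro i hi
    by_cases h0 : circ h 0 ∈ A i
    · exact Or.inl ⟨hi, h0⟩
    · exact Or.inr ⟨hi, h0⟩
  refine Countable.mono hsub ((countable_of_mem hdisj _).union ?_)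
  choose! a b c q r hkey using fun i (hi : i ∈ I) => key i hi
  apply countable_of_no_three (fun i => (q i, r i))
  rintro i ⟨hi, hi0⟩ j ⟨hj, hj0⟩ - - hij - - heq -
  simp only [Prod.mk.injEq] at heq
  obtain ⟨i1, i2, i3, i4, i5, i6, i7, i8, i9⟩ := hkey i hi hi0
  obtain ⟨j1, j2, j3, j4, j5, j6, j7, j8, j9⟩ := hkey j hj hj0
  rw [← heq.1] at j2 j3
  rw [← heq.2] at j4 j5
  have hb : b i ≠ b j := by
    intro hb
    rw [hb] at i8
    exact disjoint_left.mp (hdisj i hi j hj hij) i8 j8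
  rcases lt_or_gt_of_ne hb with hlt | hlt
  · exact hd.no_crossing (hp j hj) (hp i hi) (hD j hj) (hD i hi) (hc j hj)
      (hdisj j hj i hi hij.symm) (θ₁ := a j) (θ₂ := b i) (θ₃ := b j) (θ₄ := c i)
      (by linarith) hlt (by linarith) (by linarith) j7 j8 i8 i9
  · exact hd.no_crossing (hp i hi) (hp j hj) (hD i hi) (hD j hj) (hc i hi)
      (hdisj i hi j hj hij) (θ₁ := a i) (θ₂ := b j) (θ₃ := b i) (θ₄ := c j)
      (by linarith) hlt (by linarith) (by linarith) i7 i8 j8 j9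

/-- A family of disjoint closed connected subsets of the disk, each with at least two points
on the boundary circle, is countable if no member separates two others. -/
theorem IsDiskMap.countable_two (hd : IsDiskMap h D T) {ι : Type*} {I : Set ι} {A : ι → Set S}
    (hdisj : ∀ i ∈ I, ∀ j ∈ I, i ≠ j → Disjoint (A i) (A j))
    (hc : ∀ i ∈ I, IsClosed (A i)) (hp : ∀ i ∈ I, IsPreconnected (A i))
    (hD : ∀ i ∈ I, A i ⊆ D)
    (h2 : ∀ i ∈ I, ∃ x ∈ A i ∩ T, ∃ y ∈ A i ∩ T, x ≠ y)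
    (hB : ∀ i ∈ I, ∀ j ∈ I, ∀ k ∈ I, i ≠ j → j ≠ k → i ≠ k →
      ∃ B : Set S, IsPreconnected B ∧ B ⊆ D ∧ Disjoint (A j) B ∧ A i ⊆ B ∧ A k ⊆ B) :
    I.Countable := by
  classical
  have key : ∀ i ∈ I, circ h 0 ∉ A i → ∃ (a b : ℝ) (q : ℚ),
      0 < a ∧ a < q ∧ (q : ℝ) < b ∧ b < 2 * Real.pi ∧
      circ h a ∈ A i ∧ circ h b ∈ A i := by
    intro i hi h0
    obtain ⟨x, hx, y, hy, hxy⟩ := h2 i hi
    obtain ⟨a, b, h0a, hab, hc2, haA, hbA⟩ := hd.exists_two h0 hx hy hxy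
    obtain ⟨q, hq1, hq2⟩ := exists_rat_btwn hab
    exact ⟨a, b, q, h0a, hq1, hq2, hc2, haA, hbA⟩
  have hsub : I ⊆ {i ∈ I | circ h 0 ∈ A i} ∪ {i ∈ I | circ h 0 ∉ A i} := by
    intro i hi
    by_cases h0 : circ h 0 ∈ A i
    · exact Or.inl ⟨hi, h0⟩
    · exact Or.inr ⟨hi, h0⟩
  refine Countable.mono hsub ((countable_of_mem hdisj _).union ?_)
  choose! a b q hkey using fun i (hi : i ∈ I) => key i hi
  -- the middle one of three
  have mid : ∀ i ∈ I, circ h 0 ∉ A i → ∀ j ∈ I, circ h 0 ∉ A j → ∀ k ∈ I, circ h 0 ∉ A k →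
      i ≠ j → j ≠ k → i ≠ k → q i = q j → q j = q k → a i < a j → a j < a k → False := by
    intro i hi hi0 j hj hj0 k hk hk0 hij hjk hik eij ejk lij ljk
    obtain ⟨i1, i2, i3, i4, i5, i6⟩ := hkey i hi hi0
    obtain ⟨j1, j2, j3, j4, j5, j6⟩ := hkey j hj hj0
    obtain ⟨k1, k2, k3, k4, k5, k6⟩ := hkey k hk hk0
    obtain ⟨B, hBp, hBD, hBj, hBi, hBk⟩ := hB i hi j hj k hk hij hjk hik
    rw [← ejk] at k2
    have hcr := hd.no_crossing (hp j hj) hBp (hD j hj) hBD (hc j hj) hBj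
      (θ₁ := a j) (θ₂ := a k) (θ₃ := b j) (θ₄ := a i + 2 * Real.pi)
      ljk (by linarith) (by linarith) (by linarith) j5 j6 (hBk k5)
      (by rw [circ_add_two_pi]; exact hBi i5)
    exact hcr
  apply countable_of_no_three q
  rintro i ⟨hi, hi0⟩ j ⟨hj, hj0⟩ k ⟨hk, hk0⟩ hij hjk hik eij ejk
  have hne : ∀ i ∈ I, circ h 0 ∉ A i → ∀ j ∈ I, circ h 0 ∉ A j → i ≠ j → a i ≠ a j := by
    intro i hi hi0 j hj hj0 hij heq
    obtain ⟨i1, i2, i3, i4, i5, i6⟩ := hkey i hi hi0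
    obtain ⟨j1, j2, j3, j4, j5, j6⟩ := hkey j hj hj0
    rw [heq] at i5
    exact disjoint_left.mp (hdisj i hi j hj hij) i5 j5
  have eik := eij.trans ejk
  rcases lt_or_gt_of_ne (hne i hi hi0 j hj hj0 hij) with h1 | h1 <;>
    rcases lt_or_gt_of_ne (hne j hj hj0 k hk hk0 hjk) with h2 | h2 <;>
    rcases lt_or_gt_of_ne (hne i hi hi0 k hk hk0 hik) with h3 | h3
  · exact mid i hi hi0 j hj hj0 k hk hk0 hij hjk hik eij ejk h1 h2
  · exact absurd (h1.trans h2) (not_lt.mpr h3.le)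
  · exact mid i hi hi0 k hk hk0 j hj hj0 hik hjk.symm hij eik ejk.symm h3 h2
  · exact mid k hk hk0 i hi hi0 j hj hj0 hik.symm hij hjk.symm eik.symm eij h3 h1
  · exact mid j hj hj0 i hi hi0 k hk hk0 hij.symm hik hjk eij.symm eik h1 h3
  · exact mid j hj hj0 k hk hk0 i hi hi0 hjk hik.symm hij.symm ejk eik.symm h2 h3
  · exact absurd (h2.trans h1) (not_lt.mpr h3.le)
  · exact mid k hk hk0 j hj hj0 i hi hi0 hjk.symm hij.symm hik.symm ejk.symm eij.symm h2 h1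

end Pool.Agent.Lib.MP_1e7707_gt
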