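import Mathlib

/-!
# Some lemmas of continuum theory

Boundary bumping, limits of connected sets, and a connectedness criterion.
-/

open Set Filter Topology

namespace Pool.Agent.Lib.MP_1e7707_gt

variable {S : Type*} [TopologicalSpace S]

lemma isClosed_component {Z : Set S} (hZ : IsClosed Z) (x : S) :
    IsClosed (connectedComponentIn Z x) := by
  by_cases hx : x ∈ Z
  · have h1 : closure (connectedComponentIn Z x) ⊆ connectedComponentIn Z x := by
      apply IsPreconnected.subset_connectedComponentIn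
      · exact isPreconnected_connectedComponentIn.closure
      · exact subset_closure (mem_connectedComponentIn hx)
      · exact closure_minimal (connectedComponentIn_subset _ _) hZ
    exact isClosed_of_closure_subset h1
  · rw [connectedComponentIn_eq_empty hx]
    exact isClosed_empty

/-- A connected subset of `Z` meeting the component of `x` is inside the component. -/
lemma subset_component_of_inter {Z A : Set S} {x : S} (hA : IsPreconnected A) (hAZ : A ⊆ Z)
    (h : (A ∩ connectedComponentIn Z x).Nonempty) : A ⊆ connectedComponentIn Z x := by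
  obtain ⟨y, hyA, hyx⟩ := h
  rw [connectedComponentIn_eq hyx]
  exact hA.subset_connectedComponentIn hyA hAZ

/-- Two components with a common point are equal. -/
lemma component_eq_of_mem {Z : Set S} {x y z : S} (hx : z ∈ connectedComponentIn Z x)
    (hy : z ∈ connectedComponentIn Z y) :
    connectedComponentIn Z x = connectedComponentIn Z y := by
  rw [connectedComponentIn_eq hx, connectedComponentIn_eq hy]

/-- A component of a closed subset of a compact Hausdorff space that misses the closed set `N`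
is contained in a relatively clopen set missing `N`. -/
lemma exists_clopen_sep [CompactSpace S] [T2Space S] {Z N : Set S} (hZ : IsClosed Z)
    (hN : IsClosed N) {x : S} (hx : x ∈ Z) (h : Disjoint (connectedComponentIn Z x) N) :
    ∃ E, IsClosed E ∧ IsClosed (Z \ E) ∧ E ⊆ Z ∧ x ∈ E ∧ Disjoint E N := by
  have : CompactSpace Z := isCompact_iff_compactSpace.mp hZ.isCompact
  have hcomp := connectedComponent_eq_iInter_isClopen (⟨x, hx⟩ : Z)
  have hN' : IsCompact ((Subtype.val : Z → S) ⁻¹' N) :=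
    (hN.preimage continuous_subtype_val).isCompact
  have : Nonempty { s : Set Z // IsClopen s ∧ (⟨x, hx⟩ : Z) ∈ s } :=
    ⟨⟨univ, isClopen_univ, mem_univ _⟩⟩
  obtain ⟨⟨E, hE, hxE⟩, hEN⟩ := hN'.elim_directed_family_closed
    (fun s : { s : Set Z // IsClopen s ∧ (⟨x, hx⟩ : Z) ∈ s } => (s : Set Z))
    (fun s => s.2.1.isClosed) (by
      rw [← hcomp, connectedComponentIn_eq_image hx, disjoint_left] at *
      ext y
      simp only [mem_inter_iff, mem_preimage, mem_empty_iff_false, iff_false, not_and]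
      intro hyN hy
      exact h (mem_image_of_mem _ hy) hyN) (by
      intro s t
      refine ⟨⟨s.1 ∩ t.1, s.2.1.inter t.2.1, s.2.2, t.2.2⟩, ?_, ?_⟩
      · exact inter_subset_left
      · exact inter_subset_right)
  simp only at hEN
  refine ⟨Subtype.val '' E, ?_, ?_, ?_, ⟨_, hxE, rfl⟩, ?_⟩
  · exact hZ.isClosedEmbedding_subtypeVal.isClosedMap _ hE.isClosed
  · have : Z \ Subtype.val '' E = Subtype.val '' Eᶜ := by
      ext y
      constructor
      · rintro ⟨hyZ, hyE⟩
        exact ⟨⟨y, hyZ⟩, fun hE' => hyE ⟨_, hE', rfl⟩, rfl⟩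
      · rintro ⟨⟨y, hyZ⟩, hyE, rfl⟩
        refine ⟨hyZ, ?_⟩
        rintro ⟨⟨w, hw⟩, hwE, hwy⟩
        simp only at hwy
        subst hwy
        exact hyE hwE
    rw [this]
    exact hZ.isClosedEmbedding_subtypeVal.isClosedMap _ hE.compl.isClosed
  · rintro _ ⟨y, -, rfl⟩
    exact y.2
  · rw [disjoint_left]
    rintro _ ⟨y, hyE, rfl⟩ hyN
    have : y ∈ (Subtype.val : Z → S) ⁻¹' N ∩ E := ⟨hyN, hyE⟩
    rw [hEN] at this
    exact this

/-- Boundary bumping. -/
theorem bumping [CompactSpace S] [T2Space S] {K Z : Set S} (hK : IsPreconnected K)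
    (hZ : IsClosed Z) (hZK : Z ⊆ K) (hne : (K \ Z).Nonempty) {x : S} (hx : x ∈ Z) :
    (connectedComponentIn Z x ∩ closure (K \ Z)).Nonempty := by
  by_contra hcon
  rw [not_nonempty_iff_eq_empty, ← disjoint_iff_inter_eq_empty] at hcon
  obtain ⟨E, hE, hZE, hEZ, hxE, hEN⟩ := exists_clopen_sep hZ isClosed_closure hx hcon
  rw [isPreconnected_closed_iff] at hK
  obtain ⟨y, hyK, hyE, hy⟩ := hK E ((Z \ E) ∪ closure (K \ Z)) hE
    (hZE.union isClosed_closure) (by
      intro y hy
      by_cases hyZ : y ∈ Z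
      · by_cases hyE : y ∈ E
        · exact Or.inl hyE
        · exact Or.inr (Or.inl ⟨hyZ, hyE⟩)
      · exact Or.inr (Or.inr (subset_closure ⟨hy, hyZ⟩)))
    ⟨x, hZK hx, hxE⟩ (by
      obtain ⟨y, hy⟩ := hne
      exact ⟨y, hy.1, Or.inr (subset_closure hy)⟩)
  rcases hy with hy | hy
  · exact hy.2 hyE
  · exact disjoint_left.mp hEN hyE hy

/-- Boundary bumping for the trace of a continuum on a closed set. -/
theorem bumping_inter [CompactSpace S] [T2Space S] {K F : Set S} (hK : IsPreconnected K)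
    (hKc : IsClosed K) (hF : IsClosed F) (hne : ¬ K ⊆ F) {x : S} (hx : x ∈ K ∩ F) :
    (connectedComponentIn (K ∩ F) x ∩ closure (K \ F)).Nonempty := by
  have h := bumping hK (hKc.inter hF) inter_subset_left (by
    obtain ⟨y, hyK, hyF⟩ := not_subset.mp hne
    exact ⟨y, hyK, fun h => hyF h.2⟩) hx
  have e : K \ (K ∩ F) = K \ F := by
    ext y
    simp only [Set.mem_sdiff, mem_inter_iff, not_and]
    constructor
    · rintro ⟨h1, h2⟩
      exact ⟨h1, h2 h1⟩
    · rintro ⟨h1, h2⟩
      exact ⟨h1, fun _ => h2⟩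
  rwa [e] at h

/-- The upper limit of a sequence of sets. -/
def limset (C : ℕ → Set S) : Set S := ⋂ N : ℕ, closure (⋃ n ≥ N, C n)

lemma isClosed_limset (C : ℕ → Set S) : IsClosed (limset C) :=
  isClosed_iInter fun _ => isClosed_closure

lemma limset_subset {C : ℕ → Set S} {F : Set S} (hF : IsClosed F) (h : ∀ n, C n ⊆ F) :
    limset C ⊆ F := by
  intro y hy
  have := mem_iInter.mp hy 0
  exact closure_minimal (iUnion₂_subset fun n _ => h n) hF this

lemma mem_limset_of_tendsto {C : ℕ → Set S} {x : ℕ → S} {p : S} (hx : ∀ n, x n ∈ C n)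
    (hp : Tendsto x atTop (𝓝 p)) : p ∈ limset C := by
  refine mem_iInter.mpr fun N => ?_
  apply mem_closure_of_tendsto hp
  filter_upwards [eventually_ge_atTop N] with n hn
  exact mem_iUnion₂.mpr ⟨n, hn, hx n⟩

lemma exists_mem_of_mem_limset {C : ℕ → Set S} {y : S} (hy : y ∈ limset C) {U : Set S}
    (hU : IsOpen U) (hyU : y ∈ U) (N : ℕ) : ∃ n ≥ N, ∃ z ∈ C n, z ∈ U := by
  have := mem_iInter.mp hy N
  obtain ⟨z, hzU, hz⟩ := mem_closure_iff.mp this U hU hyU
  obtain ⟨n, hn, hzn⟩ := mem_iUnion₂.mp hz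
  exact ⟨n, hn, z, hzn, hzU⟩

/-- Limits respect closed relations. -/
lemma rel_of_mem_limset {Y : Type*} [TopologicalSpace Y] {C : ℕ → Set S} {x : ℕ → Y} {p : Y}
    (hp : Tendsto x atTop (𝓝 p)) {F : Set (Y × S)} (hF : IsClosed F)
    (h : ∀ n, ∀ y ∈ C n, (x n, y) ∈ F) {y : S} (hy : y ∈ limset C) : (p, y) ∈ F := by
  by_contra hcon
  have hopen : IsOpen Fᶜ := hF.isOpen_compl
  rw [isOpen_prod_iff] at hopen
  obtain ⟨U, V, hU, hV, hpU, hyV, hUV⟩ := hopen p y hcon
  obtain ⟨N, hN⟩ := eventually_atTop.mp (hp.eventually (hU.mem_nhds hpU))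
  obtain ⟨n, hn, z, hz, hzV⟩ := exists_mem_of_mem_limset hy hV hyV N
  exact hUV (mk_mem_prod (hN n hn) hzV) (h n z hz)

/-- If every term meets a closed set, so does the limit. -/
lemma limset_inter_nonempty [CompactSpace S] {C : ℕ → Set S} {F : Set S} (hF : IsClosed F)
    (h : ∀ n, (C n ∩ F).Nonempty) : (limset C ∩ F).Nonempty := by
  have key : (⋂ N : ℕ, closure (⋃ n ≥ N, C n) ∩ F).Nonempty := by
    apply IsCompact.nonempty_iInter_of_sequence_nonempty_isCompact_isClosed
    · intro N
      apply inter_subset_inter_left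
      apply closure_mono
      exact iUnion₂_subset fun n hn => subset_iUnion₂_of_subset n (by omega) Subset.rfl
    · intro N
      obtain ⟨y, hyC, hyF⟩ := h N
      exact ⟨y, subset_closure (mem_iUnion₂.mpr ⟨N, le_rfl, hyC⟩), hyF⟩
    · exact (isClosed_closure.inter hF).isCompact
    · intro N
      exact isClosed_closure.inter hF
  obtain ⟨y, hy⟩ := key
  rw [mem_iInter] at hy
  exact ⟨y, mem_iInter.mpr fun N => (hy N).1, (hy 0).2⟩

/-- The upper limit of connected sets `C n` containing points `x n` converging to some point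
is connected. -/
theorem isPreconnected_limset [CompactSpace S] [T2Space S] {C : ℕ → Set S} {x : ℕ → S} {p : S}
    (hC : ∀ n, IsPreconnected (C n)) (hx : ∀ n, x n ∈ C n) (hp : Tendsto x atTop (𝓝 p)) :
    IsPreconnected (limset C) := by
  have hpL : p ∈ limset C := mem_limset_of_tendsto hx hp
  -- main claim, with `p` in the first closed set
  have main : ∀ t t' : Set S, IsClosed t → IsClosed t' → limset C ⊆ t ∪ t' →
      (limset C ∩ t').Nonempty → p ∈ t → (limset C ∩ (t ∩ t')).Nonempty := by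
    intro t t' ht ht' hsub hne' hpt
    by_contra hcon
    rw [not_nonempty_iff_eq_empty] at hcon
    have hLt : IsClosed (limset C ∩ t) := (isClosed_limset C).inter ht
    have hLt' : IsClosed (limset C ∩ t') := (isClosed_limset C).inter ht'
    have hdisj : Disjoint (limset C ∩ t) (limset C ∩ t') := by
      rw [disjoint_left]
      rintro y ⟨hyL, hyt⟩ ⟨-, hyt'⟩
      have : y ∈ limset C ∩ (t ∩ t') := ⟨hyL, hyt, hyt'⟩
      rw [hcon] at this
      exact this
    obtain ⟨U, V, hU, hV, hLU, hLV, hUV⟩ :=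
      SeparatedNhds.of_isCompact_isCompact hLt.isCompact hLt'.isCompact hdisj
    have hcover : limset C ⊆ U ∪ V := by
      intro y hy
      rcases hsub hy with h | h
      · exact Or.inl (hLU ⟨hy, h⟩)
      · exact Or.inr (hLV ⟨hy, h⟩)
    -- eventually `C n ⊆ U ∪ V`
    have hev : ∃ N, closure (⋃ n ≥ N, C n) ⊆ U ∪ V := by
      by_contra hno
      push Not at hno
      have key : (⋂ N : ℕ, closure (⋃ n ≥ N, C n) ∩ (U ∪ V)ᶜ).Nonempty := by
        apply IsCompact.nonempty_iInter_of_sequence_nonempty_isCompact_isClosed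
        · intro N
          apply inter_subset_inter_left
          apply closure_mono
          exact iUnion₂_subset fun n hn => subset_iUnion₂_of_subset n (by omega) Subset.rfl
        · intro N
          obtain ⟨y, hy, hyUV⟩ := not_subset.mp (hno N)
          exact ⟨y, hy, hyUV⟩
        · exact (isClosed_closure.inter (hU.union hV).isClosed_compl).isCompact
        · intro N
          exact isClosed_closure.inter (hU.union hV).isClosed_compl
      obtain ⟨y, hy⟩ := key
      rw [mem_iInter] at hy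
      exact (hy 0).2 (hcover (mem_iInter.mpr fun N => (hy N).1))
    obtain ⟨N₁, hN₁⟩ := hev
    obtain ⟨N₂, hN₂⟩ := eventually_atTop.mp (hp.eventually (hU.mem_nhds (hLU ⟨hpL, hpt⟩)))
    have hCU : ∀ n ≥ max N₁ N₂, C n ⊆ U := by
      intro n hn
      apply (hC n).subset_left_of_subset_union hU hV hUV
      · intro y hy
        exact hN₁ (subset_closure (mem_iUnion₂.mpr ⟨n, le_of_max_le_left hn, hy⟩))
      · exact ⟨x n, hx n, hN₂ n (le_of_max_le_right hn)⟩
    obtain ⟨y, hyL, hyt'⟩ := hne'
    obtain ⟨n, hn, z, hz, hzV⟩ :=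
      exists_mem_of_mem_limset hyL hV (hLV ⟨hyL, hyt'⟩) (max N₁ N₂)
    exact disjoint_left.mp hUV (hCU n hn hz) hzV
  rw [isPreconnected_closed_iff]
  intro t t' ht ht' hsub hne hne'
  rcases hsub hpL with h | h
  · exact main t t' ht ht' hsub hne' h
  · rw [inter_comm t t']
    exact main t' t ht' ht (by rwa [union_comm]) hne h

/-- If `Z` is a closed subset of a continuum `K` each of whose components meets
`N = closure (K \ Z)` in a nonempty connected set, then `N` is connected. -/
theorem isPreconnected_closure_diff [CompactSpace S] [T2Space S] {K Z : Set S}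
    (hK : IsPreconnected K) (hKc : IsClosed K) (hZ : IsClosed Z)
    (hcomp : ∀ z ∈ Z, IsPreconnected (connectedComponentIn Z z ∩ closure (K \ Z)) ∧
      (connectedComponentIn Z z ∩ closure (K \ Z)).Nonempty) :
    IsPreconnected (closure (K \ Z)) := by
  rw [isPreconnected_closed_iff]
  intro t t' ht ht' hsub hne hne'
  by_contra hcon
  rw [not_nonempty_iff_eq_empty] at hcon
  set N := closure (K \ Z) with hN
  have hNc : IsClosed N := isClosed_closure
  have hNK : N ⊆ K := closure_minimal sdiff_subset hKc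
  -- the set of points of `Z` whose component meets a closed set is closed
  have hclosed : ∀ F : Set S, IsClosed F →
      IsClosed {z ∈ Z | (connectedComponentIn Z z ∩ F).Nonempty} := by
    intro F hF
    rw [← isOpen_compl_iff, isOpen_iff_mem_nhds]
    intro z hz
    by_cases hzZ : z ∈ Z
    · have hdis : Disjoint (connectedComponentIn Z z) F := by
        rw [disjoint_iff_inter_eq_empty, ← not_nonempty_iff_eq_empty]
        intro h
        exact hz ⟨hzZ, h⟩
      obtain ⟨E, hE, hZE, hEZ, hzE, hEF⟩ := exists_clopen_sep hZ hF hzZ hdis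
      have hop : (Z \ E)ᶜ ∈ 𝓝 z := hZE.isOpen_compl.mem_nhds (fun h => h.2 hzE)
      filter_upwards [hop] with w hw
      rintro ⟨hwZ, y, hyw, hyF⟩
      have hwE : w ∈ E := by
        by_contra hwE
        exact hw ⟨hwZ, hwE⟩
      have hpre : IsPreconnected (connectedComponentIn Z w) := isPreconnected_connectedComponentIn
      rw [isPreconnected_closed_iff] at hpre
      have hwE' : connectedComponentIn Z w ⊆ E := by
        intro v hv
        by_contra hvE
        obtain ⟨u, -, hu1, hu2⟩ := hpre E (Z \ E) hE hZE (by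
          intro u hu
          by_cases huE : u ∈ E
          · exact Or.inl huE
          · exact Or.inr ⟨connectedComponentIn_subset _ _ hu, huE⟩)
          ⟨w, mem_connectedComponentIn hwZ, hwE⟩
          ⟨v, hv, connectedComponentIn_subset _ _ hv, hvE⟩
        exact hu2.2 hu1
      exact disjoint_left.mp hEF (hwE' hyw) hyF
    · filter_upwards [hZ.isOpen_compl.mem_nhds hzZ] with w hw
      rintro ⟨hwZ, -⟩
      exact hw hwZ
  have hN1c := hclosed (N ∩ t) (hNc.inter ht)
  have hN2c := hclosed (N ∩ t') (hNc.inter ht')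
  have hZ12 : ∀ z ∈ Z, (connectedComponentIn Z z ∩ (N ∩ t)).Nonempty →
      (connectedComponentIn Z z ∩ (N ∩ t')).Nonempty → False := by
    rintro z hz ⟨y, hy1, hyN, hyt⟩ ⟨y', hy1', hyN', hyt'⟩
    have hp := (hcomp z hz).1
    rw [isPreconnected_closed_iff] at hp
    obtain ⟨u, ⟨-, huN⟩, hut⟩ := hp t t' ht ht' (fun u hu => hsub hu.2)
      ⟨y, ⟨hy1, hyN⟩, hyt⟩ ⟨y', ⟨hy1', hyN'⟩, hyt'⟩
    have : u ∈ N ∩ (t ∩ t') := ⟨huN, hut⟩
    rw [hcon] at this
    exact this
  rw [isPreconnected_closed_iff] at hK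
  obtain ⟨y, hyK, hy1, hy2⟩ := hK
    ({z ∈ Z | (connectedComponentIn Z z ∩ (N ∩ t)).Nonempty} ∪ (N ∩ t))
    ({z ∈ Z | (connectedComponentIn Z z ∩ (N ∩ t')).Nonempty} ∪ (N ∩ t'))
    (hN1c.union (hNc.inter ht)) (hN2c.union (hNc.inter ht')) (by
      intro y hy
      by_cases hyZ : y ∈ Z
      · obtain ⟨u, hu1, hu2⟩ := (hcomp y hyZ).2
        rcases hsub hu2 with h | h
        · exact Or.inl (Or.inl ⟨hyZ, u, hu1, hu2, h⟩)
        · exact Or.inr (Or.inl ⟨hyZ, u, hu1, hu2, h⟩)
      · have hyN : y ∈ N := subset_closure ⟨hy, hyZ⟩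
        rcases hsub hyN with h | h
        · exact Or.inl (Or.inr ⟨hyN, h⟩)
        · exact Or.inr (Or.inr ⟨hyN, h⟩))
    (by
      obtain ⟨y, hyN, hyt⟩ := hne
      exact ⟨y, hNK hyN, Or.inr ⟨hyN, hyt⟩⟩)
    (by
      obtain ⟨y, hyN, hyt⟩ := hne'
      exact ⟨y, hNK hyN, Or.inr ⟨hyN, hyt⟩⟩)
  rcases hy1 with ⟨hyZ, h1⟩ | h1
  · rcases hy2 with ⟨-, h2⟩ | h2
    · exact hZ12 y hyZ h1 h2
    · exact hZ12 y hyZ h1 ⟨y, mem_connectedComponentIn hyZ, h2⟩
  · rcases hy2 with ⟨hyZ, h2⟩ | h2
    · exact hZ12 y hyZ ⟨y, mem_connectedComponentIn hyZ, h1⟩ h2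
    · have : y ∈ N ∩ (t ∩ t') := ⟨h1.1, h1.2, h2.2⟩
      rw [hcon] at this
      exact this

end Pool.Agent.Lib.MP_1e7707_gt
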