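import Mathlib

/-!
# Mycielski's theorem for countably many closed relations

For countably many closed relations with empty interior on a complete metric space there is a
map from the Cantor space whose values are pairwise unrelated.
-/

open Set Filter Topology Metric

namespace Pool.Agent.Lib.MP_1e7707_gt

/-- Finitely many points can be moved slightly to become pairwise unrelated. -/
lemma exists_unrelated {Y : Type*} [MetricSpace Y] [CompleteSpace Y] {R : Set (Y × Y)}
    (hR : IsClosed R) (hint : interior R = ∅) {F : Type*} [Fintype F] (w : F → Y) {ε : ℝ}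
    (hε : 0 < ε) : ∃ v : F → Y, (∀ a, dist (v a) (w a) < ε) ∧ ∀ a b, a ≠ b → (v a, v b) ∉ R := by
  classical
  have hdense : Dense (⋂ p : {p : F × F // p.1 ≠ p.2}, {v : F → Y | (v p.1.1, v p.1.2) ∉ R}) := by
    apply dense_iInter_of_isOpen
    · rintro ⟨⟨a, b⟩, hab⟩
      exact hR.isOpen_compl.preimage (f := fun v : F → Y => (v a, v b)) (by fun_prop)
    · rintro ⟨⟨a, b⟩, hab⟩
      simp only at hab ⊢
      rw [Metric.dense_iff]
      intro v r hr
      have hne : ¬ (ball (v a) r ×ˢ ball (v b) r ⊆ R) := by
        intro hsub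
        have h1 : ball (v a) r ×ˢ ball (v b) r ⊆ interior R :=
          interior_maximal hsub (isOpen_ball.prod isOpen_ball)
        rw [hint] at h1
        exact h1 (mk_mem_prod (mem_ball_self hr) (mem_ball_self hr))
      obtain ⟨⟨y, z⟩, hyz, hyzR⟩ := not_subset.mp hne
      refine ⟨Function.update (Function.update v a y) b z, ?_, ?_⟩
      · rw [mem_ball, dist_pi_lt_iff hr]
        intro c
        by_cases hcb : c = b
        · subst hcb
          simpa using hyz.2
        · rw [Function.update_of_ne hcb]
          by_cases hca : c = a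
          · subst hca
            simpa using hyz.1
          · rw [Function.update_of_ne hca, dist_self]
            exact hr
      · change (Function.update (Function.update v a y) b z a,
          Function.update (Function.update v a y) b z b) ∉ R
        rw [Function.update_self, Function.update_of_ne hab, Function.update_self]
        exact hyzR
  obtain ⟨v, hv1, hv2⟩ := Metric.dense_iff.mp hdense w ε hε
  rw [mem_iInter] at hv2
  refine ⟨v, fun a => ?_, fun a b hab => hv2 ⟨(a, b), hab⟩⟩
  exact (dist_pi_lt_iff hε).mp hv1 a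

/-- **Mycielski's theorem** for countably many closed relations. -/
theorem mycielski {Y : Type*} [MetricSpace Y] [CompleteSpace Y] [Nonempty Y] {ι : Type*}
    [Countable ι] (R : ι → Set (Y × Y)) (hR : ∀ i, IsClosed (R i))
    (hint : ∀ i, interior (R i) = ∅) :
    ∃ P : (ℕ → Bool) → Y, ∀ σ τ, σ ≠ τ → ∀ i, (P σ, P τ) ∉ R i := by
  set G : ℕ × ι → Set C(ℕ → Bool, Y) := fun p =>
    {f | ∀ σ τ : ℕ → Bool, σ p.1 ≠ τ p.1 → (f σ, f τ) ∉ R p.2} with hG
  have hopen : ∀ p, IsOpen (G p) := by
    rintro ⟨n, i⟩
    rw [Metric.isOpen_iff]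
    intro f hf
    have hK : IsClosed {q : (ℕ → Bool) × (ℕ → Bool) | q.1 n ≠ q.2 n} := by
      have : IsClosed {q : (ℕ → Bool) × (ℕ → Bool) | (q.1 n, q.2 n) ∈ {b : Bool × Bool | b.1 ≠ b.2}} :=
        (isClosed_discrete _).preimage (f := fun q : (ℕ → Bool) × (ℕ → Bool) => (q.1 n, q.2 n))
          (by fun_prop)
      exact this
    have hKc := hK.isCompact.image (f := fun q : (ℕ → Bool) × (ℕ → Bool) => (f q.1, f q.2))
      (by fun_prop)
    obtain ⟨δ, hδ, hsub⟩ := hKc.exists_thickening_subset_open (hR i).isOpen_compl (by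
      rintro _ ⟨q, hq, rfl⟩
      exact hf q.1 q.2 hq)
    refine ⟨δ, hδ, ?_⟩
    intro g hg σ τ hστ
    apply hsub
    rw [mem_thickening_iff]
    refine ⟨(f σ, f τ), ⟨(σ, τ), hστ, rfl⟩, ?_⟩
    rw [mem_ball] at hg
    rw [Prod.dist_eq]
    exact max_lt ((ContinuousMap.dist_apply_le_dist σ).trans_lt hg)
      ((ContinuousMap.dist_apply_le_dist τ).trans_lt hg)
  have hdense : ∀ p, Dense (G p) := by
    rintro ⟨n, i⟩
    rw [Metric.dense_iff]
    intro f r hr
    obtain ⟨m, g, w, hg, hgw⟩ := f.exists_finite_approximation_of_mem_nhds_diagonal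
      (S := {q : Y × Y | dist q.1 q.2 < r / 3}) (by
        rw [mem_nhdsSet_iff_forall]
        rintro ⟨x, y⟩ (rfl : x = y)
        apply IsOpen.mem_nhds
        · exact isOpen_lt (by fun_prop) continuous_const
        · change dist x x < r / 3
          rw [dist_self]
          positivity)
    obtain ⟨v, hv1, hv2⟩ := exists_unrelated (hR i) (hint i)
      (F := Fin m × Bool) (fun q => w q.1) (ε := r / 3) (by positivity)
    have hcont : Continuous fun σ : ℕ → Bool => v (g σ, σ n) := by
      have h1 : Continuous fun σ : ℕ → Bool => (g σ, σ n) := by fun_prop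
      exact continuous_of_discreteTopology.comp h1
    refine ⟨⟨_, hcont⟩, ?_, ?_⟩
    · rw [mem_ball, ContinuousMap.dist_lt_iff hr]
      intro σ
      have h1 := hgw σ
      have h2 := hv1 (g σ, σ n)
      simp only [mem_ofPred_eq] at h1 h2
      rw [dist_comm] at h1
      calc dist (v (g σ, σ n)) (f σ) ≤ dist (v (g σ, σ n)) (w (g σ)) + dist (w (g σ)) (f σ) :=
            dist_triangle _ _ _
        _ < r / 3 + r / 3 := add_lt_add h2 h1
        _ < r := by linarith
    · intro σ τ hστ
      apply hv2
      intro heq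
      exact hστ (congrArg Prod.snd heq)
  have : Nonempty C(ℕ → Bool, Y) := ⟨ContinuousMap.const _ (Classical.arbitrary Y)⟩
  obtain ⟨f, hf⟩ := (dense_iInter_of_isOpen hopen hdense).nonempty
  rw [mem_iInter] at hf
  refine ⟨f, fun σ τ hστ i => ?_⟩
  obtain ⟨n, hn⟩ := Function.ne_iff.mp hστ
  exact hf (n, i) σ τ hn

end Pool.Agent.Lib.MP_1e7707_gt
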