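import Mathlib
import Pool.Agent.Lib.MP_1e7707_gt.Continua
import Pool.Agent.Lib.MP_1e7707_gt.Mycielski

/-!
# Partitions of a compact metric space into continua: first steps

A partition into at least two closed sets of a connected compact space with connected small balls
is uncountable; the set of points all of whose neighbourhoods meet uncountably many members.
-/

open Set Filter Topology Metric

namespace Pool.Agent.Lib.MP_1e7707_gt

/-- `G` is a partition of `S` into closed connected sets, `K x` being the member containing `x`. -/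
structure IsContPartition {S : Type} [TopologicalSpace S] (G : Set (Set S)) (K : S → Set S) :
    Prop where
  mem : ∀ x, K x ∈ G
  self : ∀ x, x ∈ K x
  uniq : ∀ A ∈ G, ∀ x ∈ A, K x = A
  closed : ∀ A ∈ G, IsClosed A
  conn : ∀ A ∈ G, IsPreconnected A
  nonempty : ∀ A ∈ G, A.Nonempty

section

variable {S : Type} [MetricSpace S] [CompactSpace S] {G : Set (Set S)} {K : S → Set S}

omit [CompactSpace S] in
lemma IsContPartition.disjoint (hG : IsContPartition G K) {A B : Set S} (hA : A ∈ G) (hB : B ∈ G)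
    (hAB : A ≠ B) : Disjoint A B := by
  rw [disjoint_left]
  intro x hxA hxB
  exact hAB ((hG.uniq A hA x hxA).symm.trans (hG.uniq B hB x hxB))

omit [CompactSpace S] in
lemma IsContPartition.eq_of_mem (hG : IsContPartition G K) {A B : Set S} (hA : A ∈ G) (hB : B ∈ G)
    {x : S} (hxA : x ∈ A) (hxB : x ∈ B) : A = B :=
  (hG.uniq A hA x hxA).symm.trans (hG.uniq B hB x hxB)

/-- A Sierpinski type theorem. -/
theorem IsContPartition.not_countable (hG : IsContPartition G K) (hnt : G.Nontrivial)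
    (hconn : IsPreconnected (univ : Set S))
    (hball : ∀ (v : S) (r : ℝ), 0 < r → IsPreconnected (closedBall v r)) : ¬ G.Countable := by
  intro hcount
  set B : Set S := (⋃ A ∈ G, interior A)ᶜ with hB
  have hBo : IsOpen (⋃ A ∈ G, interior A) := isOpen_biUnion fun _ _ => isOpen_interior
  have hBc : IsClosed B := hBo.isClosed_compl
  have hnotint : ∀ b ∈ B, ∀ A ∈ G, b ∉ interior A := by
    intro b hb A hA hbA
    exact hb (mem_iUnion₂.mpr ⟨A, hA, hbA⟩)
  have hBne : B.Nonempty := by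
    by_contra hemp
    rw [not_nonempty_iff_eq_empty] at hemp
    have hall : ∀ x : S, ∃ A ∈ G, x ∈ interior A := by
      intro x
      by_contra hx
      have : x ∈ B := by
        intro h
        obtain ⟨A, hA, hxA⟩ := mem_iUnion₂.mp h
        exact hx ⟨A, hA, hxA⟩
      rw [hemp] at this
      exact this
    obtain ⟨A₁, hA₁, A₂, hA₂, hne⟩ := hnt
    obtain ⟨x₁, hx₁⟩ := hG.nonempty A₁ hA₁
    obtain ⟨x₂, hx₂⟩ := hG.nonempty A₂ hA₂
    obtain ⟨y, -, hy1, hy2⟩ := hconn (interior A₁) (⋃ A ∈ G \ {A₁}, interior A) isOpen_interior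
      (isOpen_biUnion fun _ _ => isOpen_interior) (by
        intro x _
        obtain ⟨A, hA, hxA⟩ := hall x
        by_cases h : A = A₁
        · left
          rw [← h]
          exact hxA
        · right
          exact mem_iUnion₂.mpr ⟨A, ⟨hA, h⟩, hxA⟩)
      (by
        obtain ⟨A, hA, hxA⟩ := hall x₁
        refine ⟨x₁, mem_univ _, ?_⟩
        rw [← hG.eq_of_mem hA hA₁ (interior_subset hxA) hx₁]
        exact hxA)
      (by
        obtain ⟨A, hA, hxA⟩ := hall x₂
        refine ⟨x₂, mem_univ _, mem_iUnion₂.mpr ⟨A, ⟨hA, ?_⟩, hxA⟩⟩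
        intro h
        apply hne
        rw [← h]
        exact hG.eq_of_mem hA hA₂ (interior_subset hxA) hx₂)
    obtain ⟨A, ⟨hA, hAne⟩, hyA⟩ := mem_iUnion₂.mp hy2
    exact hAne (hG.eq_of_mem hA hA₁ (interior_subset hyA) (interior_subset hy1))
  -- Baire category on `B`
  have : Nonempty B := hBne.to_subtype
  have : CompactSpace B := isCompact_iff_compactSpace.mp hBc.isCompact
  have : Countable G := hcount
  obtain ⟨⟨A, hA⟩, hAint⟩ := nonempty_interior_of_iUnion_of_closed
    (f := fun A : G => (Subtype.val : B → S) ⁻¹' (A : Set S))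
    (fun A => (hG.closed A A.2).preimage continuous_subtype_val) (by
      ext x
      simp only [mem_iUnion, mem_preimage, mem_univ, iff_true]
      exact ⟨⟨K x, hG.mem x⟩, hG.self x⟩)
  obtain ⟨b, hb⟩ := hAint
  rw [mem_interior] at hb
  obtain ⟨U, hUA, hUo, hbU⟩ := hb
  obtain ⟨O, hO, rfl⟩ := isOpen_induced_iff.mp hUo
  have hOB : ∀ x ∈ O, x ∈ B → x ∈ A := fun x hxO hxB => hUA (a := ⟨x, hxB⟩) hxO
  obtain ⟨ρ, hρ, hball'⟩ := Metric.nhds_basis_closedBall.mem_iff.mp (hO.mem_nhds hbU)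
  have hJA : closedBall (b : S) ρ ⊆ A := by
    intro p hp
    by_contra hpA
    have hne : K p ≠ A := by
      intro h
      apply hpA
      rw [← h]
      exact hG.self p
    have hJ := hball (b : S) ρ hρ
    rw [isPreconnected_closed_iff] at hJ
    obtain ⟨y, hyJ, hyK, hyint⟩ := hJ (K p) (interior (K p))ᶜ (hG.closed _ (hG.mem p))
      isOpen_interior.isClosed_compl (by
        intro y _
        by_cases h : y ∈ K p
        · exact Or.inl h
        · exact Or.inr fun h' => h (interior_subset h'))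
      ⟨p, hp, hG.self p⟩
      ⟨b, mem_closedBall_self hρ.le, hnotint b b.2 _ (hG.mem p)⟩
    have hyB : y ∈ B := by
      intro h
      obtain ⟨A', hA', hyA'⟩ := mem_iUnion₂.mp h
      have := hG.eq_of_mem hA' (hG.mem p) (interior_subset hyA') hyK
      rw [this] at hyA'
      exact hyint hyA'
    have hyA := hOB y (hball' hyJ) hyB
    exact hne (hG.eq_of_mem (hG.mem p) hA hyK hyA)
  have hbint : (b : S) ∈ interior A := by
    rw [mem_interior]
    exact ⟨ball b ρ, ball_subset_closedBall.trans hJA, isOpen_ball, mem_ball_self hρ⟩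
  exact hnotint b b.2 A hA hbint

/-- The members of `G` meeting `U`. -/
def meets (G : Set (Set S)) (U : Set S) : Set (Set S) := {A ∈ G | (A ∩ U).Nonempty}

/-- The points each of whose neighbourhoods meets uncountably many members. -/
def bigPts (G : Set (Set S)) : Set S := {x | ∀ U, IsOpen U → x ∈ U → ¬ (meets G U).Countable}

omit [MetricSpace S] [CompactSpace S] in
lemma meets_mono {U V : Set S} (h : U ⊆ V) : meets G U ⊆ meets G V := by
  rintro A ⟨hA, x, hxA, hxU⟩
  exact ⟨hA, x, hxA, h hxU⟩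

omit [CompactSpace S] in
lemma isClosed_bigPts : IsClosed (bigPts G) := by
  rw [← isOpen_compl_iff, isOpen_iff_mem_nhds]
  intro x hx
  have : ∃ U, IsOpen U ∧ x ∈ U ∧ (meets G U).Countable := by
    by_contra hcon
    push Not at hcon
    exact hx hcon
  obtain ⟨U, hU, hxU, hUc⟩ := this
  filter_upwards [hU.mem_nhds hxU] with y hy hyS
  exact hyS U hU hy hUc

lemma countable_not_subset_bigPts : {A ∈ G | ¬ A ⊆ bigPts G}.Countable := by
  have hsub : {A ∈ G | ¬ A ⊆ bigPts G} ⊆
      ⋃ b ∈ {b ∈ TopologicalSpace.countableBasis S | (meets G b).Countable}, meets G b := by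
    rintro A ⟨hA, hAS⟩
    obtain ⟨x, hxA, hxS⟩ := not_subset.mp hAS
    have : ∃ U, IsOpen U ∧ x ∈ U ∧ (meets G U).Countable := by
      by_contra hcon
      push Not at hcon
      exact hxS hcon
    obtain ⟨U, hU, hxU, hUc⟩ := this
    obtain ⟨b, hb, hxb, hbU⟩ :=
      (TopologicalSpace.isBasis_countableBasis S).exists_subset_of_mem_open hxU hU
    exact mem_iUnion₂.mpr ⟨b, ⟨hb, hUc.mono (meets_mono hbU)⟩, hA, x, hxA, hxb⟩
  refine Countable.mono hsub (Countable.biUnion ?_ fun b hb => hb.2)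
  exact (TopologicalSpace.countable_countableBasis S).mono fun b hb => hb.1

lemma IsContPartition.bigPts_nonempty (hG : IsContPartition G K) (hGu : ¬ G.Countable) :
    (bigPts G).Nonempty := by
  have : ∃ A ∈ G, A ⊆ bigPts G := by
    by_contra hcon
    push Not at hcon
    have hsub : G ⊆ {A ∈ G | ¬ A ⊆ bigPts G} := fun A hA => ⟨hA, hcon A hA⟩
    exact hGu (countable_not_subset_bigPts.mono hsub)
  obtain ⟨A, hA, hAS⟩ := this
  exact (hG.nonempty A hA).mono hAS

/-- Members have empty interior in the set of big points. -/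
lemma IsContPartition.not_subset_of_open (hG : IsContPartition G K) {A : Set S} (hA : A ∈ G)
    {O : Set S} (hO : IsOpen O) (hne : (O ∩ bigPts G).Nonempty) :
    ∃ x ∈ O ∩ bigPts G, x ∉ A := by
  by_contra hcon
  push Not at hcon
  obtain ⟨x, hxO, hxS⟩ := hne
  apply hxS O hO hxO
  have hsub : meets G O ⊆ {A} ∪ {A ∈ G | ¬ A ⊆ bigPts G} := by
    rintro A' ⟨hA', y, hyA', hyO⟩
    by_cases h : A' = A
    · exact Or.inl h
    · refine Or.inr ⟨hA', fun hsub => h ?_⟩
      exact hG.eq_of_mem hA' hA hyA' (hcon y ⟨hyO, hsub hyA'⟩)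
  exact ((countable_singleton A).union countable_not_subset_bigPts).mono hsub

/-- Pairs of points each of whose neighbourhoods are met simultaneously by uncountably many
members. -/
def bigPairs (G : Set (Set S)) : Set (S × S) :=
  {p | ∀ U V, IsOpen U → IsOpen V → p.1 ∈ U → p.2 ∈ V → ¬ (meets G U ∩ meets G V).Countable}

omit [CompactSpace S] in
lemma isClosed_bigPairs : IsClosed (bigPairs G) := by
  rw [← isOpen_compl_iff, isOpen_iff_mem_nhds]
  rintro ⟨x, y⟩ hx
  have : ∃ U V, IsOpen U ∧ IsOpen V ∧ x ∈ U ∧ y ∈ V ∧ (meets G U ∩ meets G V).Countable := by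
    by_contra hcon
    push Not at hcon
    exact hx hcon
  obtain ⟨U, V, hU, hV, hxU, hyV, hUc⟩ := this
  filter_upwards [(hU.prod hV).mem_nhds (mk_mem_prod hxU hyV)] with p hp hpS
  exact hpS U V hU hV hp.1 hp.2 hUc

lemma countable_not_subset_bigPairs : {A ∈ G | ¬ A ×ˢ A ⊆ bigPairs G}.Countable := by
  have hsub : {A ∈ G | ¬ A ×ˢ A ⊆ bigPairs G} ⊆
      ⋃ b ∈ {b ∈ TopologicalSpace.countableBasis S ×ˢ TopologicalSpace.countableBasis S |
        (meets G b.1 ∩ meets G b.2).Countable}, meets G b.1 ∩ meets G b.2 := by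
    rintro A ⟨hA, hAS⟩
    obtain ⟨⟨x, y⟩, ⟨hxA, hyA⟩, hxS⟩ := not_subset.mp hAS
    have : ∃ U V, IsOpen U ∧ IsOpen V ∧ x ∈ U ∧ y ∈ V ∧
        (meets G U ∩ meets G V).Countable := by
      by_contra hcon
      push Not at hcon
      exact hxS hcon
    obtain ⟨U, V, hU, hV, hxU, hyV, hUc⟩ := this
    obtain ⟨b, hb, hxb, hbU⟩ :=
      (TopologicalSpace.isBasis_countableBasis S).exists_subset_of_mem_open hxU hU
    obtain ⟨c, hc, hyc, hcV⟩ :=
      (TopologicalSpace.isBasis_countableBasis S).exists_subset_of_mem_open hyV hV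
    refine mem_iUnion₂.mpr ⟨(b, c), ⟨⟨hb, hc⟩, hUc.mono ?_⟩, ⟨hA, x, hxA, hxb⟩,
      ⟨hA, y, hyA, hyc⟩⟩
    exact inter_subset_inter (meets_mono hbU) (meets_mono hcV)
  refine Countable.mono hsub (Countable.biUnion ?_ fun b hb => hb.2)
  exact ((TopologicalSpace.countable_countableBasis S).prod
    (TopologicalSpace.countable_countableBasis S)).mono fun b hb => hb.1

/-- Mycielski's theorem on a closed subset of a complete space. -/
theorem mycielski_on {Y : Set S} (hY : IsClosed Y) (hYne : Y.Nonempty) {ι : Type*} [Countable ι]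
    (R : ι → Set (S × S)) (hR : ∀ i, IsClosed (R i))
    (hint : ∀ i, ∀ U V : Set S, IsOpen U → IsOpen V → (U ∩ Y).Nonempty → (V ∩ Y).Nonempty →
      ∃ x ∈ U ∩ Y, ∃ y ∈ V ∩ Y, (x, y) ∉ R i) :
    ∃ P : (ℕ → Bool) → S, (∀ σ, P σ ∈ Y) ∧ ∀ σ τ, σ ≠ τ → ∀ i, (P σ, P τ) ∉ R i := by
  have : CompactSpace Y := isCompact_iff_compactSpace.mp hY.isCompact
  have : Nonempty Y := hYne.to_subtype
  obtain ⟨P, hP⟩ := mycielski (Y := Y)
    (fun i => (fun q : Y × Y => ((q.1 : S), (q.2 : S))) ⁻¹' R i)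
    (fun i => (hR i).preimage (by fun_prop)) (by
      intro i
      by_contra hne
      rw [← ne_eq, ← nonempty_iff_ne_empty] at hne
      obtain ⟨⟨p, q⟩, hpq⟩ := hne
      rw [mem_interior_iff_mem_nhds, mem_nhds_prod_iff'] at hpq
      obtain ⟨U, V, hU, hpU, hV, hqV, hUV⟩ := hpq
      obtain ⟨U', hU', rfl⟩ := isOpen_induced_iff.mp hU
      obtain ⟨V', hV', rfl⟩ := isOpen_induced_iff.mp hV
      obtain ⟨x, ⟨hxU, hxY⟩, y, ⟨hyV, hyY⟩, hxy⟩ := hint i U' V' hU' hV' ⟨p, hpU, p.2⟩
        ⟨q, hqV, q.2⟩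
      have hmem : ((⟨x, hxY⟩ : Y), (⟨y, hyY⟩ : Y)) ∈ (Subtype.val ⁻¹' U') ×ˢ (Subtype.val ⁻¹' V') :=
        ⟨hxU, hyV⟩
      exact hxy (hUV hmem))
  exact ⟨fun σ => P σ, fun σ => (P σ).2, fun σ τ hστ i => hP σ τ hστ i⟩

open Cardinal in
omit [MetricSpace S] [CompactSpace S] in
/-- An injection of the Cantor space into `G` shows that `G` has size continuum. -/
lemma continuum_le_of_injective {f : (ℕ → Bool) → G} (hf : Function.Injective f) :
    continuum ≤ #G := by
  have h1 : #(ℕ → Bool) ≤ #G := mk_le_of_injective hf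
  have h2 : #(ℕ → Bool) = continuum := by simp
  rwa [h2] at h1

open Cardinal in
/-- If `G` has fewer than continuum many members then there are two open sets meeting the set of
big points all of whose pairs of big points are big pairs. -/
theorem IsContPartition.exists_open_bigPairs (hG : IsContPartition G K) (hGu : ¬ G.Countable)
    (hlt : ¬ continuum ≤ #G) :
    ∃ O₁ O₂ : Set S, IsOpen O₁ ∧ IsOpen O₂ ∧ (O₁ ∩ bigPts G).Nonempty ∧
      (O₂ ∩ bigPts G).Nonempty ∧ (O₁ ∩ bigPts G) ×ˢ (O₂ ∩ bigPts G) ⊆ bigPairs G := by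
  by_contra hcon
  push Not at hcon
  have hc := countable_not_subset_bigPairs (G := G)
  have : Countable {A ∈ G | ¬ A ×ˢ A ⊆ bigPairs G} := hc
  obtain ⟨P, hPY, hP⟩ := mycielski_on (isClosed_bigPts (G := G)) (hG.bigPts_nonempty hGu)
    (ι := Option {A ∈ G | ¬ A ×ˢ A ⊆ bigPairs G})
    (fun i => match i with
      | none => bigPairs G
      | some A => (A : Set S) ×ˢ (A : Set S))
    (by
      rintro (_ | ⟨A, hA⟩)
      · exact isClosed_bigPairs
      · exact (hG.closed A hA.1).prod (hG.closed A hA.1))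
    (by
      rintro (_ | ⟨A, hA⟩) U V hU hV hUne hVne
      · obtain ⟨⟨x, y⟩, hxy, hxyW⟩ := not_subset.mp (hcon U V hU hV hUne hVne)
        exact ⟨x, hxy.1, y, hxy.2, hxyW⟩
      · obtain ⟨x, hx, hxA⟩ := hG.not_subset_of_open hA.1 hU hUne
        obtain ⟨y, hy⟩ := hVne
        exact ⟨x, hx, y, hy, fun h => hxA h.1⟩)
  apply hlt
  apply continuum_le_of_injective (f := fun σ => ⟨K (P σ), hG.mem _⟩)
  intro σ τ hστ
  by_contra hne
  simp only [Subtype.mk.injEq] at hστ
  have hσ := hG.self (P σ)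
  have hτ := hG.self (P τ)
  rw [← hστ] at hτ
  by_cases hbad : K (P σ) ×ˢ K (P σ) ⊆ bigPairs G
  · exact hP σ τ hne none (hbad ⟨hσ, hτ⟩)
  · exact hP σ τ hne (some ⟨K (P σ), hG.mem _, hbad⟩) ⟨hσ, hτ⟩

end

end Pool.Agent.Lib.MP_1e7707_gt
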