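import Mathlib
import Pool.Agent.Lib.MP_1e7707_gt.Partition
import Pool.Agent.Lib.MP_1e7707_gt.Count

/-!
# Separation relations in the complement of a small ball

The second step of the proof: some small ball `ball v r` and some open set `V` such that no
component of a trace of a member on the complement of `ball v r` separates two big points of `V`.
-/

open Set Filter Topology Metric

namespace Pool.Agent.Lib.MP_1e7707_gt

/-- The properties of the round sphere which are used in the argument. -/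
structure IsCapSpace (S : Type) [MetricSpace S] : Prop where
  connected : IsPreconnected (univ : Set S)
  conn_ball : ∀ (v : S) (r : ℝ), 0 < r → IsPreconnected (closedBall v r)
  disk : ∀ (v : S) (r : ℝ), 0 < r → r < 2 → ∃ h : ℂ → S, IsDiskMap h (ball v r)ᶜ (sphere v r)

/-- Pairs of points of `D` that are not separated by `M` in `D`. -/
def notSep {S : Type} [TopologicalSpace S] (D M : Set S) : Set (S × S) :=
  {p | p.1 ∈ D ∧ p.2 ∈ D ∧ (p.1 ∈ M ∨ p.2 ∈ M ∨ p.2 ∈ connectedComponentIn (D \ M) p.1)}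

/-- The component of `z` in the trace on `D` of the member containing `z`. -/
def comp {S : Type} [TopologicalSpace S] (K : S → Set S) (D : Set S) (z : S) : Set S :=
  connectedComponentIn (K z ∩ D) z

section

variable {S : Type} [TopologicalSpace S] [T2Space S] {h : ℂ → S} {D T : Set S}

omit [T2Space S] in
lemma notSep_self {M : Set S} {x : S} (hx : x ∈ D) : (x, x) ∈ notSep D M := by
  refine ⟨hx, hx, ?_⟩
  by_cases hxM : x ∈ M
  · exact Or.inl hxM
  · exact Or.inr (Or.inr (mem_connectedComponentIn ⟨hx, hxM⟩))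

/-- Not being separated by a closed set is a closed relation. -/
lemma IsDiskMap.isClosed_notSep (hd : IsDiskMap h D T) {M : Set S} (hM : IsClosed M) :
    IsClosed (notSep D M) := by
  have hD := hd.isClosed
  rw [← isOpen_compl_iff, isOpen_iff_mem_nhds]
  rintro ⟨x, y⟩ hxy
  by_cases hx : x ∈ D
  · by_cases hy : y ∈ D
    · have hxM : x ∉ M := fun h => hxy ⟨hx, hy, Or.inl h⟩
      have hyM : y ∉ M := fun h => hxy ⟨hx, hy, Or.inr (Or.inl h)⟩
      have hcomp : y ∉ connectedComponentIn (D \ M) x := fun h => hxy ⟨hx, hy, Or.inr (Or.inr h)⟩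
      have h1 := hd.component_mem_nhdsWithin hM ⟨hx, hxM⟩
      have h2 := hd.component_mem_nhdsWithin hM ⟨hy, hyM⟩
      rw [mem_nhdsWithin] at h1 h2
      obtain ⟨U, hU, hxU, hUD⟩ := h1
      obtain ⟨V, hV, hyV, hVD⟩ := h2
      filter_upwards [(hU.prod hV).mem_nhds (mk_mem_prod hxU hyV)]
      rintro ⟨x', y'⟩ ⟨hx'U, hy'V⟩ ⟨hx'D, hy'D, hrel⟩
      have hx' := hUD ⟨hx'U, hx'D⟩
      have hy' := hVD ⟨hy'V, hy'D⟩
      rcases hrel with hrel | hrel | hrel
      · exact (connectedComponentIn_subset _ _ hx').2 hrel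
      · exact (connectedComponentIn_subset _ _ hy').2 hrel
      · apply hcomp
        rw [connectedComponentIn_eq hx', connectedComponentIn_eq hrel, ← connectedComponentIn_eq hy']
        exact mem_connectedComponentIn ⟨hy, hyM⟩
    · filter_upwards [(isOpen_univ.prod hD.isOpen_compl).mem_nhds (mk_mem_prod (mem_univ x) hy)]
      rintro ⟨x', y'⟩ ⟨-, hy'⟩ ⟨-, hy'D, -⟩
      exact hy' hy'D
  · filter_upwards [(hD.isOpen_compl.prod isOpen_univ).mem_nhds (mk_mem_prod hx (mem_univ y))]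
    rintro ⟨x', y'⟩ ⟨hx', -⟩ ⟨hx'D, -, -⟩
    exact hx' hx'D

end

section

variable {S : Type} [MetricSpace S] {G : Set (Set S)} {K : S → Set S} {D : Set S}

lemma IsContPartition.mem_comp (hG : IsContPartition G K) {z : S} (hz : z ∈ D) :
    z ∈ comp K D z := mem_connectedComponentIn ⟨hG.self z, hz⟩

lemma comp_subset_K (z : S) : comp K D z ⊆ K z :=
  (connectedComponentIn_subset _ _).trans inter_subset_left

lemma comp_subset_D (z : S) : comp K D z ⊆ D :=
  (connectedComponentIn_subset _ _).trans inter_subset_right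

lemma isPreconnected_comp (z : S) : IsPreconnected (comp K D z) :=
  isPreconnected_connectedComponentIn

lemma IsContPartition.isClosed_comp (hG : IsContPartition G K) (hD : IsClosed D) (z : S) :
    IsClosed (comp K D z) :=
  isClosed_component ((hG.closed _ (hG.mem z)).inter hD) z

lemma IsContPartition.K_eq (hG : IsContPartition G K) {y z : S} (h : y ∈ K z) : K y = K z :=
  hG.uniq _ (hG.mem z) y h

lemma IsContPartition.comp_eq (hG : IsContPartition G K) {y z : S} (h : y ∈ comp K D z) :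
    comp K D y = comp K D z := by
  unfold comp at h ⊢
  have hK : K y = K z := hG.K_eq ((connectedComponentIn_subset _ _).trans inter_subset_left h)
  rw [hK]
  exact (connectedComponentIn_eq h).symm

/-- A connected part of a member inside `D` is contained in the component of each
of its points. -/
lemma subset_comp {A : Set S} {z : S}
    (hA : IsPreconnected A) (hAK : A ⊆ K z) (hAD : A ⊆ D) (hz : z ∈ A) : A ⊆ comp K D z :=
  hA.subset_connectedComponentIn hz (subset_inter hAK hAD)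

/-- Two points of a member contained in `D` are not separated by a component. -/
lemma IsContPartition.notSep_of_subset (hG : IsContPartition G K) {A : Set S} (hA : A ∈ G)
    (hAD : A ⊆ D) {x x' : S} (hx : x ∈ A) (hx' : x' ∈ A) (z : S) :
    (x, x') ∈ notSep D (comp K D z) := by
  refine ⟨hAD hx, hAD hx', ?_⟩
  by_cases hne : (A ∩ comp K D z).Nonempty
  · obtain ⟨y, hyA, hyz⟩ := hne
    left
    rw [← hG.comp_eq hyz]
    have hKy : K y = A := hG.uniq A hA y hyA
    exact subset_comp (z := y) (hG.conn A hA) (by rw [hKy]) hAD hyA hx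
  · right
    right
    have hsub : A ⊆ D \ comp K D z := fun y hy => ⟨hAD hy, fun hyz => hne ⟨y, hy, hyz⟩⟩
    exact (hG.conn A hA).subset_connectedComponentIn hx hsub hx'

variable [CompactSpace S]

open Cardinal in
/-- The second step of the proof. -/
theorem IsContPartition.exists_cap (hG : IsContPartition G K) (hS : IsCapSpace S)
    (hGu : ¬ G.Countable) (hlt : ¬ continuum ≤ #G) :
    ∃ (v x₀ : S) (r : ℝ) (V : Set S), 0 < r ∧ r < 2 ∧ IsOpen V ∧ x₀ ∈ V ∩ bigPts G ∧
      Disjoint V (closedBall v r) ∧ (∀ x ∈ V ∩ bigPts G, (x, v) ∈ bigPairs G) ∧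
      (∀ z, ∀ x ∈ V ∩ bigPts G, ∀ x' ∈ V ∩ bigPts G, x ∉ comp K (ball v r)ᶜ z →
        x' ∉ comp K (ball v r)ᶜ z →
        x' ∈ connectedComponentIn ((ball v r)ᶜ \ comp K (ball v r)ᶜ z) x) := by
  obtain ⟨O₁, O₂, hO₁, hO₂, hne₁, hne₂, hW⟩ := hG.exists_open_bigPairs hGu hlt
  obtain ⟨x₁, hx₁O, hx₁S⟩ := hne₁
  obtain ⟨x₂, ⟨hx₂O, hx₂S⟩, hx₂K⟩ := hG.not_subset_of_open (hG.mem x₁) hO₂ hne₂
  have hx12 : x₁ ≠ x₂ := by
    rintro rfl
    exact hx₂K (hG.self _)
  have hdist : 0 < dist x₁ x₂ := dist_pos.mpr hx12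
  obtain ⟨ρ₁, hρ₁, hb₁⟩ := Metric.nhds_basis_closedBall.mem_iff.mp (hO₁.mem_nhds hx₁O)
  obtain ⟨ρ₂, hρ₂, hb₂⟩ := Metric.nhds_basis_closedBall.mem_iff.mp (hO₂.mem_nhds hx₂O)
  obtain ⟨ρ, hρ, hρ1, hρ2, hρ3, hρ4⟩ : ∃ ρ : ℝ, 0 < ρ ∧ ρ ≤ 1 ∧ ρ ≤ ρ₁ ∧ ρ ≤ ρ₂ ∧
      4 * ρ ≤ dist x₁ x₂ := by
    refine ⟨min (min 1 ρ₁) (min ρ₂ (dist x₁ x₂ / 4)), ?_, ?_, ?_, ?_, ?_⟩
    · positivity
    · exact (min_le_left _ _).trans (min_le_left _ _)
    · exact (min_le_left _ _).trans (min_le_right _ _)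
    · exact (min_le_right _ _).trans (min_le_left _ _)
    · have := (min_le_right (min 1 ρ₁) (min ρ₂ (dist x₁ x₂ / 4))).trans (min_le_right _ _)
      linarith
  set Y : Set S := closure (ball x₁ ρ ∩ bigPts G) with hY
  have hYb : Y ⊆ closedBall x₁ ρ :=
    closure_minimal (inter_subset_left.trans ball_subset_closedBall) isClosed_closedBall
  have hYne : Y.Nonempty := ⟨x₁, subset_closure ⟨mem_ball_self hρ, hx₁S⟩⟩
  -- a dense sequence
  have : Nonempty ↥(ball x₂ ρ ∩ bigPts G) := ⟨⟨x₂, mem_ball_self hρ, hx₂S⟩⟩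
  set y : ℕ → S := fun n => (TopologicalSpace.denseSeq ↥(ball x₂ ρ ∩ bigPts G) n : S) with hy
  have hymem : ∀ n, y n ∈ ball x₂ ρ ∩ bigPts G := fun n => Subtype.prop _
  have hydense : ball x₂ ρ ∩ bigPts G ⊆ closure (range y) := by
    intro p hp
    have h1 := TopologicalSpace.denseRange_denseSeq ↥(ball x₂ ρ ∩ bigPts G) ⟨p, hp⟩
    rw [closure_subtype] at h1
    rw [← range_comp] at h1
    exact h1
  have hrad : ∀ m : ℕ, 0 < ρ / (m + 1) ∧ ρ / (m + 1) ≤ ρ := by
    intro m
    have hm : (0 : ℝ) < (m : ℝ) + 1 := by positivity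
    refine ⟨by positivity, ?_⟩
    rw [div_le_iff₀ hm]
    have : (0 : ℝ) ≤ (m : ℝ) := by positivity
    nlinarith
  have hdisj : ∀ n m : ℕ, Disjoint (closedBall x₁ ρ) (closedBall (y n) (ρ / (m + 1))) := by
    intro n m
    rw [disjoint_left]
    intro p hp1 hp2
    rw [mem_closedBall] at hp1 hp2
    have h3 := (hymem n).1
    rw [mem_ball] at h3
    have h4 := (hrad m).2
    have h5 := dist_triangle x₁ p x₂
    have h6 := dist_triangle p (y n) x₂
    rw [dist_comm x₁ p] at h5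
    linarith
  -- the relations
  by_cases hR : ∀ p : ℕ × ℕ, ∀ U V : Set S, IsOpen U → IsOpen V → (U ∩ Y).Nonempty →
      (V ∩ Y).Nonempty → ∃ x ∈ U ∩ Y, ∃ x' ∈ V ∩ Y, (x, x') ∉
        ⋂ z : S, notSep (ball (y p.1) (ρ / (p.2 + 1)))ᶜ (comp K (ball (y p.1) (ρ / (p.2 + 1)))ᶜ z)
  · exfalso
    obtain ⟨P, hPY, hP⟩ := mycielski_on isClosed_closure hYne (ι := ℕ × ℕ) (fun p =>
      ⋂ z : S, notSep (ball (y p.1) (ρ / (p.2 + 1)))ᶜ (comp K (ball (y p.1) (ρ / (p.2 + 1)))ᶜ z))
      (by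
        intro p
        apply isClosed_iInter
        intro z
        obtain ⟨h, hd⟩ := hS.disk (y p.1) (ρ / (p.2 + 1)) (hrad p.2).1
          (by linarith [(hrad p.2).2])
        exact hd.isClosed_notSep (hG.isClosed_comp hd.isClosed z))
      hR
    have hninj : ¬ Function.Injective (fun σ => (⟨K (P σ), hG.mem _⟩ : G)) := fun hinj =>
      hlt (continuum_le_of_injective hinj)
    rw [Function.not_injective_iff] at hninj
    obtain ⟨σ, τ, hστ, hne⟩ := hninj
    simp only [Subtype.mk.injEq] at hστ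
    have hmeet : ∀ n m : ℕ, ¬ K (P σ) ⊆ (ball (y n) (ρ / (m + 1)))ᶜ := by
      intro n m hsub
      apply hP σ τ hne (n, m)
      refine mem_iInter.mpr fun z => ?_
      apply hG.notSep_of_subset (hG.mem (P σ)) hsub (hG.self _)
      rw [hστ]
      exact hG.self _
    have hycl : ∀ n, y n ∈ K (P σ) := by
      intro n
      rw [← (hG.closed _ (hG.mem (P σ))).closure_eq, Metric.mem_closure_iff]
      intro ε hε
      obtain ⟨m, hm⟩ := exists_nat_gt (ρ / ε)
      obtain ⟨p, hpK, hp⟩ := not_subset.mp (hmeet n m)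
      rw [notMem_compl_iff, mem_ball] at hp
      refine ⟨p, hpK, ?_⟩
      rw [dist_comm]
      refine hp.trans ?_
      have hm1 : (0 : ℝ) < (m : ℝ) + 1 := by positivity
      rw [div_lt_iff₀ hε] at hm
      rw [div_lt_iff₀ hm1]
      nlinarith
    have hsub : ball x₂ ρ ∩ bigPts G ⊆ K (P σ) := by
      refine hydense.trans ?_
      apply closure_minimal _ (hG.closed _ (hG.mem _))
      rintro _ ⟨n, rfl⟩
      exact hycl n
    obtain ⟨x, hx, hxK⟩ := hG.not_subset_of_open (hG.mem (P σ)) isOpen_ball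
      ⟨x₂, mem_ball_self hρ, hx₂S⟩
    exact hxK (hsub hx)
  · push Not at hR
    obtain ⟨⟨n, m⟩, U, V, hU, hV, hUne, hVne, hUV⟩ := hR
    -- transfer nonemptiness from the closure
    have htrans : ∀ U : Set S, IsOpen U → (U ∩ Y).Nonempty →
        (U ∩ ball x₁ ρ ∩ bigPts G).Nonempty := by
      rintro U hU ⟨p, hpU, hpY⟩
      obtain ⟨q, hqU, hq1, hq2⟩ := mem_closure_iff.mp hpY U hU hpU
      exact ⟨q, ⟨hqU, hq1⟩, hq2⟩
    obtain ⟨x₀, hx₀⟩ := htrans U hU hUne
    have hyn := hymem n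
    refine ⟨y n, x₀, ρ / (m + 1), U ∩ ball x₁ ρ, (hrad m).1, by linarith [(hrad m).2],
      hU.inter isOpen_ball, hx₀, ?_, ?_, ?_⟩
    · exact (hdisj n m).mono_left (inter_subset_right.trans ball_subset_closedBall)
    · rintro x ⟨⟨-, hxb⟩, hxS⟩
      apply hW
      refine ⟨⟨?_, hxS⟩, ?_, hyn.2⟩
      · exact hb₁ (closedBall_subset_closedBall hρ2 (ball_subset_closedBall hxb))
      · exact hb₂ (closedBall_subset_closedBall hρ3 (ball_subset_closedBall hyn.1))
    · rintro z x ⟨⟨hxU, hxb⟩, hxS⟩ x' ⟨⟨hx'U, hx'b⟩, hx'S⟩ hxC hx'C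
      obtain ⟨w, hw, hwK⟩ := hG.not_subset_of_open (hG.mem z) (hV.inter isOpen_ball)
        (htrans V hV hVne)
      have hwC : w ∉ comp K (ball (y n) (ρ / (m + 1)))ᶜ z := fun h => hwK (comp_subset_K z h)
      have h1 := mem_iInter.mp (hUV x ⟨hxU, subset_closure ⟨hxb, hxS⟩⟩ w
        ⟨hw.1.1, subset_closure ⟨hw.1.2, hw.2⟩⟩) z
      have h2 := mem_iInter.mp (hUV x' ⟨hx'U, subset_closure ⟨hx'b, hx'S⟩⟩ w
        ⟨hw.1.1, subset_closure ⟨hw.1.2, hw.2⟩⟩) z
      have h1' := (h1.2.2.resolve_left hxC).resolve_left hwC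
      have h2' := (h2.2.2.resolve_left hx'C).resolve_left hwC
      simp only at h1' h2'
      rw [component_eq_of_mem h1' h2']
      exact mem_connectedComponentIn ⟨h2.1, hx'C⟩

end

end Pool.Agent.Lib.MP_1e7707_gt
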