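import Mathlib
import Pool.Agent.Lib.MP_1e7707_gt.Cap

/-!
# Members with three hairs

The third step of the proof: all but countably many members are well behaved.
-/

open Set Filter Topology Metric

namespace Pool.Agent.Lib.MP_1e7707_gt

variable {S : Type} [MetricSpace S] [CompactSpace S] {G : Set (Set S)} {K : S → Set S}

/-- If a member is not contained in the complement `D` of an open ball, then the components of
its trace on `D` reach the boundary sphere. -/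
lemma IsContPartition.comp_inter_sphere (hG : IsContPartition G K) {v : S} {r : ℝ} {z : S}
    (hz : z ∉ ball v r) (hK : ¬ K z ⊆ (ball v r)ᶜ) :
    (comp K (ball v r)ᶜ z ∩ sphere v r).Nonempty := by
  obtain ⟨y, hy, hyc⟩ := bumping_inter (hG.conn _ (hG.mem z)) (hG.closed _ (hG.mem z))
    isOpen_ball.isClosed_compl hK ⟨hG.self z, hz⟩
  refine ⟨y, hy, ?_⟩
  have h1 : K z \ (ball v r)ᶜ ⊆ ball v r := by
    intro w hw
    by_contra h
    exact hw.2 h
  have h2 : y ∈ closedBall v r := closure_minimal (h1.trans ball_subset_closedBall)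
    isClosed_closedBall hyc
  have h3 : y ∉ ball v r := comp_subset_D (K := K) z hy
  rw [mem_closedBall] at h2
  rw [mem_ball] at h3
  rw [mem_sphere]
  linarith

/-- A closed connected set, a point of it outside an open ball, and a point inside the ball: the
component of the part outside of the ball reaches the sphere. -/
lemma exists_mem_sphere_of_component {C : Set S} (hC : IsPreconnected C) (hCc : IsClosed C)
    {x₀ : S} {ρ : ℝ} (hne : (C ∩ ball x₀ ρ).Nonempty) {z : S} (hz : z ∈ C) (hzb : z ∉ ball x₀ ρ) :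
    (connectedComponentIn (C ∩ (ball x₀ ρ)ᶜ) z ∩ sphere x₀ ρ).Nonempty := by
  obtain ⟨y, hy, hyc⟩ := bumping_inter hC hCc isOpen_ball.isClosed_compl (by
    obtain ⟨w, hwC, hwb⟩ := hne
    exact fun h => h hwC hwb) ⟨hz, hzb⟩
  refine ⟨y, hy, ?_⟩
  have h1 : C \ (ball x₀ ρ)ᶜ ⊆ ball x₀ ρ := by
    intro w hw
    by_contra h
    exact hw.2 h
  have h2 : y ∈ closedBall x₀ ρ := closure_minimal (h1.trans ball_subset_closedBall)
    isClosed_closedBall hyc
  have h3 : y ∉ ball x₀ ρ := (connectedComponentIn_subset _ _ hy).2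
  rw [mem_closedBall] at h2
  rw [mem_ball] at h3
  rw [mem_sphere]
  linarith

/-- The construction of a connected subset of a member having three points on the boundary of
the second ball. -/
theorem IsContPartition.exists_tripod (hG : IsContPartition G K) {v x₀ : S} {r ρ : ℝ}
    (hdisj : Disjoint (closedBall x₀ ρ) (closedBall v r)) {Q : Set S} (hQ : IsClosed Q)
    (hQD : Q ⊆ (ball v r)ᶜ) (hsat : ∀ y ∈ Q, comp K (ball v r)ᶜ y ⊆ Q) {A : Set S} (hA : A ∈ G)
    (hAO : A ∩ ball x₀ ρ ⊆ Q)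
    (hsub : ∀ z ∈ A ∩ Q, ∀ a ∈ comp K (ball v r)ᶜ z ∩ sphere v r,
      ∀ b ∈ comp K (ball v r)ᶜ z ∩ sphere v r, a = b)
    {z₁ z₂ z₃ : S} (hz₁ : z₁ ∈ A ∩ sphere v r) (hz₂ : z₂ ∈ A ∩ sphere v r)
    (hz₃ : z₃ ∈ A ∩ sphere v r) (h12 : z₁ ≠ z₂) (h23 : z₂ ≠ z₃) (h13 : z₁ ≠ z₃)
    (hO₁ : (comp K (ball v r)ᶜ z₁ ∩ ball x₀ ρ).Nonempty)
    (hO₂ : (comp K (ball v r)ᶜ z₂ ∩ ball x₀ ρ).Nonempty)
    (hO₃ : (comp K (ball v r)ᶜ z₃ ∩ ball x₀ ρ).Nonempty) :
    ∃ Y ⊆ A, IsClosed Y ∧ IsPreconnected Y ∧ Y ⊆ (ball x₀ ρ)ᶜ ∧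
      ∃ x ∈ Y ∩ sphere x₀ ρ, ∃ y ∈ Y ∩ sphere x₀ ρ, ∃ z ∈ Y ∩ sphere x₀ ρ,
        x ≠ y ∧ y ≠ z ∧ x ≠ z := by
  set D : Set S := (ball v r)ᶜ with hD
  have hDc : IsClosed D := isOpen_ball.isClosed_compl
  have hKA : ∀ y ∈ A, K y = A := hG.uniq A hA
  have hTD : sphere v r ⊆ D := by
    intro w hw
    rw [hD, mem_compl_iff, mem_ball]
    rw [mem_sphere] at hw
    linarith
  -- the three components are in `Q`
  have hzQ : ∀ z ∈ A ∩ sphere v r, (comp K D z ∩ ball x₀ ρ).Nonempty → z ∈ Q := by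
    rintro z ⟨hzA, hzT⟩ ⟨w, hwC, hwO⟩
    have hwA : w ∈ A := by
      rw [← hKA z hzA]
      exact comp_subset_K z hwC
    have hwQ := hAO ⟨hwA, hwO⟩
    have h1 := hsat w hwQ
    rw [hG.comp_eq hwC] at h1
    exact h1 (hG.mem_comp (hTD hzT))
  -- `A` is not contained in `D`
  have hAD : ¬ A ⊆ D := by
    intro h
    have h1 : A ⊆ comp K D z₁ := by
      apply subset_comp (hG.conn A hA) _ h hz₁.1
      rw [hKA z₁ hz₁.1]
    exact h12 (hsub z₁ ⟨hz₁.1, hzQ z₁ hz₁ hO₁⟩ z₁ ⟨h1 hz₁.1, hz₁.2⟩ z₂ ⟨h1 hz₂.1, hz₂.2⟩)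
  -- the components reach `T`
  have hreach : ∀ z ∈ A ∩ D, (comp K D z ∩ sphere v r).Nonempty := by
    rintro z ⟨hzA, hzD⟩
    apply hG.comp_inter_sphere hzD
    rw [hKA z hzA]
    exact hAD
  set Z : Set S := A ∩ Q with hZ
  have hAc := hG.closed A hA
  have hZc : IsClosed Z := hAc.inter hQ
  set N : Set S := closure (A \ Z) with hN
  have hNA : N ⊆ A := closure_minimal sdiff_subset hAc
  have hZne : (A \ Z).Nonempty := by
    obtain ⟨y, hyA, hyD⟩ := not_subset.mp hAD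
    exact ⟨y, hyA, fun h => hyD (hQD h.2)⟩
  -- components of `Z`
  have hcompZ : ∀ z ∈ Z, connectedComponentIn Z z = comp K D z := by
    rintro z ⟨hzA, hzQ'⟩
    apply Subset.antisymm
    · have : comp K D z = connectedComponentIn (A ∩ D) z := by
        unfold comp
        rw [hKA z hzA]
      rw [this]
      exact connectedComponentIn_mono z (inter_subset_inter_right A hQD)
    · apply (isPreconnected_comp z).subset_connectedComponentIn (hG.mem_comp (hQD hzQ'))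
      intro y hy
      refine ⟨?_, hsat z hzQ' hy⟩
      rw [← hKA z hzA]
      exact comp_subset_K z hy
  -- the key connectedness property
  have hkey : ∀ z ∈ Z, ∀ t ∈ comp K D z ∩ sphere v r, ∀ p ∈ comp K D z ∩ N,
      ∃ L ⊆ comp K D z ∩ N, t ∈ L ∧ p ∈ L ∧ IsPreconnected L := by
    rintro z hz t ht p ⟨hpC, hpN⟩
    by_cases hpT : p ∈ sphere v r
    · have hpt : p = t := hsub z hz p ⟨hpC, hpT⟩ t ht
      subst hpt
      exact ⟨{p}, singleton_subset_iff.mpr ⟨hpC, hpN⟩, rfl, rfl, isPreconnected_singleton⟩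
    · obtain ⟨x, hx, hxp⟩ := mem_closure_iff_seq_limit.mp hpN
      have hpD : p ∈ D := comp_subset_D z hpC
      have hpcl : p ∉ closedBall v r := by
        rw [mem_closedBall]
        rw [hD, mem_compl_iff, mem_ball] at hpD
        rw [mem_sphere] at hpT
        intro h
        exact hpT (le_antisymm h (not_lt.mp hpD))
      obtain ⟨n₀, hn₀⟩ := eventually_atTop.mp
        (hxp.eventually (isClosed_closedBall.isOpen_compl.mem_nhds hpcl))
      set x' : ℕ → S := fun n => x (n + n₀) with hx'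
      have hx'p : Tendsto x' atTop (𝓝 p) := (tendsto_add_atTop_iff_nat n₀).mpr hxp
      have hx'D : ∀ n, x' n ∈ D := by
        intro n
        have := hn₀ (n + n₀) (by omega)
        intro h
        exact this (ball_subset_closedBall h)
      have hx'A : ∀ n, x' n ∈ A := fun n => (hx _).1
      have hx'Q : ∀ n, x' n ∉ Q := fun n h => (hx (n + n₀)).2 ⟨hx'A n, h⟩
      set C : ℕ → Set S := fun n => comp K D (x' n) with hC
      have hCx : ∀ n, x' n ∈ C n := fun n => hG.mem_comp (hx'D n)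
      have hCA : ∀ n, C n ⊆ A := by
        intro n
        rw [← hKA _ (hx'A n)]
        exact comp_subset_K _
      have hCQ : ∀ n, ∀ y ∈ C n, y ∉ Q := by
        intro n y hy hyQ
        apply hx'Q n
        apply hsat y hyQ
        rw [hG.comp_eq hy]
        exact hCx n
      have hLpre : IsPreconnected (limset C) :=
        isPreconnected_limset (fun n => isPreconnected_comp _) hCx hx'p
      have hpL : p ∈ limset C := mem_limset_of_tendsto hCx hx'p
      have hLA : limset C ⊆ A := limset_subset hAc hCA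
      have hLD : limset C ⊆ D := limset_subset hDc fun n => comp_subset_D _
      have hLN : limset C ⊆ N := by
        apply limset_subset isClosed_closure
        intro n y hy
        exact subset_closure ⟨hCA n hy, fun h => hCQ n y hy h.2⟩
      have hLC : limset C ⊆ comp K D z := by
        rw [← hG.comp_eq hpC]
        apply subset_comp hLpre _ hLD hpL
        rw [hKA p (hNA hpN)]
        exact hLA
      obtain ⟨u, huL, huT⟩ := limset_inter_nonempty (C := C) (isClosed_sphere (x := v) (ε := r))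
        (fun n => hreach _ ⟨hx'A n, hx'D n⟩)
      have hut : u = t := hsub z hz u ⟨hLC huL, huT⟩ t ht
      subst hut
      exact ⟨limset C, subset_inter hLC hLN, huL, hpL, hLpre⟩
  -- `C_z ∩ N` is nonempty
  have hbump : ∀ z ∈ Z, (comp K D z ∩ N).Nonempty := by
    intro z hz
    rw [← hcompZ z hz]
    exact bumping (hG.conn A hA) hZc inter_subset_left hZne hz
  have htN : ∀ z ∈ Z, ∀ t ∈ comp K D z ∩ sphere v r, t ∈ N := by
    intro z hz t ht
    obtain ⟨p, hp⟩ := hbump z hz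
    obtain ⟨L, hL, htL, -, -⟩ := hkey z hz t ht p hp
    exact (hL htL).2
  have hNpre : IsPreconnected N := by
    apply isPreconnected_closure_diff (hG.conn A hA) hAc hZc
    intro z hz
    rw [hcompZ z hz]
    refine ⟨?_, hbump z hz⟩
    obtain ⟨t, ht⟩ := hreach z ⟨hz.1, hQD hz.2⟩
    apply isPreconnected_of_forall t
    intro p hp
    obtain ⟨L, hL, htL, hpL, hLp⟩ := hkey z hz t ht p hp
    exact ⟨L, hL, htL, hpL, hLp⟩
  have hNO : N ⊆ (ball x₀ ρ)ᶜ := by
    apply closure_minimal _ isOpen_ball.isClosed_compl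
    intro y hy hyO
    exact hy.2 ⟨hy.1, hAO ⟨hy.1, hyO⟩⟩
  -- the legs
  have hleg : ∀ z ∈ A ∩ sphere v r, (comp K D z ∩ ball x₀ ρ).Nonempty →
      ∃ L ⊆ comp K D z, IsClosed L ∧ IsPreconnected L ∧ L ⊆ (ball x₀ ρ)ᶜ ∧ z ∈ L ∧ z ∈ N ∧
        (L ∩ sphere x₀ ρ).Nonempty := by
    intro z hz hO
    have hzD : z ∈ D := hTD hz.2
    have hzC : z ∈ comp K D z := hG.mem_comp hzD
    have hzO : z ∉ ball x₀ ρ := by
      intro h
      exact disjoint_left.mp hdisj (ball_subset_closedBall h) (sphere_subset_closedBall hz.2)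
    refine ⟨connectedComponentIn (comp K D z ∩ (ball x₀ ρ)ᶜ) z,
      (connectedComponentIn_subset _ _).trans inter_subset_left, ?_, ?_, ?_, ?_, ?_, ?_⟩
    · exact isClosed_component ((hG.isClosed_comp hDc z).inter isOpen_ball.isClosed_compl) z
    · exact isPreconnected_connectedComponentIn
    · exact (connectedComponentIn_subset _ _).trans inter_subset_right
    · exact mem_connectedComponentIn ⟨hzC, hzO⟩
    · exact htN z ⟨hz.1, hzQ z hz hO⟩ z ⟨hzC, hz.2⟩
    · exact exists_mem_sphere_of_component (isPreconnected_comp z) (hG.isClosed_comp hDc z) hO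
        hzC hzO
  obtain ⟨L₁, hL₁C, hL₁c, hL₁p, hL₁O, hzL₁, hzN₁, u₁, hu₁, hu₁S⟩ := hleg z₁ hz₁ hO₁
  obtain ⟨L₂, hL₂C, hL₂c, hL₂p, hL₂O, hzL₂, hzN₂, u₂, hu₂, hu₂S⟩ := hleg z₂ hz₂ hO₂
  obtain ⟨L₃, hL₃C, hL₃c, hL₃p, hL₃O, hzL₃, hzN₃, u₃, hu₃, hu₃S⟩ := hleg z₃ hz₃ hO₃
  have hLA : ∀ z ∈ A, comp K D z ⊆ A := by
    intro z hz
    rw [← hKA z hz]
    exact comp_subset_K z
  have hdist : ∀ z ∈ A ∩ sphere v r, (comp K D z ∩ ball x₀ ρ).Nonempty → ∀ z' ∈ A ∩ sphere v r,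
      z ≠ z' → ∀ u ∈ comp K D z, ∀ u' ∈ comp K D z', u ≠ u' := by
    rintro z hz hO z' hz' hne u hu u' hu' rfl
    apply hne
    have h1 : comp K D z = comp K D z' := (hG.comp_eq hu).symm.trans (hG.comp_eq hu')
    apply hsub z ⟨hz.1, hzQ z hz hO⟩ z ⟨hG.mem_comp (hTD hz.2), hz.2⟩ z'
    refine ⟨?_, hz'.2⟩
    rw [h1]
    exact hG.mem_comp (hTD hz'.2)
  refine ⟨((N ∪ L₁) ∪ L₂) ∪ L₃, ?_, ?_, ?_, ?_, u₁, ⟨?_, hu₁S⟩, u₂, ⟨?_, hu₂S⟩, u₃, ⟨?_, hu₃S⟩,
    ?_, ?_, ?_⟩
  · exact union_subset (union_subset (union_subset hNA (hL₁C.trans (hLA _ hz₁.1)))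
      (hL₂C.trans (hLA _ hz₂.1))) (hL₃C.trans (hLA _ hz₃.1))
  · exact ((isClosed_closure.union hL₁c).union hL₂c).union hL₃c
  · apply IsPreconnected.union z₃ (Or.inl (Or.inl hzN₃)) hzL₃ _ hL₃p
    apply IsPreconnected.union z₂ (Or.inl hzN₂) hzL₂ _ hL₂p
    exact IsPreconnected.union z₁ hzN₁ hzL₁ hNpre hL₁p
  · exact union_subset (union_subset (union_subset hNO hL₁O) hL₂O) hL₃O
  · exact Or.inl (Or.inl (Or.inr hu₁))
  · exact Or.inl (Or.inr hu₂)
  · exact Or.inr hu₃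
  · exact hdist z₁ hz₁ hO₁ z₂ hz₂ h12 u₁ (hL₁C hu₁) u₂ (hL₂C hu₂)
  · exact hdist z₂ hz₂ hO₂ z₃ hz₃ h23 u₂ (hL₂C hu₂) u₃ (hL₃C hu₃)
  · exact hdist z₁ hz₁ hO₁ z₃ hz₃ h13 u₁ (hL₁C hu₁) u₃ (hL₃C hu₃)

end Pool.Agent.Lib.MP_1e7707_gt
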