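import Mathlib
import Pool.Agent.Lib.MP_1e7707_gt.Tripod

/-!
# All but countably many members are good
-/

open Set Filter Topology Metric

namespace Pool.Agent.Lib.MP_1e7707_gt

variable {S : Type} [MetricSpace S] [CompactSpace S] {G : Set (Set S)} {K : S → Set S}

/-- The points of `D` that no component separates from the big points of `V`. -/
def core (G : Set (Set S)) (K : S → Set S) (D V : Set S) : Set S :=
  {y ∈ D | ∀ z, y ∈ comp K D z ∨ ∀ x ∈ V ∩ bigPts G, x ∈ D → x ∉ comp K D z →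
    y ∈ connectedComponentIn (D \ comp K D z) x}

omit [CompactSpace S] in
lemma IsContPartition.isClosed_core (hG : IsContPartition G K) {h : ℂ → S} {D T : Set S}
    (hd : IsDiskMap h D T) (V : Set S) : IsClosed (core G K D V) := by
  have heq : core G K D V = D ∩ ⋂ z : S, ⋂ x : {x // x ∈ V ∩ bigPts G ∧ x ∈ D ∧ x ∉ comp K D z},
      (connectedComponentIn (D \ comp K D z) (x : S) ∪ comp K D z) := by
    ext y
    simp only [core, mem_inter_iff, mem_iInter, Subtype.forall, mem_union]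
    constructor
    · rintro ⟨hyD, hy⟩
      refine ⟨hyD, fun z x hx => ?_⟩
      rcases hy z with h1 | h1
      · exact Or.inr h1
      · exact Or.inl (h1 x hx.1 hx.2.1 hx.2.2)
    · rintro ⟨hyD, hy⟩
      refine ⟨hyD, fun z => ?_⟩
      by_cases hyz : y ∈ comp K D z
      · exact Or.inl hyz
      · right
        intro x hx hxD hxz
        exact (hy z x ⟨hx, hxD, hxz⟩).resolve_right hyz
  rw [heq]
  refine hd.isClosed.inter (isClosed_iInter fun z => isClosed_iInter fun x => ?_)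
  apply isClosed_of_closure_subset
  rw [closure_union, (hG.isClosed_comp hd.isClosed z).closure_eq]
  exact union_subset (hd.closure_component_subset (hG.isClosed_comp hd.isClosed z) _)
    subset_union_right

omit [CompactSpace S] in
lemma IsContPartition.comp_subset_core (hG : IsContPartition G K) {D V : Set S} {y : S}
    (hy : y ∈ core G K D V) : comp K D y ⊆ core G K D V := by
  intro y' hy'
  refine ⟨comp_subset_D y hy', fun z => ?_⟩
  by_cases hne : (comp K D y ∩ comp K D z).Nonempty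
  · left
    obtain ⟨u, hu1, hu2⟩ := hne
    rw [← hG.comp_eq hu2, hG.comp_eq hu1]
    exact hy'
  · right
    intro x hx hxD hxz
    have hyz : y ∉ comp K D z := fun h => hne ⟨y, hG.mem_comp hy.1, h⟩
    have h1 := (hy.2 z).resolve_left hyz x hx hxD hxz
    refine subset_component_of_inter (isPreconnected_comp y) ?_ ⟨y, hG.mem_comp hy.1, h1⟩ hy'
    intro u hu
    exact ⟨comp_subset_D y hu, fun h => hne ⟨u, hu, h⟩⟩

/-- The third step of the proof: the exceptional members. -/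
theorem IsContPartition.exists_good (hG : IsContPartition G K) (hS : IsCapSpace S)
    {v x₀ : S} {r : ℝ} {V : Set S} (hr : 0 < r) (hr2 : r < 2) (hV : IsOpen V)
    (hx₀ : x₀ ∈ V ∩ bigPts G) (hVv : Disjoint V (closedBall v r))
    (hpair : ∀ x ∈ V ∩ bigPts G, (x, v) ∈ bigPairs G)
    (hsep : ∀ z, ∀ x ∈ V ∩ bigPts G, ∀ x' ∈ V ∩ bigPts G, x ∉ comp K (ball v r)ᶜ z →
        x' ∉ comp K (ball v r)ᶜ z →
        x' ∈ connectedComponentIn ((ball v r)ᶜ \ comp K (ball v r)ᶜ z) x) :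
    ∃ (ρ : ℝ) (Bad : Set (Set S)), 0 < ρ ∧ ρ < 2 ∧
      Disjoint (closedBall x₀ ρ) (closedBall v r) ∧ Bad ⊆ G ∧ Bad.Countable ∧
      (∀ A ∈ G, A ∉ Bad → ∀ z ∈ A, (comp K (ball v r)ᶜ z ∩ ball x₀ ρ).Nonempty →
        ∀ a ∈ comp K (ball v r)ᶜ z ∩ sphere v r, ∀ b ∈ comp K (ball v r)ᶜ z ∩ sphere v r, a = b) ∧
      (∀ A ∈ G, A ∉ Bad → ∀ z₁ ∈ A ∩ sphere v r, ∀ z₂ ∈ A ∩ sphere v r, ∀ z₃ ∈ A ∩ sphere v r,
        (comp K (ball v r)ᶜ z₁ ∩ ball x₀ ρ).Nonempty →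
        (comp K (ball v r)ᶜ z₂ ∩ ball x₀ ρ).Nonempty →
        (comp K (ball v r)ᶜ z₃ ∩ ball x₀ ρ).Nonempty → z₁ ≠ z₂ → z₂ ≠ z₃ → z₁ ≠ z₃ → False) ∧
      ¬ (meets G (ball x₀ ρ) ∩ meets G (ball v r)).Countable := by
  have : Nonempty S := ⟨x₀⟩
  obtain ⟨ρ', hρ', hb⟩ := Metric.nhds_basis_closedBall.mem_iff.mp (hV.mem_nhds hx₀.1)
  obtain ⟨ρ, hρ, hρ2, hρρ'⟩ : ∃ ρ : ℝ, 0 < ρ ∧ ρ < 2 ∧ ρ ≤ ρ' :=
    ⟨min 1 ρ', by positivity, lt_of_le_of_lt (min_le_left _ _) (by norm_num), min_le_right _ _⟩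
  have hbV : closedBall x₀ ρ ⊆ V := (closedBall_subset_closedBall hρρ').trans hb
  have hdisj : Disjoint (closedBall x₀ ρ) (closedBall v r) := hVv.mono_left hbV
  set D : Set S := (ball v r)ᶜ with hD
  obtain ⟨h, hd⟩ := hS.disk v r hr hr2
  rw [← hD] at hd
  obtain ⟨h', hd'⟩ := hS.disk x₀ ρ hρ hρ2
  have hTD : sphere v r ⊆ D := hd.subset
  have hVD : V ⊆ D := by
    intro x hx hxb
    exact disjoint_left.mp hVv hx (ball_subset_closedBall hxb)
  set Q : Set S := core G K D V with hQdef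
  have hQ : IsClosed Q := hG.isClosed_core hd V
  have hQD : Q ⊆ D := fun y hy => hy.1
  have hVQ : V ∩ bigPts G ⊆ Q := by
    intro x hx
    refine ⟨hVD hx.1, fun z => ?_⟩
    by_cases hxz : x ∈ comp K D z
    · exact Or.inl hxz
    · right
      intro x' hx' _ hx'z
      exact hsep z x' hx' x hx hx'z hxz
  -- the first two kinds of bad members
  set B₁ : Set (Set S) := {A ∈ G | ¬ A ⊆ bigPts G} with hB₁
  set B₂ : Set (Set S) := {A ∈ G | ∃ z ∈ A, z ∈ Q ∧ ∃ a ∈ comp K D z ∩ sphere v r,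
    ∃ b ∈ comp K D z ∩ sphere v r, a ≠ b} with hB₂
  have hB₂c : B₂.Countable := by
    have hch : ∀ A ∈ B₂, ∃ z ∈ A, z ∈ Q ∧ ∃ a ∈ comp K D z ∩ sphere v r,
        ∃ b ∈ comp K D z ∩ sphere v r, a ≠ b := fun A hA => hA.2
    choose! z hzA hzQ hab using hch
    have hsubA : ∀ A ∈ B₂, comp K D (z A) ⊆ A := by
      intro A hA
      have : K (z A) = A := hG.uniq A hA.1 _ (hzA A hA)
      conv_rhs => rw [← this]
      exact comp_subset_K _
    have hdis : ∀ i ∈ B₂, ∀ j ∈ B₂, i ≠ j → Disjoint (comp K D (z i)) (comp K D (z j)) := by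
      intro i hi j hj hij
      exact (hG.disjoint hi.1 hj.1 hij).mono (hsubA i hi) (hsubA j hj)
    apply hd.countable_two (A := fun A => comp K D (z A)) hdis
      (fun A hA => hG.isClosed_comp hd.isClosed _) (fun A hA => isPreconnected_comp _)
      (fun A hA => comp_subset_D _) hab
    intro i hi j hj k hk hij hjk hik
    obtain ⟨x, hx, hxK⟩ := hG.not_subset_of_open (hG.mem (z j)) hV ⟨x₀, hx₀⟩
    have hxj : x ∉ comp K D (z j) := fun h => hxK (comp_subset_K _ h)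
    have hsub : ∀ l ∈ B₂, l ≠ j →
        comp K D (z l) ⊆ connectedComponentIn (D \ comp K D (z j)) x := by
      intro l hl hlj
      have hzl := hzQ l hl
      have hdl := hdis l hl j hj hlj
      have hmem : z l ∈ comp K D (z l) := hG.mem_comp hzl.1
      have h1 := (hzl.2 (z j)).resolve_left (disjoint_left.mp hdl hmem) x hx (hVD hx.1) hxj
      apply subset_component_of_inter (isPreconnected_comp _) _ ⟨z l, hmem, h1⟩
      intro u hu
      exact ⟨comp_subset_D _ hu, disjoint_left.mp hdl hu⟩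
    refine ⟨connectedComponentIn (D \ comp K D (z j)) x, isPreconnected_connectedComponentIn,
      (connectedComponentIn_subset _ _).trans sdiff_subset, ?_, hsub i hi hij,
      hsub k hk hjk.symm⟩
    rw [disjoint_right]
    intro u hu
    exact (connectedComponentIn_subset _ _ hu).2
  -- elementary consequences of not being bad
  have hQA : ∀ A ∈ G, A ∉ B₁ → A ∩ ball x₀ ρ ⊆ Q := by
    rintro A hA hA1 y ⟨hyA, hyO⟩
    have hAb : A ⊆ bigPts G := by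
      by_contra hcon
      exact hA1 ⟨hA, hcon⟩
    exact hVQ ⟨hbV (ball_subset_closedBall hyO), hAb hyA⟩
  have huniq : ∀ A ∈ G, A ∉ B₂ → ∀ z ∈ A ∩ Q, ∀ a ∈ comp K D z ∩ sphere v r,
      ∀ b ∈ comp K D z ∩ sphere v r, a = b := by
    rintro A hA hA2 z ⟨hzA, hzQ⟩ a ha b hb
    by_contra hab
    exact hA2 ⟨hA, z, hzA, hzQ, a, ha, b, hb, hab⟩
  -- the third kind of bad members
  set B₃ : Set (Set S) := {A ∈ G | A ∉ B₁ ∧ A ∉ B₂ ∧ ∃ z₁ ∈ A ∩ sphere v r,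
    ∃ z₂ ∈ A ∩ sphere v r, ∃ z₃ ∈ A ∩ sphere v r, (comp K D z₁ ∩ ball x₀ ρ).Nonempty ∧
    (comp K D z₂ ∩ ball x₀ ρ).Nonempty ∧ (comp K D z₃ ∩ ball x₀ ρ).Nonempty ∧
    z₁ ≠ z₂ ∧ z₂ ≠ z₃ ∧ z₁ ≠ z₃} with hB₃
  have hB₃c : B₃.Countable := by
    have hch : ∀ A ∈ B₃, ∃ Y ⊆ A, IsClosed Y ∧ IsPreconnected Y ∧ Y ⊆ (ball x₀ ρ)ᶜ ∧
        ∃ x ∈ Y ∩ sphere x₀ ρ, ∃ y ∈ Y ∩ sphere x₀ ρ, ∃ z ∈ Y ∩ sphere x₀ ρ,
        x ≠ y ∧ y ≠ z ∧ x ≠ z := by
      rintro A ⟨hA, hA1, hA2, z₁, hz₁, z₂, hz₂, z₃, hz₃, hO₁, hO₂, hO₃, h12, h23, h13⟩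
      exact hG.exists_tripod hdisj hQ hQD (fun y hy => hG.comp_subset_core hy) hA (hQA A hA hA1)
        (huniq A hA hA2) hz₁ hz₂ hz₃ h12 h23 h13 hO₁ hO₂ hO₃
    choose! Y hYA hYc hYp hYD hY3 using hch
    refine hd'.countable_three (A := Y) ?_ hYc hYp hYD hY3
    intro i hi j hj hij
    exact (hG.disjoint hi.1 hj.1 hij).mono (hYA i hi) (hYA j hj)
  refine ⟨ρ, B₁ ∪ B₂ ∪ B₃, hρ, hρ2, hdisj, ?_, ?_, ?_, ?_, ?_⟩
  · rintro A ((hA | hA) | hA)
    · exact hA.1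
    · exact hA.1
    · exact hA.1
  · exact (countable_not_subset_bigPts.union hB₂c).union hB₃c
  · intro A hA hAbad z hzA hzO
    have hA1 : A ∉ B₁ := fun h => hAbad (Or.inl (Or.inl h))
    have hA2 : A ∉ B₂ := fun h => hAbad (Or.inl (Or.inr h))
    obtain ⟨w, hwC, hwO⟩ := hzO
    have hKz : K z = A := hG.uniq A hA z hzA
    have hwA : w ∈ A := by
      rw [← hKz]
      exact comp_subset_K z hwC
    have hwQ := hQA A hA hA1 ⟨hwA, hwO⟩
    have := huniq A hA hA2 w ⟨hwA, hwQ⟩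
    rwa [hG.comp_eq hwC] at this
  · intro A hA hAbad z₁ hz₁ z₂ hz₂ z₃ hz₃ hO₁ hO₂ hO₃ h12 h23 h13
    have hA1 : A ∉ B₁ := fun h => hAbad (Or.inl (Or.inl h))
    have hA2 : A ∉ B₂ := fun h => hAbad (Or.inl (Or.inr h))
    exact hAbad (Or.inr ⟨hA, hA1, hA2, z₁, hz₁, z₂, hz₂, z₃, hz₃, hO₁, hO₂, hO₃, h12, h23, h13⟩)
  · exact hpair x₀ hx₀ (ball x₀ ρ) (ball v r) isOpen_ball isOpen_ball (mem_ball_self hρ)
      (mem_ball_self hr)

end Pool.Agent.Lib.MP_1e7707_gt
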