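import Mathlib
import Pool.Agent.Lib.MP_1e7707_gt.Good

/-!
# Hairs in an annulus

Uncountably many members give rise to connected sets (hairs) crossing the annulus between two
balls. We construct the limit sets of the hairs.
-/

open Set Filter Topology Metric

namespace Pool.Agent.Lib.MP_1e7707_gt

section Rel

variable {S : Type} [TopologicalSpace S] {D M : Set S}

lemma notSep_symm {x y : S} (h : (x, y) ∈ notSep D M) : (y, x) ∈ notSep D M := by
  obtain ⟨hx, hy, h⟩ := h
  refine ⟨hy, hx, ?_⟩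
  rcases h with h | h | h
  · exact Or.inr (Or.inl h)
  · exact Or.inl h
  · by_cases hxM : x ∈ M
    · exact Or.inr (Or.inl hxM)
    · right
      right
      simp only at h ⊢
      rw [← connectedComponentIn_eq h]
      exact mem_connectedComponentIn ⟨hx, hxM⟩

lemma notSep_trans {x y z : S} (h : (x, y) ∈ notSep D M) (h' : (y, z) ∈ notSep D M)
    (hy : y ∉ M) : (x, z) ∈ notSep D M := by
  obtain ⟨hx, hyD, h⟩ := h
  obtain ⟨-, hz, h'⟩ := h'
  refine ⟨hx, hz, ?_⟩
  simp only at *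
  rcases h with h | h | h
  · exact Or.inl h
  · exact absurd h hy
  · rcases h' with h' | h' | h'
    · exact absurd h' hy
    · exact Or.inr (Or.inl h')
    · rw [← connectedComponentIn_eq h] at h'
      exact Or.inr (Or.inr h')

end Rel

/-- The data of the hairs. -/
structure HairData {S : Type} [MetricSpace S] (G : Set (Set S)) (K : S → Set S)
    (v x₀ : S) (r ρ₁ ρ₂ : ℝ) (h : ℂ → S) (F : Set (Set S)) (θ : Set S → ℝ) : Prop where
  part : IsContPartition G K
  disk : IsDiskMap h (ball v r)ᶜ (sphere v r)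
  sub : F ⊆ G
  pos : 0 < ρ₁
  lt : ρ₁ < ρ₂
  disj : Disjoint (closedBall x₀ ρ₂) (closedBall v r)
  conn : IsPreconnected (closedBall x₀ ρ₁)
  θ_mem : ∀ A ∈ F, θ A ∈ Ioo 0 (2 * Real.pi)
  circ_mem : ∀ A ∈ F, circ h (θ A) ∈ A
  meet : ∀ A ∈ F, (comp K (ball v r)ᶜ (circ h (θ A)) ∩ ball x₀ ρ₁).Nonempty
  single : ∀ A ∈ F, ∀ a ∈ comp K (ball v r)ᶜ (circ h (θ A)) ∩ sphere v r, a = circ h (θ A)

/-- The closed annulus. -/
def annulus {S : Type} [MetricSpace S] (v x₀ : S) (r ρ : ℝ) : Set S :=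
  (ball v r)ᶜ ∩ (ball x₀ ρ)ᶜ

/-- The hair of a member. -/
def hair {S : Type} [MetricSpace S] (K : S → Set S) (v x₀ : S) (r ρ₁ : ℝ) (h : ℂ → S)
    (θ : Set S → ℝ) (A : Set S) : Set S := comp K (annulus v x₀ r ρ₁) (circ h (θ A))

/-- Two hairs joined by a ball. -/
def bridge {S : Type} [MetricSpace S] (K : S → Set S) (v x₀ : S) (r ρ₁ : ℝ) (h : ℂ → S)
    (θ : Set S → ℝ) (A B : Set S) : Set S :=
  (hair K v x₀ r ρ₁ h θ A ∪ closedBall x₀ ρ₁) ∪ hair K v x₀ r ρ₁ h θ B

/-- Pairs of points not separated by any bridge. -/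
def bridgeRel {S : Type} [MetricSpace S] (K : S → Set S) (v x₀ : S) (r ρ₁ : ℝ) (h : ℂ → S)
    (F : Set (Set S)) (θ : Set S → ℝ) : Set (S × S) :=
  {p | ∀ A ∈ F, ∀ B ∈ F, A ≠ B → p ∈ notSep (ball v r)ᶜ (bridge K v x₀ r ρ₁ h θ A B)}

/-- The class of a point of the circle. -/
def cls {S : Type} [MetricSpace S] (K : S → Set S) (v x₀ : S) (r ρ₁ : ℝ) (h : ℂ → S)
    (F : Set (Set S)) (θ : Set S → ℝ) (t : ℝ) : Set S :=
  {y | (circ h t, y) ∈ bridgeRel K v x₀ r ρ₁ h F θ}

/-- The limit hair at a point of the circle. -/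
def limHair {S : Type} [MetricSpace S] (K : S → Set S) (v x₀ : S) (r ρ₁ ρ₂ : ℝ) (h : ℂ → S)
    (F : Set (Set S)) (θ : Set S → ℝ) (t : ℝ) : Set S :=
  connectedComponentIn (cls K v x₀ r ρ₁ h F θ t ∩ annulus v x₀ r ρ₂) (circ h t)

/-- The two-sided limit points of the parameters of the hairs. -/
def lims {S : Type} (F : Set (Set S)) (θ : Set S → ℝ) : Set ℝ :=
  {t | (∀ s < t, ∃ A ∈ F, s < θ A ∧ θ A < t) ∧ (∀ s > t, ∃ A ∈ F, t < θ A ∧ θ A < s)}

section

variable {S : Type} [MetricSpace S] [CompactSpace S] {G : Set (Set S)} {K : S → Set S}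
  {v x₀ : S} {r ρ₁ ρ₂ : ℝ} {h : ℂ → S} {F : Set (Set S)} {θ : Set S → ℝ}

omit [CompactSpace S] in
lemma isClosed_annulus (ρ : ℝ) : IsClosed (annulus v x₀ r ρ) :=
  isOpen_ball.isClosed_compl.inter isOpen_ball.isClosed_compl

omit [CompactSpace S] in
lemma HairData.sphere_subset (H : HairData G K v x₀ r ρ₁ ρ₂ h F θ) {ρ : ℝ} (hρ : ρ ≤ ρ₂) :
    sphere v r ⊆ annulus v x₀ r ρ := by
  intro y hy
  refine ⟨H.disk.subset hy, fun hb => ?_⟩
  exact disjoint_left.mp H.disj
    (closedBall_subset_closedBall hρ (ball_subset_closedBall hb)) (sphere_subset_closedBall hy)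

omit [CompactSpace S] in
lemma HairData.circ_mem_annulus (H : HairData G K v x₀ r ρ₁ ρ₂ h F θ) {ρ : ℝ} (hρ : ρ ≤ ρ₂)
    (t : ℝ) : circ h t ∈ annulus v x₀ r ρ :=
  H.sphere_subset hρ (H.disk.circ_mem t)

omit [CompactSpace S] in
lemma HairData.annulus_mono (H : HairData G K v x₀ r ρ₁ ρ₂ h F θ) :
    annulus v x₀ r ρ₂ ⊆ annulus v x₀ r ρ₁ :=
  inter_subset_inter_right _ (compl_subset_compl.mpr (ball_subset_ball H.lt.le))

omit [CompactSpace S] in
lemma HairData.K_circ (H : HairData G K v x₀ r ρ₁ ρ₂ h F θ) {A : Set S} (hA : A ∈ F) :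
    K (circ h (θ A)) = A := H.part.uniq A (H.sub hA) _ (H.circ_mem A hA)

omit [CompactSpace S] in
lemma HairData.mem_hair (H : HairData G K v x₀ r ρ₁ ρ₂ h F θ) {A : Set S} :
    circ h (θ A) ∈ hair K v x₀ r ρ₁ h θ A :=
  H.part.mem_comp (H.circ_mem_annulus H.lt.le _)

omit [CompactSpace S] in
lemma HairData.hair_subset (H : HairData G K v x₀ r ρ₁ ρ₂ h F θ) {A : Set S} (hA : A ∈ F) :
    hair K v x₀ r ρ₁ h θ A ⊆ A := by
  have : hair K v x₀ r ρ₁ h θ A ⊆ K (circ h (θ A)) := comp_subset_K _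
  rwa [H.K_circ hA] at this

omit [CompactSpace S] in
lemma hair_subset_annulus {A : Set S} : hair K v x₀ r ρ₁ h θ A ⊆ annulus v x₀ r ρ₁ :=
  comp_subset_D _

omit [CompactSpace S] in
lemma HairData.hair_subset_comp (H : HairData G K v x₀ r ρ₁ ρ₂ h F θ) {A : Set S} :
    hair K v x₀ r ρ₁ h θ A ⊆ comp K (ball v r)ᶜ (circ h (θ A)) :=
  subset_comp (isPreconnected_comp _) (comp_subset_K _)
    ((comp_subset_D _).trans inter_subset_left) H.mem_hair

omit [CompactSpace S] in
lemma HairData.eq_of_mem_hair (H : HairData G K v x₀ r ρ₁ ρ₂ h F θ) {A : Set S} (hA : A ∈ F)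
    {y : S} (hy : y ∈ hair K v x₀ r ρ₁ h θ A) (hyT : y ∈ sphere v r) : y = circ h (θ A) :=
  H.single A hA y ⟨H.hair_subset_comp hy, hyT⟩

lemma HairData.hair_inter_ball (H : HairData G K v x₀ r ρ₁ ρ₂ h F θ) {A : Set S} (hA : A ∈ F) :
    (hair K v x₀ r ρ₁ h θ A ∩ closedBall x₀ ρ₁).Nonempty := by
  have hD : IsClosed (ball v r)ᶜ := isOpen_ball.isClosed_compl
  have hz := H.circ_mem_annulus H.lt.le (θ A)
  obtain ⟨y, hy, hyS⟩ := exists_mem_sphere_of_component (isPreconnected_comp _)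
    (H.part.isClosed_comp hD _) (H.meet A hA) (H.part.mem_comp hz.1) hz.2
  refine ⟨y, ?_, sphere_subset_closedBall hyS⟩
  unfold hair comp
  refine connectedComponentIn_mono _ ?_ hy
  rintro u ⟨huC, hub⟩
  exact ⟨comp_subset_K _ huC, comp_subset_D _ huC, hub⟩

omit [CompactSpace S] in
lemma HairData.isClosed_bridge (H : HairData G K v x₀ r ρ₁ ρ₂ h F θ) (A B : Set S) :
    IsClosed (bridge K v x₀ r ρ₁ h θ A B) :=
  ((H.part.isClosed_comp (isClosed_annulus _) _).union isClosed_closedBall).union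
    (H.part.isClosed_comp (isClosed_annulus _) _)

lemma HairData.isPreconnected_bridge (H : HairData G K v x₀ r ρ₁ ρ₂ h F θ) {A B : Set S}
    (hA : A ∈ F) (hB : B ∈ F) : IsPreconnected (bridge K v x₀ r ρ₁ h θ A B) := by
  obtain ⟨y, hy1, hy2⟩ := H.hair_inter_ball hA
  obtain ⟨z, hz1, hz2⟩ := H.hair_inter_ball hB
  exact IsPreconnected.union z (Or.inr hz2) hz1
    (IsPreconnected.union y hy1 hy2 (isPreconnected_comp _) H.conn) (isPreconnected_comp _)

omit [CompactSpace S] in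
lemma HairData.bridge_subset (H : HairData G K v x₀ r ρ₁ ρ₂ h F θ) (A B : Set S) :
    bridge K v x₀ r ρ₁ h θ A B ⊆ (ball v r)ᶜ := by
  refine union_subset (union_subset ?_ ?_) ?_
  · exact (comp_subset_D _).trans inter_subset_left
  · intro y hy hyb
    exact disjoint_left.mp H.disj (closedBall_subset_closedBall H.lt.le hy)
      (ball_subset_closedBall hyb)
  · exact (comp_subset_D _).trans inter_subset_left

omit [CompactSpace S] in
lemma HairData.circ_mem_bridge (H : HairData G K v x₀ r ρ₁ ρ₂ h F θ) {A B : Set S}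
    (hA : A ∈ F) (hB : B ∈ F) {t : ℝ} (ht : circ h t ∈ bridge K v x₀ r ρ₁ h θ A B) :
    circ h t = circ h (θ A) ∨ circ h t = circ h (θ B) := by
  have htT := H.disk.circ_mem t
  rcases ht with (ht | ht) | ht
  · exact Or.inl (H.eq_of_mem_hair hA ht htT)
  · exfalso
    exact disjoint_left.mp H.disj (closedBall_subset_closedBall H.lt.le ht)
      (sphere_subset_closedBall htT)
  · exact Or.inr (H.eq_of_mem_hair hB ht htT)

/-- Bridges separate points of the circle. -/
lemma HairData.bridge_separates (H : HairData G K v x₀ r ρ₁ ρ₂ h F θ) {A B : Set S}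
    (hA : A ∈ F) (hB : B ∈ F) {a b : ℝ} (h1 : θ A < a) (h2 : a < θ B) (h3 : θ B < b)
    (h4 : b < θ A + 2 * Real.pi) :
    (circ h a, circ h b) ∉ notSep (ball v r)ᶜ (bridge K v x₀ r ρ₁ h θ A B) := by
  have hAm := H.θ_mem A hA
  have hBm := H.θ_mem B hB
  rintro ⟨haD, hbD, hrel⟩
  have ha : circ h a ∉ bridge K v x₀ r ρ₁ h θ A B := by
    intro hab
    rcases H.circ_mem_bridge hA hB hab with heq | heq
    · have := H.disk.circ_inj heq (by linarith) (by linarith)
      linarith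
    · have := H.disk.circ_inj heq (by linarith) (by linarith)
      linarith
  have hb : circ h b ∉ bridge K v x₀ r ρ₁ h θ A B := by
    intro hab
    rcases H.circ_mem_bridge hA hB hab with heq | heq
    · have := H.disk.circ_inj heq (by linarith) (by linarith)
      linarith
    · have := H.disk.circ_inj heq (by linarith) (by linarith)
      linarith
  have hcomp := (hrel.resolve_left ha).resolve_left hb
  simp only at hcomp
  apply H.disk.no_crossing (H.isPreconnected_bridge hA hB) isPreconnected_connectedComponentIn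
    (H.bridge_subset A B) ((connectedComponentIn_subset _ _).trans sdiff_subset)
    (H.isClosed_bridge A B) _ h1 h2 h3 h4 (Or.inl (Or.inl H.mem_hair)) (Or.inr H.mem_hair)
    (mem_connectedComponentIn ⟨haD, ha⟩) hcomp
  rw [disjoint_right]
  intro u hu
  exact (connectedComponentIn_subset _ _ hu).2

omit [CompactSpace S] in
lemma HairData.isClosed_bridgeRel (H : HairData G K v x₀ r ρ₁ ρ₂ h F θ) :
    IsClosed (bridgeRel K v x₀ r ρ₁ h F θ) := by
  have : bridgeRel K v x₀ r ρ₁ h F θ = ⋂ A ∈ F, ⋂ B ∈ F, ⋂ (_ : A ≠ B),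
      notSep (ball v r)ᶜ (bridge K v x₀ r ρ₁ h θ A B) := by
    ext p
    simp only [bridgeRel, mem_iInter]
    rfl
  rw [this]
  refine isClosed_iInter fun A => isClosed_iInter fun _ => isClosed_iInter fun B =>
    isClosed_iInter fun _ => isClosed_iInter fun _ => ?_
  exact H.disk.isClosed_notSep (H.isClosed_bridge A B)

omit [CompactSpace S] in
lemma HairData.isClosed_cls (H : HairData G K v x₀ r ρ₁ ρ₂ h F θ) (t : ℝ) :
    IsClosed (cls K v x₀ r ρ₁ h F θ t) :=
  H.isClosed_bridgeRel.preimage (f := fun y => (circ h t, y)) (by fun_prop)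

omit [CompactSpace S] in
lemma HairData.circ_mem_cls (H : HairData G K v x₀ r ρ₁ ρ₂ h F θ) (t : ℝ) :
    circ h t ∈ cls K v x₀ r ρ₁ h F θ t :=
  fun _ _ _ _ _ => notSep_self (H.disk.subset (H.disk.circ_mem t))

omit [CompactSpace S] in
lemma HairData.mem_Ioo_of_mem_lims (H : HairData G K v x₀ r ρ₁ ρ₂ h F θ) {t : ℝ}
    (ht : t ∈ lims F θ) : t ∈ Ioo 0 (2 * Real.pi) := by
  obtain ⟨A, hA, -, hA2⟩ := ht.1 (t - 1) (by linarith)
  obtain ⟨B, hB, hB1, -⟩ := ht.2 (t + 1) (by linarith)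
  exact ⟨(H.θ_mem A hA).1.trans hA2, hB1.trans (H.θ_mem B hB).2⟩

/-- The class of a limit parameter meets the circle in one point. -/
lemma HairData.cls_inter_circle (H : HairData G K v x₀ r ρ₁ ρ₂ h F θ) {t : ℝ}
    (ht : t ∈ lims F θ) {s : S} (hs : s ∈ cls K v x₀ r ρ₁ h F θ t) (hsT : s ∈ sphere v r) :
    s = circ h t := by
  obtain ⟨s', hs', rfl⟩ := H.disk.exists_circ 0 hsT
  rw [zero_add] at hs'
  have htI := H.mem_Ioo_of_mem_lims ht
  rcases lt_trichotomy s' t with hlt | heq | hgt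
  · exfalso
    obtain ⟨A, hA, hA1, hA2⟩ := ht.1 s' hlt
    obtain ⟨B, hB, hB1, hB2⟩ := ht.2 (2 * Real.pi) htI.2
    have hAB : A ≠ B := by
      rintro rfl
      linarith
    apply H.bridge_separates hA hB hA2 hB1 (b := s' + 2 * Real.pi) (by linarith [hs'.1])
      (by linarith)
    rw [circ_add_two_pi]
    exact hs A hA B hB hAB
  · rw [heq]
  · exfalso
    obtain ⟨A, hA, hA1, hA2⟩ := ht.2 s' hgt
    obtain ⟨B, hB, hB1, hB2⟩ := ht.1 0 htI.1
    have hAB : B ≠ A := by
      rintro rfl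
      linarith
    apply H.bridge_separates hB hA hB2 hA1 hA2 (by linarith [hs'.2])
    exact hs B hB A hA hAB

omit [CompactSpace S] in
lemma HairData.not_mem_closedBall (H : HairData G K v x₀ r ρ₁ ρ₂ h F θ) {y : S}
    (hy : y ∈ annulus v x₀ r ρ₂) : y ∉ closedBall x₀ ρ₁ := by
  intro hb
  apply hy.2
  rw [mem_ball]
  rw [mem_closedBall] at hb
  exact hb.trans_lt H.lt

/-- Classes of distinct limit parameters are disjoint in the smaller annulus. -/
lemma HairData.cls_disjoint (H : HairData G K v x₀ r ρ₁ ρ₂ h F θ) {t t' : ℝ}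
    (ht : t ∈ lims F θ) (ht' : t' ∈ lims F θ) (htt' : t < t') {y : S}
    (hy : y ∈ cls K v x₀ r ρ₁ h F θ t) (hy' : y ∈ cls K v x₀ r ρ₁ h F θ t')
    (hyA : y ∈ annulus v x₀ r ρ₂) : False := by
  have htI := H.mem_Ioo_of_mem_lims ht
  have htI' := H.mem_Ioo_of_mem_lims ht'
  have main : ∀ A ∈ F, ∀ B ∈ F, t < θ A → θ A < t' → t' < θ B → θ B < 2 * Real.pi →
      K y = A ∨ K y = B := by
    intro A hA B hB h1 h2 h3 h4
    have hAB : A ≠ B := by
      rintro rfl
      linarith
    have hyM : y ∈ bridge K v x₀ r ρ₁ h θ A B := by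
      by_contra hyM
      apply H.bridge_separates hA hB h2 h3 (b := t + 2 * Real.pi) (by linarith [htI.1])
        (by linarith)
      rw [circ_add_two_pi]
      exact notSep_trans (hy' A hA B hB hAB) (notSep_symm (hy A hA B hB hAB)) hyM
    rcases hyM with (hyM | hyM) | hyM
    · exact Or.inl (H.part.uniq A (H.sub hA) y (H.hair_subset hA hyM))
    · exact absurd hyM (H.not_mem_closedBall hyA)
    · exact Or.inr (H.part.uniq B (H.sub hB) y (H.hair_subset hB hyM))
  obtain ⟨A₁, hA₁, hA₁1, hA₁2⟩ := ht.2 t' htt'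
  obtain ⟨A₂, hA₂, hA₂1, hA₂2⟩ := ht.2 (θ A₁) hA₁1
  obtain ⟨B₁, hB₁, hB₁1, hB₁2⟩ := ht'.2 (2 * Real.pi) htI'.2
  obtain ⟨B₂, hB₂, hB₂1, hB₂2⟩ := ht'.2 (θ B₁) hB₁1
  have e1 := main A₁ hA₁ B₁ hB₁ hA₁1 hA₁2 hB₁1 hB₁2
  have e2 := main A₂ hA₂ B₂ hB₂ hA₂1 (by linarith) hB₂1 (by linarith)
  have hne : ∀ A B : Set S, θ A < θ B → A ≠ B := by
    rintro A B hlt rfl
    exact lt_irrefl _ hlt
  rcases e1 with e1 | e1 <;> rcases e2 with e2 | e2
  · exact hne A₂ A₁ hA₂2 (e2.symm.trans e1)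
  · exact hne A₁ B₂ (by linarith) (e1.symm.trans e2)
  · exact hne A₂ B₁ (by linarith) (e2.symm.trans e1)
  · exact hne B₂ B₁ hB₂2 (e2.symm.trans e1)

omit [CompactSpace S] in
/-- Classes are saturated. -/
lemma HairData.comp_subset_cls (H : HairData G K v x₀ r ρ₁ ρ₂ h F θ) {t : ℝ} {y : S}
    (hy : y ∈ cls K v x₀ r ρ₁ h F θ t) (hyA : y ∈ annulus v x₀ r ρ₂) :
    comp K (annulus v x₀ r ρ₂) y ⊆ cls K v x₀ r ρ₁ h F θ t := by
  intro y' hy' A hA B hB hAB
  set C := comp K (annulus v x₀ r ρ₂) y with hC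
  have hyC : y ∈ C := H.part.mem_comp hyA
  have hCA : C ⊆ annulus v x₀ r ρ₂ := comp_subset_D _
  -- if `C` meets a hair, it is contained in the hair
  have hmeet : ∀ A ∈ F, (C ∩ hair K v x₀ r ρ₁ h θ A).Nonempty →
      C ⊆ hair K v x₀ r ρ₁ h θ A := by
    rintro A hA ⟨u, huC, huH⟩
    have hKu : K u = K y := H.part.K_eq (comp_subset_K _ huC)
    have hKA : K u = A := H.part.uniq A (H.sub hA) u (H.hair_subset hA huH)
    have h1 : comp K (annulus v x₀ r ρ₁) u = hair K v x₀ r ρ₁ h θ A := H.part.comp_eq huH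
    rw [← h1]
    apply subset_comp (isPreconnected_comp _) _ (hCA.trans H.annulus_mono) huC
    rw [hKu]
    exact comp_subset_K _
  have hrel := hy A hA B hB hAB
  refine ⟨hrel.1, (hCA hy').1, ?_⟩
  rcases hrel.2.2 with h1 | h1 | h1
  · exact Or.inl h1
  · right
    left
    rcases h1 with (h1 | h1) | h1
    · exact Or.inl (Or.inl (hmeet A hA ⟨y, hyC, h1⟩ hy'))
    · exact absurd h1 (H.not_mem_closedBall hyA)
    · exact Or.inr (hmeet B hB ⟨y, hyC, h1⟩ hy')
  · right
    right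
    have hyM : y ∉ bridge K v x₀ r ρ₁ h θ A B := (connectedComponentIn_subset _ _ h1).2
    apply subset_component_of_inter (isPreconnected_comp _) _ ⟨y, hyC, h1⟩ hy'
    intro u hu
    refine ⟨(hCA hu).1, ?_⟩
    rintro ((huM | huM) | huM)
    · exact hyM (Or.inl (Or.inl (hmeet A hA ⟨u, hu, huM⟩ hyC)))
    · exact H.not_mem_closedBall (hCA hu) huM
    · exact hyM (Or.inr (hmeet B hB ⟨u, hu, huM⟩ hyC))

omit [CompactSpace S] in
lemma HairData.mem_limHair (H : HairData G K v x₀ r ρ₁ ρ₂ h F θ) (t : ℝ) :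
    circ h t ∈ limHair K v x₀ r ρ₁ ρ₂ h F θ t :=
  mem_connectedComponentIn ⟨H.circ_mem_cls t, H.circ_mem_annulus le_rfl t⟩

omit [CompactSpace S] in
lemma HairData.isClosed_limHair (H : HairData G K v x₀ r ρ₁ ρ₂ h F θ) (t : ℝ) :
    IsClosed (limHair K v x₀ r ρ₁ ρ₂ h F θ t) :=
  isClosed_component ((H.isClosed_cls t).inter (isClosed_annulus _)) _

omit [CompactSpace S] in
lemma limHair_subset_cls (t : ℝ) :
    limHair K v x₀ r ρ₁ ρ₂ h F θ t ⊆ cls K v x₀ r ρ₁ h F θ t :=
  (connectedComponentIn_subset _ _).trans inter_subset_left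

omit [CompactSpace S] in
lemma limHair_subset_annulus (t : ℝ) :
    limHair K v x₀ r ρ₁ ρ₂ h F θ t ⊆ annulus v x₀ r ρ₂ :=
  (connectedComponentIn_subset _ _).trans inter_subset_right

omit [CompactSpace S] in
/-- Limit hairs are saturated. -/
lemma HairData.comp_subset_limHair (H : HairData G K v x₀ r ρ₁ ρ₂ h F θ) {t : ℝ} {y : S}
    (hy : y ∈ limHair K v x₀ r ρ₁ ρ₂ h F θ t) :
    comp K (annulus v x₀ r ρ₂) y ⊆ limHair K v x₀ r ρ₁ ρ₂ h F θ t := by
  have hyA : y ∈ annulus v x₀ r ρ₂ := ((connectedComponentIn_subset _ _) hy).2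
  have hyc : y ∈ cls K v x₀ r ρ₁ h F θ t := ((connectedComponentIn_subset _ _) hy).1
  apply subset_component_of_inter (isPreconnected_comp _)
  · exact subset_inter (H.comp_subset_cls hyc hyA) (comp_subset_D _)
  · exact ⟨y, H.part.mem_comp hyA, hy⟩

/-- Limit hairs are pairwise disjoint. -/
lemma HairData.limHair_disjoint (H : HairData G K v x₀ r ρ₁ ρ₂ h F θ) {t t' : ℝ}
    (ht : t ∈ lims F θ) (ht' : t' ∈ lims F θ) (htt' : t ≠ t') :
    Disjoint (limHair K v x₀ r ρ₁ ρ₂ h F θ t) (limHair K v x₀ r ρ₁ ρ₂ h F θ t') := by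
  rw [disjoint_left]
  intro y hy hy'
  have h1 := connectedComponentIn_subset _ _ hy
  have h2 := connectedComponentIn_subset _ _ hy'
  rcases lt_or_gt_of_ne htt' with hlt | hlt
  · exact H.cls_disjoint ht ht' hlt h1.1 h2.1 h1.2
  · exact H.cls_disjoint ht' ht hlt h2.1 h1.1 h1.2

/-- Limit hairs reach the inner sphere. -/
lemma HairData.limHair_inter_sphere (H : HairData G K v x₀ r ρ₁ ρ₂ h F θ) {t : ℝ}
    (ht : t ∈ lims F θ) : (limHair K v x₀ r ρ₁ ρ₂ h F θ t ∩ sphere x₀ ρ₂).Nonempty := by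
  have hex : ∀ n : ℕ, ∃ A ∈ F, t < θ A ∧ θ A < t + 1 / (n + 1) := by
    intro n
    apply ht.2
    have : (0 : ℝ) < 1 / ((n : ℝ) + 1) := by positivity
    linarith
  choose A hAF hA1 hA2 using hex
  have hlim : Tendsto (fun n => θ (A n)) atTop (𝓝 t) := by
    have h0 : Tendsto (fun n : ℕ => t + 1 / ((n : ℝ) + 1)) atTop (𝓝 (t + 0)) :=
      tendsto_const_nhds.add tendsto_one_div_add_atTop_nhds_zero_nat
    rw [add_zero] at h0
    exact tendsto_of_tendsto_of_tendsto_of_le_of_le tendsto_const_nhds h0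
      (fun n => (hA1 n).le) (fun n => (hA2 n).le)
  have hclim : Tendsto (fun n => circ h (θ (A n))) atTop (𝓝 (circ h t)) :=
    (H.disk.continuous_circ.tendsto t).comp hlim
  set C : ℕ → Set S := fun n => comp K (annulus v x₀ r ρ₂) (circ h (θ (A n))) with hC
  have hann : IsClosed (annulus v x₀ r ρ₂) := isClosed_annulus _
  have hmem : ∀ n, circ h (θ (A n)) ∈ C n := fun n =>
    H.part.mem_comp (H.circ_mem_annulus le_rfl _)
  have hpre : IsPreconnected (limset C) :=
    isPreconnected_limset (fun n => isPreconnected_comp _) hmem hclim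
  have htL : circ h t ∈ limset C := mem_limset_of_tendsto hmem hclim
  have hLA : limset C ⊆ annulus v x₀ r ρ₂ := limset_subset hann fun n => comp_subset_D _
  have hLcls : limset C ⊆ cls K v x₀ r ρ₁ h F θ t := by
    intro y hy
    refine rel_of_mem_limset (x := fun n => circ h (θ (A n))) hclim H.isClosed_bridgeRel ?_ hy
    intro n y hy
    exact H.comp_subset_cls (H.circ_mem_cls (θ (A n))) (H.circ_mem_annulus le_rfl _) hy
  have hLlim : limset C ⊆ limHair K v x₀ r ρ₁ ρ₂ h F θ t :=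
    hpre.subset_connectedComponentIn htL (subset_inter hLcls hLA)
  have hsph : ∀ n, (C n ∩ sphere x₀ ρ₂).Nonempty := by
    intro n
    have hD : IsClosed (ball v r)ᶜ := isOpen_ball.isClosed_compl
    have hz := H.circ_mem_annulus le_rfl (θ (A n))
    obtain ⟨y, hy, hyS⟩ := exists_mem_sphere_of_component (isPreconnected_comp _)
      (H.part.isClosed_comp hD _)
      ((H.meet (A n) (hAF n)).mono (inter_subset_inter_right _ (ball_subset_ball H.lt.le)))
      (H.part.mem_comp hz.1) hz.2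
    refine ⟨y, ?_, hyS⟩
    simp only [hC, comp]
    refine connectedComponentIn_mono _ ?_ hy
    rintro u ⟨huC, hub⟩
    exact ⟨comp_subset_K _ huC, comp_subset_D _ huC, hub⟩
  obtain ⟨y, hyL, hyS⟩ := limset_inter_nonempty isClosed_sphere hsph
  exact ⟨y, hLlim hyL, hyS⟩

/-- All but countably many limit hairs meet the inner sphere in only one point. -/
lemma HairData.countable_two_points (H : HairData G K v x₀ r ρ₁ ρ₂ h F θ) {h' : ℂ → S}
    (hd' : IsDiskMap h' (ball x₀ ρ₂)ᶜ (sphere x₀ ρ₂)) :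
    {t ∈ lims F θ | ∃ a ∈ limHair K v x₀ r ρ₁ ρ₂ h F θ t ∩ sphere x₀ ρ₂,
      ∃ b ∈ limHair K v x₀ r ρ₁ ρ₂ h F θ t ∩ sphere x₀ ρ₂, a ≠ b}.Countable := by
  apply hd'.countable_two (A := limHair K v x₀ r ρ₁ ρ₂ h F θ)
  · intro i hi j hj hij
    exact H.limHair_disjoint hi.1 hj.1 hij
  · intro i _
    exact H.isClosed_limHair i
  · intro i _
    exact isPreconnected_connectedComponentIn
  · intro i _
    exact (limHair_subset_annulus i).trans inter_subset_right
  · intro i hi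
    exact hi.2
  · intro i hi j hj k hk hij hjk hik
    have hne : ∀ i ∈ lims F θ, i ≠ j → circ h i ∈ sphere v r \ {circ h j} := by
      intro i hi hij
      refine ⟨H.disk.circ_mem i, fun heq => hij ?_⟩
      have h1 := H.mem_Ioo_of_mem_lims hi
      have h2 := H.mem_Ioo_of_mem_lims hj.1
      exact H.disk.circ_inj heq (by linarith [h1.1, h2.2]) (by linarith [h1.2, h2.1])
    refine ⟨((sphere v r \ {circ h j}) ∪ limHair K v x₀ r ρ₁ ρ₂ h F θ i) ∪
      limHair K v x₀ r ρ₁ ρ₂ h F θ k, ?_, ?_, ?_, ?_, ?_⟩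
    · apply IsPreconnected.union (circ h k) (Or.inl (hne k hk.1 hjk.symm)) (H.mem_limHair k) _
        isPreconnected_connectedComponentIn
      exact IsPreconnected.union (circ h i) (hne i hi.1 hij) (H.mem_limHair i)
        (H.disk.isPreconnected_circle_diff j) isPreconnected_connectedComponentIn
    · refine union_subset (union_subset ?_ ?_) ?_
      · exact sdiff_subset.trans ((H.sphere_subset le_rfl).trans inter_subset_right)
      · exact (limHair_subset_annulus i).trans inter_subset_right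
      · exact (limHair_subset_annulus k).trans inter_subset_right
    · rw [disjoint_left]
      rintro y hy ((hy' | hy') | hy')
      · exact hy'.2 (H.cls_inter_circle hj.1 (limHair_subset_cls j hy) hy'.1)
      · exact disjoint_left.mp (H.limHair_disjoint hj.1 hi.1 hij.symm) hy hy'
      · exact disjoint_left.mp (H.limHair_disjoint hj.1 hk.1 hjk) hy hy'
    · exact fun y hy => Or.inl (Or.inr hy)
    · exact fun y hy => Or.inr hy

/-- A limit hair which meets the inner sphere in one point and contains no member is a component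
of the trace of a member. -/
lemma HairData.comp_inter_sphere (H : HairData G K v x₀ r ρ₁ ρ₂ h F θ) {t : ℝ}
    (ht : t ∈ lims F θ)
    (hone : ∀ a ∈ limHair K v x₀ r ρ₁ ρ₂ h F θ t ∩ sphere x₀ ρ₂,
      ∀ b ∈ limHair K v x₀ r ρ₁ ρ₂ h F θ t ∩ sphere x₀ ρ₂, a = b)
    (hno : ∀ A ∈ G, ¬ A ⊆ limHair K v x₀ r ρ₁ ρ₂ h F θ t) :
    (comp K (ball v r)ᶜ (circ h t) ∩ sphere x₀ ρ₂).Nonempty := by
  obtain ⟨e, heR, heS⟩ := H.limHair_inter_sphere ht
  have hann : IsClosed (annulus v x₀ r ρ₂) := isClosed_annulus _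
  have hdich : ∀ y ∈ limHair K v x₀ r ρ₁ ρ₂ h F θ t,
      y ∈ comp K (annulus v x₀ r ρ₂) (circ h t) ∨ y ∈ comp K (annulus v x₀ r ρ₂) e := by
    intro y hy
    have hyA : y ∈ annulus v x₀ r ρ₂ := limHair_subset_annulus t hy
    have hnot : ¬ K y ⊆ annulus v x₀ r ρ₂ := by
      intro hsub
      apply hno (K y) (H.part.mem y)
      have h1 : K y ⊆ comp K (annulus v x₀ r ρ₂) y :=
        subset_comp (H.part.conn _ (H.part.mem y)) Subset.rfl hsub (H.part.self y)
      exact h1.trans (H.comp_subset_limHair hy)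
    obtain ⟨u, hu, huc⟩ := bumping_inter (H.part.conn _ (H.part.mem y))
      (H.part.closed _ (H.part.mem y)) hann hnot ⟨H.part.self y, hyA⟩
    have huC : u ∈ comp K (annulus v x₀ r ρ₂) y := hu
    have huR := H.comp_subset_limHair hy huC
    have huA : u ∈ annulus v x₀ r ρ₂ := comp_subset_D _ huC
    have h1 : K y \ annulus v x₀ r ρ₂ ⊆ closedBall v r ∪ closedBall x₀ ρ₂ := by
      rintro w ⟨-, hw⟩
      by_cases hw1 : w ∈ ball v r
      · exact Or.inl (ball_subset_closedBall hw1)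
      · by_cases hw2 : w ∈ ball x₀ ρ₂
        · exact Or.inr (ball_subset_closedBall hw2)
        · exact absurd ⟨hw1, hw2⟩ hw
    have h2 := closure_minimal h1 (isClosed_closedBall.union isClosed_closedBall) huc
    rcases h2 with h2 | h2
    · left
      have huT : u ∈ sphere v r := by
        have := huA.1
        rw [mem_compl_iff, mem_ball] at this
        rw [mem_closedBall] at h2
        rw [mem_sphere]
        linarith
      have hut := H.cls_inter_circle ht (limHair_subset_cls t huR) huT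
      rw [← hut, H.part.comp_eq huC]
      exact H.part.mem_comp hyA
    · right
      have huT : u ∈ sphere x₀ ρ₂ := by
        have := huA.2
        rw [mem_compl_iff, mem_ball] at this
        rw [mem_closedBall] at h2
        rw [mem_sphere]
        linarith
      have hue := hone u ⟨huR, huT⟩ e ⟨heR, heS⟩
      rw [← hue, H.part.comp_eq huC]
      exact H.part.mem_comp hyA
  have hpre : IsPreconnected (limHair K v x₀ r ρ₁ ρ₂ h F θ t) :=
    isPreconnected_connectedComponentIn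
  rw [isPreconnected_closed_iff] at hpre
  obtain ⟨w, -, hw1, hw2⟩ := hpre (comp K (annulus v x₀ r ρ₂) (circ h t))
    (comp K (annulus v x₀ r ρ₂) e) (H.part.isClosed_comp hann _) (H.part.isClosed_comp hann _)
    hdich ⟨circ h t, H.mem_limHair t, H.part.mem_comp (H.circ_mem_annulus le_rfl t)⟩
    ⟨e, heR, H.part.mem_comp (limHair_subset_annulus t heR)⟩
  have heq : comp K (annulus v x₀ r ρ₂) (circ h t) = comp K (annulus v x₀ r ρ₂) e :=
    (H.part.comp_eq hw1).symm.trans (H.part.comp_eq hw2)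
  refine ⟨e, ?_, heS⟩
  have he : e ∈ comp K (annulus v x₀ r ρ₂) (circ h t) := by
    rw [heq]
    exact H.part.mem_comp (limHair_subset_annulus t heR)
  have hsub : comp K (annulus v x₀ r ρ₂) (circ h t) ⊆ comp K (ball v r)ᶜ (circ h t) :=
    subset_comp (isPreconnected_comp _) (comp_subset_K _)
      ((comp_subset_D _).trans inter_subset_left)
      (H.part.mem_comp (H.circ_mem_annulus le_rfl t))
  exact hsub he

end

end Pool.Agent.Lib.MP_1e7707_gt
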