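import Mathlib
import Pool.Agent.Lib.MP_1e7707_gt.Hairs

/-!
# The counting argument

The proof that a partition of a cap space into at least two closed connected sets has at least
continuum many members.
-/

open Set Filter Topology Metric

namespace Pool.Agent.Lib.MP_1e7707_gt

open Cardinal in
/-- Uncountable Borel sets of real numbers have size continuum. -/
lemma mk_of_measurableSet {E : Set ℝ} (hE : MeasurableSet E) (hc : ¬ E.Countable) :
    #E = continuum := by
  have : StandardBorelSpace E := hE.standardBorel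
  have hnc : ¬ Countable E := hc
  have e := (PolishSpace.measurableEquivNatBoolOfNotCountable hnc).toEquiv
  rw [mk_congr e]
  simp

/-- The set of two-sided limit points is Borel. -/
lemma measurableSet_lims {S : Type} {F : Set (Set S)} {θ : Set S → ℝ} :
    MeasurableSet (lims F θ) := by
  have heq : lims F θ = (⋂ n : ℕ, ⋃ A ∈ F, Ioo (θ A) (θ A + 1 / (n + 1))) ∩
      (⋂ n : ℕ, ⋃ A ∈ F, Ioo (θ A - 1 / (n + 1)) (θ A)) := by
    ext t
    simp only [lims, mem_inter_iff, mem_iInter, mem_iUnion, mem_Ioo, exists_prop]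
    constructor
    · rintro ⟨h1, h2⟩
      refine ⟨fun n => ?_, fun n => ?_⟩
      · obtain ⟨A, hA, hA1, hA2⟩ := h1 (t - 1 / (n + 1)) (by
          have : (0 : ℝ) < 1 / ((n : ℝ) + 1) := by positivity
          linarith)
        exact ⟨A, hA, hA2, by linarith⟩
      · obtain ⟨A, hA, hA1, hA2⟩ := h2 (t + 1 / (n + 1)) (by
          have : (0 : ℝ) < 1 / ((n : ℝ) + 1) := by positivity
          linarith)
        exact ⟨A, hA, by linarith, hA1⟩
    · rintro ⟨h1, h2⟩
      constructor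
      · intro s hs
        obtain ⟨n, hn⟩ := exists_nat_one_div_lt (show 0 < t - s by linarith)
        obtain ⟨A, hA, hA1, hA2⟩ := h1 n
        exact ⟨A, hA, by linarith, hA1⟩
      · intro s hs
        obtain ⟨n, hn⟩ := exists_nat_one_div_lt (show 0 < s - t by linarith)
        obtain ⟨A, hA, hA1, hA2⟩ := h2 n
        exact ⟨A, hA, hA2, by linarith⟩
  rw [heq]
  apply MeasurableSet.inter
  · exact MeasurableSet.iInter fun n =>
      (isOpen_biUnion fun A _ => isOpen_Ioo).measurableSet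
  · exact MeasurableSet.iInter fun n =>
      (isOpen_biUnion fun A _ => isOpen_Ioo).measurableSet

/-- All but countably many parameters are two-sided limit points. -/
lemma countable_image_diff_lims {S : Type} {F : Set (Set S)} {θ : Set S → ℝ} :
    (θ '' F \ lims F θ).Countable := by
  have h1 := countable_setOfPred_isolated_right_within (s := θ '' F)
  have h2 := countable_setOfPred_isolated_left_within (s := θ '' F)
  refine (h1.union h2).mono ?_
  rintro t ⟨ht, htl⟩
  by_contra hcon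
  simp only [mem_union, not_or] at hcon
  obtain ⟨hr, hl⟩ := hcon
  have hr' : 𝓝[θ '' F ∩ Ioi t] t ≠ ⊥ := fun h => hr ⟨ht, h⟩
  have hl' : 𝓝[θ '' F ∩ Iio t] t ≠ ⊥ := fun h => hl ⟨ht, h⟩
  apply htl
  constructor
  · intro s hs
    have hne : (𝓝[θ '' F ∩ Iio t] t).NeBot := ⟨hl'⟩
    rw [← mem_closure_iff_nhdsWithin_neBot, _root_.mem_closure_iff] at hne
    obtain ⟨_, hy1, ⟨⟨A, hA, rfl⟩, hy2⟩⟩ := hne (Ioi s) isOpen_Ioi hs
    exact ⟨A, hA, hy1, hy2⟩
  · intro s hs
    have hne : (𝓝[θ '' F ∩ Ioi t] t).NeBot := ⟨hr'⟩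
    rw [← mem_closure_iff_nhdsWithin_neBot, _root_.mem_closure_iff] at hne
    obtain ⟨_, hy1, ⟨⟨A, hA, rfl⟩, hy2⟩⟩ := hne (Iio s) isOpen_Iio hs
    exact ⟨A, hA, hy2, hy1⟩

section

variable {S : Type} [MetricSpace S] [CompactSpace S] {G : Set (Set S)} {K : S → Set S}
  {v x₀ : S} {r ρ : ℝ}

/-- Selection of the hair data. -/
theorem IsContPartition.exists_hairData (hG : IsContPartition G K) (hS : IsCapSpace S)
    (hρ : 0 < ρ) {Bad : Set (Set S)}
    (hdisj : Disjoint (closedBall x₀ ρ) (closedBall v r)) (hBad : Bad.Countable)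
    {h : ℂ → S} (hd : IsDiskMap h (ball v r)ᶜ (sphere v r))
    (hsingle : ∀ A ∈ G, A ∉ Bad → ∀ z ∈ A, (comp K (ball v r)ᶜ z ∩ ball x₀ ρ).Nonempty →
        ∀ a ∈ comp K (ball v r)ᶜ z ∩ sphere v r, ∀ b ∈ comp K (ball v r)ᶜ z ∩ sphere v r, a = b)
    (hunc : ¬ (meets G (ball x₀ ρ) ∩ meets G (ball v r)).Countable) :
    ∃ (ρ₁ ρ₂ : ℝ) (F : Set (Set S)) (θ : Set S → ℝ), HairData G K v x₀ r ρ₁ ρ₂ h F θ ∧
      ρ₂ < ρ ∧ ¬ F.Countable ∧ ∀ A ∈ F, A ∉ Bad := by
  classical
  set I : Set (Set S) := (meets G (ball x₀ ρ) ∩ meets G (ball v r)) \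
    (Bad ∪ {A ∈ G | circ h 0 ∈ A}) with hI
  have hIu : ¬ I.Countable := by
    intro hc
    apply hunc
    have h1 : {A ∈ G | circ h 0 ∈ A}.Countable := by
      apply Set.Subsingleton.countable
      rintro A ⟨hA, hA0⟩ B ⟨hB, hB0⟩
      exact hG.eq_of_mem hA hB hA0 hB0
    refine (hc.union (hBad.union h1)).mono ?_
    intro A hA
    by_cases hA' : A ∈ Bad ∪ {A ∈ G | circ h 0 ∈ A}
    · exact Or.inr hA'
    · exact Or.inl ⟨hA, hA'⟩
  have hIG : ∀ A ∈ I, A ∈ G := fun A hA => hA.1.1.1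
  have hdistI : ∀ A ∈ I, ∃ w ∈ A, dist w x₀ < ρ := by
    intro A hA
    obtain ⟨w, hwA, hwb⟩ := hA.1.1.2
    exact ⟨w, hwA, hwb⟩
  -- choose the radius
  set s : ℕ → ℝ := fun n => ρ - ρ / (n + 2) with hs
  have hs0 : ∀ n, 0 < s n := by
    intro n
    have h2 : (0 : ℝ) < (n : ℝ) + 2 := by positivity
    have h1 : ρ / ((n : ℝ) + 2) < ρ := by
      rw [div_lt_iff₀ h2]
      have : (0 : ℝ) ≤ (n : ℝ) := by positivity
      nlinarith
    simp only [hs]
    linarith
  have hs1 : ∀ n, s n < ρ := by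
    intro n
    have h1 : 0 < ρ / ((n : ℝ) + 2) := by positivity
    simp only [hs]
    linarith
  have hsub : I ⊆ ⋃ n : ℕ, {A ∈ I | ∃ w ∈ A, dist w x₀ < s n} := by
    intro A hA
    obtain ⟨w, hwA, hw⟩ := hdistI A hA
    obtain ⟨n, hn⟩ := exists_nat_gt (ρ / (ρ - dist w x₀))
    refine mem_iUnion.mpr ⟨n, hA, w, hwA, ?_⟩
    have h3 : 0 < ρ - dist w x₀ := by linarith
    rw [div_lt_iff₀ h3] at hn
    have h2 : (0 : ℝ) < (n : ℝ) + 2 := by positivity
    have h4 : ρ / ((n : ℝ) + 2) < ρ - dist w x₀ := by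
      rw [div_lt_iff₀ h2]
      nlinarith
    simp only [hs]
    linarith
  obtain ⟨n, hn⟩ : ∃ n : ℕ, ¬ {A ∈ I | ∃ w ∈ A, dist w x₀ < s n}.Countable := by
    by_contra hcon
    push Not at hcon
    exact hIu ((countable_iUnion hcon).mono hsub)
  have hS1 : Nonempty S := ⟨x₀⟩
  -- choose the parameters
  have hex : ∀ A ∈ {A ∈ I | ∃ w ∈ A, dist w x₀ < s n}, ∃ θ : ℝ, θ ∈ Ioo 0 (2 * Real.pi) ∧
      circ h θ ∈ A ∧ (comp K (ball v r)ᶜ (circ h θ) ∩ ball x₀ (s n)).Nonempty := by
    rintro A ⟨hA, w, hwA, hw⟩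
    have hAG := hIG A hA
    have hKw : K w = A := hG.uniq A hAG w hwA
    have hwv : w ∉ ball v r := by
      intro hwv
      exact disjoint_left.mp hdisj (mem_closedBall.mpr (hw.trans (hs1 n)).le)
        (ball_subset_closedBall hwv)
    obtain ⟨z, hz, hzT⟩ := hG.comp_inter_sphere hwv (by
      rw [hKw]
      intro hsub
      obtain ⟨u, huA, hub⟩ := hA.1.2.2
      exact hsub huA hub)
    have hzA : z ∈ A := by
      rw [← hKw]
      exact comp_subset_K w hz
    have hz0 : z ≠ circ h 0 := by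
      rintro rfl
      exact hA.2 (Or.inr ⟨hAG, hzA⟩)
    obtain ⟨θ, hθ, rfl⟩ := hd.exists_circ_Ioo hzT hz0
    refine ⟨θ, hθ, hzA, w, ?_, hw⟩
    rw [hG.comp_eq hz]
    exact hG.mem_comp hwv
  choose! θ hθ hθA hθb using hex
  refine ⟨s n, (s n + ρ) / 2, {A ∈ I | ∃ w ∈ A, dist w x₀ < s n}, θ, ?_, ?_, hn, ?_⟩
  · exact
      { part := hG
        disk := hd
        sub := fun A hA => hIG A hA.1
        pos := hs0 n
        lt := by linarith [hs1 n]
        disj := hdisj.mono_left (closedBall_subset_closedBall (by linarith [hs1 n]))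
        conn := hS.conn_ball x₀ (s n) (hs0 n)
        θ_mem := hθ
        circ_mem := hθA
        meet := hθb
        single := by
          intro A hA a ha
          apply hsingle A (hIG A hA.1) (fun h => hA.1.2 (Or.inl h)) (circ h (θ A)) (hθA A hA)
            ((hθb A hA).mono (inter_subset_inter_right _ (ball_subset_ball (hs1 n).le))) a ha
          exact ⟨hG.mem_comp (hd.subset (hd.circ_mem _)), hd.circ_mem _⟩ }
  · linarith [hs1 n]
  · exact fun A hA h => hA.1.2 (Or.inl h)

open Cardinal in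
/-- **Main theorem for cap spaces.** -/
theorem IsContPartition.continuum_le (hG : IsContPartition G K) (hS : IsCapSpace S)
    (hnt : G.Nontrivial) : continuum ≤ #G := by
  by_contra hlt
  have hGu : ¬ G.Countable := hG.not_countable hnt hS.connected hS.conn_ball
  obtain ⟨v, x₀, r, V, hr, hr2, hV, hx₀, hVv, hpair, hsep⟩ := hG.exists_cap hS hGu hlt
  obtain ⟨ρ, Bad, hρ, hρ2, hdisj, hBadG, hBad, hsingle, hthree, hunc⟩ :=
    hG.exists_good hS hr hr2 hV hx₀ hVv hpair hsep
  obtain ⟨h, hd⟩ := hS.disk v r hr hr2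
  obtain ⟨ρ₁, ρ₂, F, θ, H, hρ₂, hFu, hFBad⟩ :=
    hG.exists_hairData hS hρ hdisj hBad hd hsingle hunc
  obtain ⟨h', hd'⟩ := hS.disk x₀ ρ₂ (H.pos.trans H.lt) (hρ₂.trans hρ2)
  -- the Borel set of parameters
  set E : Set ℝ := lims F θ \ ⋃ A ∈ Bad, circ h ⁻¹' A with hE
  have hEm : MeasurableSet E := by
    apply measurableSet_lims.diff
    apply MeasurableSet.biUnion hBad
    intro A hA
    exact ((hG.closed A (hBadG hA)).preimage hd.continuous_circ).measurableSet
  have hθinj : InjOn θ F := by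
    intro A hA B hB hAB
    have h1 := H.circ_mem A hA
    have h2 := H.circ_mem B hB
    rw [hAB] at h1
    exact hG.eq_of_mem (H.sub hA) (H.sub hB) h1 h2
  have hEu : ¬ E.Countable := by
    intro hc
    have h1 : (θ '' F).Countable := by
      refine (hc.union (countable_image_diff_lims (F := F) (θ := θ))).mono ?_
      rintro _ ⟨A, hA, rfl⟩
      by_cases hl : θ A ∈ lims F θ
      · left
        refine ⟨hl, ?_⟩
        intro hmem
        obtain ⟨B, hB, hAB⟩ := mem_iUnion₂.mp hmem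
        have := hG.eq_of_mem (H.sub hA) (hBadG hB) (H.circ_mem A hA) hAB
        exact hFBad A hA (this ▸ hB)
      · exact Or.inr ⟨⟨A, hA, rfl⟩, hl⟩
    exact hFu (countable_of_injective_of_countable_image hθinj h1)
  have hEc : #E = continuum := mk_of_measurableSet hEm hEu
  -- the exceptional parameters
  set E₁ : Set ℝ := {t ∈ lims F θ | ∃ a ∈ limHair K v x₀ r ρ₁ ρ₂ h F θ t ∩ sphere x₀ ρ₂,
      ∃ b ∈ limHair K v x₀ r ρ₁ ρ₂ h F θ t ∩ sphere x₀ ρ₂, a ≠ b} with hE₁
  have hE₁c : E₁.Countable := H.countable_two_points hd'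
  set E₂ : Set ℝ := {t ∈ lims F θ | ∃ A ∈ G, A ⊆ limHair K v x₀ r ρ₁ ρ₂ h F θ t} with hE₂
  set E₃ : Set ℝ := E \ (E₁ ∪ E₂) with hE₃
  have haleph : ℵ₀ ≤ #G := by
    by_contra hcon
    push Not at hcon
    apply hGu
    have : Finite G := lt_aleph0_iff_finite.mp hcon
    exact (Set.toFinite G).countable
  have hE₂c : #E₂ ≤ #G := by
    have hch : ∀ t : E₂, ∃ A : G, (A : Set S) ⊆ limHair K v x₀ r ρ₁ ρ₂ h F θ t := by
      rintro ⟨t, ht, A, hA, hAt⟩
      exact ⟨⟨A, hA⟩, hAt⟩
    choose f hf using hch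
    apply mk_le_of_injective (f := f)
    intro t t' htt'
    by_contra hne
    have hne' : (t : ℝ) ≠ t' := fun h => hne (Subtype.ext h)
    obtain ⟨y, hy⟩ := hG.nonempty (f t) (f t).2
    have h1 := hf t hy
    have h2 : y ∈ limHair K v x₀ r ρ₁ ρ₂ h F θ t' := hf t' (by rw [← htt']; exact hy)
    exact disjoint_left.mp (H.limHair_disjoint t.2.1 t'.2.1 hne') h1 h2
  have hE₃c : #E₃ ≤ #G := by
    -- the fibres are finite
    have hgood : ∀ t ∈ E₃, (comp K (ball v r)ᶜ (circ h t) ∩ ball x₀ ρ).Nonempty := by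
      rintro t ⟨htE, htn⟩
      obtain ⟨e, he, heS⟩ := H.comp_inter_sphere htE.1 (by
        intro a ha b hb
        by_contra hab
        exact htn (Or.inl ⟨htE.1, a, ha, b, hb, hab⟩)) (by
        intro A hA hAt
        exact htn (Or.inr ⟨htE.1, A, hA, hAt⟩))
      refine ⟨e, he, ?_⟩
      rw [mem_sphere] at heS
      rw [mem_ball, heS]
      exact hρ₂
    have hfin : ∀ A : G, {t : E₃ | K (circ h t) = A}.Finite := by
      intro A
      by_contra hinf
      obtain ⟨s, hs, hcard⟩ := Set.Infinite.exists_subset_card_eq hinf 3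
      classical
      obtain ⟨t₁, t₂, t₃, h12, h13, h23, rfl⟩ := Finset.card_eq_three.mp hcard
      have e1 : K (circ h t₁) = A := hs (by simp)
      have e2 : K (circ h t₂) = A := hs (by simp)
      have e3 : K (circ h t₃) = A := hs (by simp)
      have hbad : (A : Set S) ∉ Bad := by
        intro hb
        apply t₁.2.1.2
        refine mem_iUnion₂.mpr ⟨A, hb, ?_⟩
        rw [mem_preimage, ← e1]
        exact hG.self _
      have hin : ∀ t : E₃, K (circ h t) = A → circ h t ∈ (A : Set S) ∩ sphere v r := by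
        intro t ht
        refine ⟨?_, hd.circ_mem _⟩
        rw [← ht]
        exact hG.self _
      have hne : ∀ t t' : E₃, t ≠ t' → circ h t ≠ circ h t' := by
        intro t t' hne heq
        have h1 := H.mem_Ioo_of_mem_lims t.2.1.1
        have h2 := H.mem_Ioo_of_mem_lims t'.2.1.1
        exact hne (Subtype.ext (hd.circ_inj heq (by linarith [h1.1, h2.2])
          (by linarith [h1.2, h2.1])))
      exact hthree A A.2 hbad _ (hin t₁ e1) _ (hin t₂ e2) _ (hin t₃ e3) (hgood t₁ t₁.2)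
        (hgood t₂ t₂.2) (hgood t₃ t₃.2) (hne _ _ h12) (hne _ _ h23) (hne _ _ h13)
    have h1 : #E₃ ≤ ℵ₀ * #G := by
      have hle := mk_le_mk_mul_of_mk_preimage_le (c := ℵ₀)
        (fun t : E₃ => (⟨K (circ h t), hG.mem _⟩ : G)) (by
          intro A
          have h2 : (fun t : E₃ => (⟨K (circ h t), hG.mem _⟩ : G)) ⁻¹' {A} =
              {t : E₃ | K (circ h t) = A} := by
            ext t
            simp only [mem_preimage, mem_singleton_iff]
            constructor
            · intro h3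
              exact congrArg Subtype.val h3
            · intro h3
              exact Subtype.ext h3
          rw [h2]
          exact (hfin A).countable.le_aleph0)
      rwa [mul_comm] at hle
    exact h1.trans (mul_le_of_le haleph haleph le_rfl)
  -- conclusion
  have hsubE : E ⊆ (E₁ ∪ E₂) ∪ E₃ := by
    intro t ht
    by_cases h1 : t ∈ E₁ ∪ E₂
    · exact Or.inl h1
    · exact Or.inr ⟨ht, h1⟩
  apply hlt
  calc continuum = #E := hEc.symm
    _ ≤ #((E₁ ∪ E₂ : Set ℝ) ∪ E₃ : Set ℝ) := mk_le_mk_of_subset hsubE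
    _ ≤ #(E₁ ∪ E₂ : Set ℝ) + #E₃ := mk_union_le _ _
    _ ≤ (#E₁ + #E₂) + #E₃ := by gcongr; exact mk_union_le _ _
    _ ≤ (#G + #G) + #G := by
      gcongr
      exact (hE₁c.le_aleph0).trans haleph
    _ = #G := by rw [add_eq_self haleph, add_eq_self haleph]

end

end Pool.Agent.Lib.MP_1e7707_gt
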