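import Mathlib
import Pool.Agent.Lib.MP_1e7707_gt.Counting

/-!
# The round sphere is a cap space
-/

open Set Filter Topology Metric

namespace Pool.Agent.Lib.MP_1e7707_gt

/-- The three dimensional Euclidean space. -/
abbrev E3 := EuclideanSpace ℝ (Fin 3)

/-- The unit sphere of the three dimensional Euclidean space. -/
abbrev S2 : Type := sphere (0 : E3) 1

/-- The distance from the pole of a point given by the inverse stereographic projection. -/
lemma dist_stereoInv (v : S2) (w : (Submodule.span ℝ {(v : E3)})ᗮ) :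
    dist (stereoInvFun (norm_eq_of_mem_sphere v) w) v ^ 2 = 16 / (‖w‖ ^ 2 + 4) := by
  have hvn := norm_eq_of_mem_sphere v
  have hpos : (0 : ℝ) < ‖w‖ ^ 2 + 4 := by positivity
  have hw : inner ℝ (v : E3) (w : E3) = 0 :=
    Submodule.mem_orthogonal_singleton_iff_inner_right.mp w.2
  have hx : ‖((stereoInvFun (norm_eq_of_mem_sphere v) w : S2) : E3)‖ = 1 := norm_eq_of_mem_sphere _
  have hinner : inner ℝ ((stereoInvFun (norm_eq_of_mem_sphere v) w : S2) : E3) (v : E3) =
      (‖w‖ ^ 2 - 4) / (‖w‖ ^ 2 + 4) := by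
    rw [stereoInvFun_apply, inner_smul_left, inner_add_left, inner_smul_left, inner_smul_left,
      real_inner_comm, hw, real_inner_self_eq_norm_sq, hvn]
    simp
    field_simp
  rw [Subtype.dist_eq, dist_eq_norm, norm_sub_sq_real, hx, hvn, hinner]
  field_simp
  ring

/-- The complement of an open cap is a closed disk. -/
theorem exists_diskMap (v : S2) {r : ℝ} (hr : 0 < r) (hr2 : r < 2) :
    ∃ h : ℂ → S2, IsDiskMap h (ball v r)ᶜ (sphere v r) := by
  have hfr : Fact (Module.finrank ℝ E3 = 2 + 1) := ⟨by simp⟩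
  have hne : (v : E3) ≠ 0 := by
    intro h0
    have := norm_eq_of_mem_sphere v
    rw [h0, norm_zero] at this
    exact zero_ne_one this
  let iso : ℂ ≃ₗᵢ[ℝ] (Submodule.span ℝ {(v : E3)})ᗮ :=
    Complex.orthonormalBasisOneI.repr.trans
      (OrthonormalBasis.fromOrthogonalSpanSingleton 2 hne).repr.symm
  set ρ : ℝ := 2 * √(4 - r ^ 2) / r with hρ
  have h4 : 0 < 4 - r ^ 2 := by nlinarith
  have hρpos : 0 < ρ := by positivity
  have hρsq : ρ ^ 2 = 4 * (4 - r ^ 2) / r ^ 2 := by
    rw [hρ, div_pow, mul_pow, Real.sq_sqrt h4.le]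
    norm_num
  have hρr : 16 / (ρ ^ 2 + 4) = r ^ 2 := by
    rw [hρsq]
    field_simp
    ring
  set f : ℂ → S2 := fun z => stereoInvFun (norm_eq_of_mem_sphere v) (ρ • iso z) with hf
  have hcont : Continuous f :=
    (continuous_stereoInvFun (norm_eq_of_mem_sphere v)).comp (iso.continuous.const_smul ρ)
  have hinj : Function.Injective f := by
    intro z z' hzz
    have h1 : Function.Injective (stereoInvFun (norm_eq_of_mem_sphere v)) :=
      Function.LeftInverse.injective (g := fun x : S2 => stereoToFun (v : E3) (x : E3))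
        (stereo_right_inv (norm_eq_of_mem_sphere v))
    have h2 := h1 hzz
    have h3 := smul_right_injective _ hρpos.ne' h2
    exact iso.injective h3
  have hdist : ∀ z, dist (f z) v ^ 2 = 16 / (ρ ^ 2 * ‖z‖ ^ 2 + 4) := by
    intro z
    rw [hf]
    simp only
    rw [dist_stereoInv, norm_smul, iso.norm_map, mul_pow, Real.norm_eq_abs, sq_abs]
  have hsurj : ∀ x : S2, x ≠ v → ∃ z, f z = x := by
    intro x hx
    refine ⟨iso.symm (ρ⁻¹ • stereoToFun (v : E3) (x : E3)), ?_⟩
    simp only [hf]
    rw [LinearIsometryEquiv.apply_symm_apply, smul_smul, mul_inv_cancel₀ hρpos.ne', one_smul]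
    exact stereo_left_inv (norm_eq_of_mem_sphere v) (fun h => hx (Subtype.ext h))
  have hle : ∀ z, r ≤ dist (f z) v ↔ ‖z‖ ≤ 1 := by
    intro z
    have h5 : (0 : ℝ) < ρ ^ 2 * ‖z‖ ^ 2 + 4 := by positivity
    have h6 : (0 : ℝ) < ρ ^ 2 + 4 := by positivity
    rw [← sq_le_sq₀ hr.le dist_nonneg, hdist, ← hρr, div_le_div_iff_of_pos_left (by norm_num) h6 h5,
      add_le_add_iff_right, mul_le_iff_le_one_right (by positivity),
      sq_le_one_iff₀ (norm_nonneg z)]
  have heq : ∀ z, dist (f z) v = r ↔ ‖z‖ = 1 := by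
    intro z
    have h5 : (0 : ℝ) < ρ ^ 2 * ‖z‖ ^ 2 + 4 := by positivity
    have h6 : (0 : ℝ) < ρ ^ 2 + 4 := by positivity
    rw [← sq_eq_sq₀ dist_nonneg hr.le, hdist, ← hρr, div_eq_div_iff h5.ne' h6.ne']
    constructor
    · intro h7
      have h8 : ρ ^ 2 * (‖z‖ ^ 2 - 1) = 0 := by linarith
      have h9 : ‖z‖ ^ 2 = 1 := by
        rcases mul_eq_zero.mp h8 with h | h
        · exact absurd h (by positivity)
        · linarith
      exact (pow_eq_one_iff_of_nonneg (norm_nonneg z) two_ne_zero).mp h9
    · intro h7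
      rw [h7]
      ring
  refine ⟨f, hcont.continuousOn, hinj.injOn, ?_, ?_⟩
  · ext x
    rw [mem_compl_iff, mem_ball, not_lt]
    constructor
    · rintro ⟨z, hz, rfl⟩
      rw [mem_closedBall_zero_iff] at hz
      exact (hle z).mpr hz
    · intro hx
      obtain ⟨z, rfl⟩ := hsurj x (by
        rintro rfl
        rw [dist_self] at hx
        linarith)
      exact ⟨z, mem_closedBall_zero_iff.mpr ((hle z).mp hx), rfl⟩
  · ext x
    rw [mem_sphere]
    constructor
    · rintro ⟨z, hz, rfl⟩
      rw [mem_sphere_zero_iff_norm] at hz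
      exact (heq z).mpr hz
    · intro hx
      obtain ⟨z, rfl⟩ := hsurj x (by
        rintro rfl
        rw [dist_self] at hx
        linarith)
      exact ⟨z, mem_sphere_zero_iff_norm.mpr ((heq z).mp hx), rfl⟩

/-- The round sphere is a cap space. -/
theorem isCapSpace_S2 : IsCapSpace S2 where
  connected := by
    have h1 : IsPreconnected (sphere (0 : E3) 1) := by
      apply isPreconnected_sphere
      rw [← Module.finrank_eq_rank]
      simp
    have : PreconnectedSpace S2 := Subtype.preconnectedSpace h1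
    exact isPreconnected_univ
  disk := fun v r hr hr2 => exists_diskMap v hr hr2
  conn_ball := by
    intro v r hr
    by_cases hr2 : r < 2
    · have h4 : 0 < 4 - r ^ 2 := by nlinarith
      have h5 : √(4 - r ^ 2) < 2 := by
        rw [Real.sqrt_lt' (by norm_num)]
        nlinarith
      obtain ⟨h, hd⟩ := exists_diskMap (-v) (Real.sqrt_pos.mpr h4) h5
      have heq : closedBall v r = (ball (-v) √(4 - r ^ 2))ᶜ := by
        ext x
        rw [mem_closedBall, mem_compl_iff, mem_ball, not_lt, ← sq_le_sq₀ dist_nonneg hr.le,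
          ← sq_le_sq₀ (Real.sqrt_nonneg _) dist_nonneg, Real.sq_sqrt h4.le, Subtype.dist_eq,
          Subtype.dist_eq, dist_eq_norm, dist_eq_norm, norm_sub_sq_real, norm_sub_sq_real]
        have hx := norm_eq_of_mem_sphere x
        have hv := norm_eq_of_mem_sphere v
        have hv' := norm_eq_of_mem_sphere (-v)
        rw [hx, hv, hv']
        have : inner ℝ (x : E3) ((-v : S2) : E3) = - inner ℝ (x : E3) (v : E3) := by
          have : ((-v : S2) : E3) = -(v : E3) := rfl
          rw [this, inner_neg_right]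
        rw [this]
        constructor <;> intro h <;> linarith
      rw [heq, ← hd.image_disk]
      exact (convex_closedBall (0 : ℂ) 1).isPreconnected.image _ hd.cont
    · have heq : closedBall v r = univ := by
        ext x
        simp only [mem_closedBall, mem_univ, iff_true]
        rw [Subtype.dist_eq, dist_eq_norm]
        calc ‖(x : E3) - v‖ ≤ ‖(x : E3)‖ + ‖(v : E3)‖ := norm_sub_le _ _
          _ = 2 := by rw [norm_eq_of_mem_sphere x, norm_eq_of_mem_sphere v]; norm_num
          _ ≤ r := not_lt.mp hr2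
      rw [heq]
      have h1 : IsPreconnected (sphere (0 : E3) 1) := by
        apply isPreconnected_sphere
        rw [← Module.finrank_eq_rank]
        simp
      have : PreconnectedSpace S2 := Subtype.preconnectedSpace h1
      exact isPreconnected_univ

end Pool.Agent.Lib.MP_1e7707_gt
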