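import Mathlib
import Pool.Agent.Lib.MP_1e7707_gt.Sphere

/-!
# Partitions of the plane into continua
-/

open Set Filter Topology Metric

namespace Pool.Agent.Lib.MP_1e7707_gt

/-- A partition in the usual sense gives the structure used in the proof. -/
lemma exists_isContPartition {S : Type} [TopologicalSpace S] {G : Set (Set S)}
    (hclosed : ∀ A ∈ G, IsClosed A) (hconn : ∀ A ∈ G, IsConnected A)
    (hdisj : G.PairwiseDisjoint id) (hcov : ⋃₀ G = univ) :
    ∃ K : S → Set S, IsContPartition G K := by
  have hex : ∀ x : S, ∃ A ∈ G, x ∈ A := by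
    intro x
    have : x ∈ ⋃₀ G := by rw [hcov]; exact mem_univ x
    exact this
  choose K hK hxK using hex
  refine ⟨K, hK, hxK, ?_, hclosed, fun A hA => (hconn A hA).isPreconnected,
    fun A hA => (hconn A hA).nonempty⟩
  intro A hA x hx
  by_contra hne
  exact disjoint_left.mp (hdisj (hK x) hA hne) (hxK x) hx

open Cardinal in
/-- **Partitions of the sphere.** A partition of the two dimensional sphere into at least two
closed connected sets has at least continuum many members. -/
theorem continuum_le_of_sphere_partition {G : Set (Set S2)}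
    (hclosed : ∀ A ∈ G, IsClosed A) (hconn : ∀ A ∈ G, IsConnected A)
    (hdisj : G.PairwiseDisjoint id) (hcov : ⋃₀ G = Set.univ) (hnt : G.Nontrivial) :
    continuum ≤ #G := by
  obtain ⟨K, hG⟩ := exists_isContPartition hclosed hconn hdisj hcov
  exact hG.continuum_le isCapSpace_S2 hnt

/-- The plane embeds in the sphere as the complement of a point. -/
theorem exists_plane_embedding :
    ∃ (v : S2) (g : EuclideanSpace ℝ (Fin 2) → S2), Continuous g ∧ Function.Injective g ∧
      range g = {v}ᶜ := by
  have hfr : Fact (Module.finrank ℝ E3 = 2 + 1) := ⟨by simp⟩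
  let v : S2 := ⟨EuclideanSpace.single 0 1, by simp⟩
  have hne : (v : E3) ≠ 0 := by
    intro h0
    have := norm_eq_of_mem_sphere v
    rw [h0, norm_zero] at this
    exact zero_ne_one this
  let iso : EuclideanSpace ℝ (Fin 2) ≃ₗᵢ[ℝ] (Submodule.span ℝ {(v : E3)})ᗮ :=
    (OrthonormalBasis.fromOrthogonalSpanSingleton 2 hne).repr.symm
  refine ⟨v, fun z => stereoInvFun (norm_eq_of_mem_sphere v) (iso z),
    (continuous_stereoInvFun _).comp iso.continuous, ?_, ?_⟩
  · have h1 : Function.Injective (stereoInvFun (norm_eq_of_mem_sphere v)) :=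
      Function.LeftInverse.injective (g := fun x : S2 => stereoToFun (v : E3) (x : E3))
        (stereo_right_inv (norm_eq_of_mem_sphere v))
    exact h1.comp iso.injective
  · ext x
    constructor
    · rintro ⟨z, rfl⟩
      exact stereoInvFun_ne_north_pole _ _
    · intro hx
      refine ⟨iso.symm (stereoToFun (v : E3) (x : E3)), ?_⟩
      simp only [LinearIsometryEquiv.apply_symm_apply]
      exact stereo_left_inv _ (fun h => hx (Subtype.ext h))

open Cardinal in
/-- **Partitions of the plane.** A partition of the plane into continua has at least continuum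
many members. -/
theorem continuum_le_of_plane_partition {G : Set (Set (EuclideanSpace ℝ (Fin 2)))}
    (hcont : ∀ A ∈ G, IsCompact A ∧ IsConnected A)
    (hdisj : G.PairwiseDisjoint id) (hcov : ⋃₀ G = Set.univ) : continuum ≤ #G := by
  obtain ⟨v, g, hg, hinj, hrange⟩ := exists_plane_embedding
  have hgv : ∀ z, g z ≠ v := by
    intro z hz
    have : g z ∈ range g := mem_range_self z
    rw [hrange] at this
    exact this hz
  set G' : Set (Set S2) := insert {v} ((fun A => g '' A) '' G) with hG'
  have h1 : continuum ≤ #G' := by
    apply continuum_le_of_sphere_partition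
    · rintro A (rfl | ⟨B, hB, rfl⟩)
      · exact isClosed_singleton
      · exact ((hcont B hB).1.image hg).isClosed
    · rintro A (rfl | ⟨B, hB, rfl⟩)
      · exact isConnected_singleton
      · exact (hcont B hB).2.image g hg.continuousOn
    · rintro A (rfl | ⟨B, hB, rfl⟩) A' (rfl | ⟨B', hB', rfl⟩) hne
      · exact absurd rfl hne
      · simp only [Function.onFun, id]
        rw [disjoint_left]
        rintro x hx ⟨z, -, hz⟩
        rw [mem_singleton_iff.mp hx] at hz
        exact hgv z hz
      · simp only [Function.onFun, id]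
        rw [disjoint_right]
        rintro x hx ⟨z, -, hz⟩
        rw [mem_singleton_iff.mp hx] at hz
        exact hgv z hz
      · simp only [Function.onFun, id]
        rw [disjoint_image_iff hinj]
        apply hdisj hB hB'
        rintro rfl
        exact hne rfl
    · ext x
      simp only [mem_univ, iff_true]
      by_cases hx : x = v
      · exact ⟨{v}, Or.inl rfl, hx⟩
      · have hxr : x ∈ range g := by rw [hrange]; exact hx
        obtain ⟨z, rfl⟩ := hxr
        have hz : z ∈ ⋃₀ G := by rw [hcov]; exact mem_univ z
        obtain ⟨A, hA, hzA⟩ := hz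
        exact ⟨g '' A, Or.inr ⟨A, hA, rfl⟩, mem_image_of_mem g hzA⟩
    · have hz : (0 : EuclideanSpace ℝ (Fin 2)) ∈ ⋃₀ G := by rw [hcov]; exact mem_univ _
      obtain ⟨A, hA, hzA⟩ := hz
      refine ⟨{v}, Or.inl rfl, g '' A, Or.inr ⟨A, hA, rfl⟩, ?_⟩
      intro heq
      have : g 0 ∈ ({v} : Set S2) := by
        rw [heq]
        exact mem_image_of_mem g hzA
      exact hgv 0 this
  have h2 : #G' ≤ #G + 1 :=
    (mk_insert_le).trans (by gcongr; exact mk_image_le)
  by_contra hlt
  push Not at hlt
  have h3 : #G + 1 < continuum :=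
    add_lt_of_lt aleph0_le_continuum hlt (one_lt_aleph0.trans aleph0_lt_continuum)
  exact absurd (h1.trans h2) (not_le.mpr h3)

end Pool.Agent.Lib.MP_1e7707_gt
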